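import Pool.Agent.Lib.MP_fed171_al.RP.Defs

/-!
# Project RP (MP_fed171_al): statements of the pieces

Piece `x` is the file `RP/P_x.lean` with `theorem p_x : S_x` (namespace of this file), or
`theorem p_x (h1 : S_..) .. : S_x` where the docstring says that a piece may be used as a hypothesis.
-/

set_option autoImplicit false

namespace Pool.Agent.Lib.MP_fed171_al.RP

open Pool.Agent.Lib.MP_fed171_al.FD (L2 lam IsCocycle delta pull)

/-! ## Matrices over the group ring mod `p` of a locally `p`-indicable group -/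

/-- A nonzero shift-invariant space of functions contains a nonzero function which is fixed by the
shift.
PROOF. Let `k = ZMod p`, `E = ι → ZMod p → k`, `T : E →ₗ[k] E`, `(T w) j m = w j (m + 1)`. `T ^ p = 1`
(`m + p = m`), so `(T - 1) ^ p = T ^ p - 1 = 0` (`Module.End k E` has characteristic `p`, `T` and `1`
commute: `sub_pow_char_of_commute` or `add_pow_char_of_commute`; alternatively
`(T - 1)^p = Σ_i (p choose i) ..` directly). Take `0 ≠ w ∈ V` and the least `e ≥ 1` with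
`(T - 1) ^ e w = 0` (`Nat.find`); `u = (T - 1) ^ (e - 1) w` is in `V` (closed under `T` and
subtraction), nonzero, and `T u = u`. -/
def S_fix : Prop :=
  ∀ (p : ℕ) [Fact p.Prime] (ι : Type) (V : Submodule (ZMod p) (ι → ZMod p → ZMod p)),
    (∀ w ∈ V, (fun j m => w j (m + 1)) ∈ V) → V ≠ ⊥ →
    ∃ u ∈ V, u ≠ 0 ∧ ∀ j m, u j (m + 1) = u j m

/-- THE STREBEL-GERSTEN LEMMA: a matrix over the group ring mod `p` of `Q` with injective
augmentation is injective, if every nontrivial finitely generated subgroup of `Q` has a nontrivial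
homomorphism to `ℤ/p`.
PROOF (may use `S_fix`). `k = ZMod p`. For a subgroup `M` of `Q` and `z ∈ k[Q]` let
`z_M = z.coeff.mapDomain (QuotientGroup.mk : Q → Q ⧸ M)` (sum of the coefficients over the left
cosets `x M`). CLAIM, by strong induction on `n`: for all finite `ι`, `A : κ → ι → k[Q]`, subgroups `M`
of `Q` and `u : ι → k[Q]` such that
(H) for `w : ι → k`: if `(∑ j, w j • A i j)_M = 0` for all `i` then `w = 0`;
(S) all supports of the `u j` are in `M`; (E) `∑ j, A i j * u j = 0` for all `i`;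
(n) `∑ j, (|supp (u j)| - 1) ≤ n` (natural subtraction): `u = 0`.
(The lemma is the case `M = ⊤`: `z_⊤` is the augmentation.) Proof of the claim. Restricting `ι` to the
`j` with `u j ≠ 0` keeps (H), (S), (E), (n): assume all `u j ≠ 0`, and, for a contradiction, `ι` nonempty.
Choose `q j ∈ supp (u j) ⊆ M`; replace `A i j` by `A i j * single (q j) 1` and `u j` by
`single (q j)⁻¹ 1 * u j`: (S), (E), (n) clear, (H) because `(z * single q 1)_M = z_M` for `q ∈ M`. Now
`1 ∈ supp (u j)` for all `j`. Let `K` be the subgroup generated by the union of the supports: `K ≤ M`,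
finitely generated. If `K = ⊥` then `u j = single 1 (w j)` and (E) says `∑ j, w j • A i j = 0`, so `w = 0`
by (H): contradiction. Otherwise take `φ : K →* Multiplicative (ZMod p)`, `φ ≠ 1`, `K₁` = the kernel of
`φ` as a subgroup of `Q`, `t ∈ K` with `φ t = ofAdd 1` (`φ` is onto, the order is prime). New data: index
set `ι × ZMod p`, `A' i (j, m) = A i j * single (t ^ m.val) 1`, `u' (j, m) = single (t ^ m.val)⁻¹ 1 *` (the part of
`u j` on the elements `x ∈ K` with `φ x = ofAdd m`), subgroup `K₁`. (S), (E) clear. (n): the supports of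
the parts add up to the support of `u j`, the part `m = 0` is nonempty (`1` is in it), and for at least one
`j` another part is nonempty (otherwise `K ≤ K₁`, but `φ ≠ 1`); so the complexity drops. (H) for the new
data: the set `V` of the `w : ι → ZMod p → k` with `(∑ j m, w j m • A' i (j, m))_(K₁) = 0` for all `i` is a
subspace, invariant under the shift (`K₁` is normalised by `t` and `t ^ p ∈ K₁`: right multiplication
by `t⁻¹` permutes the cosets `x K₁`, `x ∈ Q`: if `z_(K₁) = 0` then `(z t⁻¹)_(K₁) = 0`, and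
`(a t ^ m.val t⁻¹)_(K₁) = (a t ^ (m - 1).val)_(K₁)`). If `V ≠ 0`, `S_fix` gives
`0 ≠ w ∈ V` with `w j m = c j`; the coefficient of `(∑ j, c j • A i j * ∑ m, t ^ m.val)_(K₁)` at `x K₁` is
the coefficient of `(∑ j, c j • A i j)_K` at `x K` (`K` is the disjoint union of the `K₁ t ^ m.val`), so
`(∑ j, c j • A i j)_K = 0`, hence `(..)_M = 0` as `K ≤ M`, and `c = 0` by (H): contradiction. So `V = 0`, which
is (H) for the new data, and `u' = 0` by induction; but `u'` has nonzero entries. -/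
def S_alg : Prop :=
  ∀ (p : ℕ) [Fact p.Prime] (Q : Type) [Group Q], LocInd p Q →
    ∀ (ι κ : Type) [Fintype ι] [Fintype κ] (A : Matrix κ ι (MonoidAlgebra (ZMod p) Q)),
    (∀ v : ι → ZMod p, (A.map aug).mulVec v = 0 → v = 0) →
    ∀ v : ι → MonoidAlgebra (ZMod p) Q, A.mulVec v = 0 → v = 0

/-! ## The trivial group -/

/-- Integral matrices which are injective mod `p`.
PROOF. `M = Aᵀ A` over `ℝ`. `A` is injective over `ℤ` (a nonzero integral kernel vector can be divided by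
`p` until it is nonzero mod `p`), so over `ℚ`, so `det (Aᵀ A) ≠ 0` (`Matrix.exists_mulVec_eq_zero_iff`:
if the determinant over `ℚ` vanished there were `v ≠ 0` rational, then integral, with `Aᵀ A v = 0`, so
`|A v|² = 0`). `det (Aᵀ A)` is a positive integer, `≥ 1` (the real matrix is positive semidefinite, or: it
is a nonnegative nonzero integer, `Matrix.PosSemidef.det_nonneg`). Eigenvalues `λ_i` of the hermitian
real matrix `M` (`Matrix.IsHermitian.eigenvalues`): `λ_i ≥ 0`, product `= det ≥ 1`, so all `λ_i > 0` and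
`∑ log λ_i ≥ 0`; `λ_i ≤ K` by the row sum bound (if `M v = λ v`, take `i` with `|v_i|` maximal).
`trace ((1 - M / K)^(2N)) = ∑ (1 - λ_i / K)^(2N)` (spectral theorem, or `(1 - M/K)^(2N)` is similar to the
diagonal matrix). Pointwise, for `0 < λ ≤ K`:
`(1 - λ/K)^(2N) ≤ exp (-(2N) exp (-1/δ) / K) + δ log K - δ log λ`: if `λ ≤ exp (-1/δ)` the left side is `≤ 1`
and `-δ log λ ≥ 1`; if `λ ≥ exp (-1/δ)` then `(1 - λ/K)^(2N) ≤ exp (-2Nλ/K) ≤ exp (-2N exp (-1/δ)/K)` and
`δ log K - δ log λ ≥ 0`. Sum over `i`. -/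
def S_mat : Prop :=
  ∀ (p : ℕ) [Fact p.Prime] (ι κ : Type) [Fintype ι] [DecidableEq ι] [Fintype κ]
    (A : Matrix κ ι ℤ),
    (∀ v : ι → ZMod p, (A.map (fun z : ℤ => (z : ZMod p))).mulVec v = 0 → v = 0) →
    ∀ (K : ℝ) (N : ℕ) (δ : ℝ), 1 ≤ K → 0 < δ →
      (∀ i, ∑ j, |(((A.transpose * A) i j : ℤ) : ℝ)| ≤ K) →
      ((1 - K⁻¹ • (A.transpose * A).map (fun z : ℤ => (z : ℝ)) : Matrix ι ι ℝ) ^ (2 * N)).trace ≤
        Fintype.card ι * bnd K N δ

/-- Trivial groups have the trace property.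
PROOF (may use `S_mat`). For a trivial group `G` every element of `R[G]` is `single 1 (aug a)`
(`aug a = a.coeff 1`) and `aug : R[G] → R` is a ring isomorphism (`MonoidAlgebra.uniqueRingEquiv`),
`adj a = a`, `l1 a = |aug a|`, `aug (toR a) = aug a`. So `tr (BB A K ^ (2N))` is the trace of
`(1 - K⁻¹ • (A₀ᵀ A₀))^(2N)`, `A₀ = A.map aug` (apply `RingHom.mapMatrix`). -/
def S_base : Prop :=
  ∀ (P : Set ℕ) (G : Type) [Group G] [Subsingleton G], (∃ p ∈ P, p.Prime) → DD P G

/-! ## Limits -/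

/-- The trace property is closed under limits.
PROOF. Given `A`, `K`, `N`, `δ`: let `S` be a finite subset of `G` containing `1`, the supports of all
entries of `A`, closed under inversion, and `F = S ^ (6N + 6)` (a finite set containing all products
of at most `6N + 6` elements of `S`). Take `φ : G → H` for `F`. `φ 1 = 1` (`φ (1 * 1) = φ 1 * φ 1`), `φ` is
multiplicative and injective on `F`, so `φ x⁻¹ = (φ x)⁻¹` for `x, x⁻¹ ∈ F`. Let `a' = mapDomain φ a` and
`A' = A.map (mapDomain φ)`. For `a`, `b` with `supp a, supp b ⊆ F` and `φ (x * y) = φ x * φ y` on the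
supports: `(a * b)' = a' * b'` (expand in `single`s; `MonoidAlgebra.mul_def`); `(adj a)' = adj a'`;
`toR a' = (toR a)'`. By induction on `k ≤ 2N` the entries of `BB A K ^ k` have support in
`S ^ (2k)` and `(BB A K ^ k)' = BB A' K ^ k`. The coefficient of `a'` at `1` is the one of `a` at `1`, for
`supp a ⊆ F` (injectivity). So `tr (BB A K ^ (2N)) = tr (BB A' K ^ (2N))`. `l1 a' ≤ l1 a`, so
`RowBound` is inherited; `aug a' = aug a`, so `Adm` is inherited. Apply `DD P H`. -/
def S_lim : Prop :=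
  ∀ (P : Set ℕ) (G : Type) [Group G], LocallyIn (fun H _ => DD P H) G → DD P G

/-! ## Restriction to a normal subgroup -/

/-- Elementary facts on `comp`.
PROOF. Coefficientwise (`MonoidAlgebra.ext`, `Finsupp.ext`): `(comp N a q' q) h = a (s q' h (s q)⁻¹)`
(`MonoidAlgebra.coeff_comapDomain`, `Finsupp.comapDomain_apply`), `s = Quotient.out`.
1. `(adj (comp N a q' q)) h = a (s q' h⁻¹ (s q)⁻¹) = a ((s q h (s q')⁻¹)⁻¹)`.
2. `s q 1 (s q)⁻¹ = 1`.
3. `s q' h (s q)⁻¹ = 1` implies `q' = q` (apply `G → G ⧸ N`), and then `h = 1`.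
4.-6. clear.
7. `∑_(q ∈ F) ∑_h |a (s q' h (s q)⁻¹)|`: the elements `s q' h (s q)⁻¹` are pairwise different for different
`(q, h)` (their class is `q' q⁻¹`, it determines `q`, then `h`); so this is a part of `l1 a`.
8. `∑_h a (s q' h (s q)⁻¹)` is the sum of `a` over the elements of class `q' q⁻¹`: every `g` of this class
has the form `s q' h (s q)⁻¹`, `h ∈ N` unique. -/
def S_cfacts : Prop :=
  (∀ (R : Type) [CommRing R] (G : Type) [Group G] (N : Subgroup G) [N.Normal]
    (a b : MonoidAlgebra R G) (r : R) (q' q : G ⧸ N),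
    comp N (adj a) q q' = adj (comp N a q' q) ∧
    (comp N a q q).coeff 1 = a.coeff 1 ∧
    comp N (1 : MonoidAlgebra R G) q q = 1 ∧
    (q' ≠ q → comp N (1 : MonoidAlgebra R G) q' q = 0) ∧
    comp N (a - b) q' q = comp N a q' q - comp N b q' q ∧
    comp N (a + b) q' q = comp N a q' q + comp N b q' q ∧
    comp N (r • a) q' q = r • comp N a q' q ∧
    aug (comp N a q' q) = (a.coeff.mapDomain (QuotientGroup.mk : G → G ⧸ N)) (q' * q⁻¹)) ∧
  (∀ (G : Type) [Group G] (N : Subgroup G) [N.Normal] (a : MonoidAlgebra ℤ G) (q' q : G ⧸ N),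
    comp N (toR a) q' q = toR (comp N a q' q)) ∧
  (∀ (G : Type) [Group G] (N : Subgroup G) [N.Normal] (a : MonoidAlgebra ℤ G) (q' : G ⧸ N)
    (F : Finset (G ⧸ N)), ∑ q ∈ F, l1 (comp N a q' q) ≤ l1 a)

/-- `comp` is multiplicative.
PROOF. Both sides are additive in `a` and in `b` (for `b` restrict to the support; induct with
`MonoidAlgebra.induction_linear` on `a`, and write `b` as the sum of the `single g (b g)` over its support,
the condition holds for each of them). For `a = single x r`, `b = single y r'`: `comp N (single x r) q'' q'` is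
`single ((s q'')⁻¹ x s q') r` if `x q' = q''` in `G ⧸ N`, and `0` otherwise. The product at `q'` is nonzero only
for `q' = y q ∈ F'`, and then the two elements of `N` multiply to `(s q'')⁻¹ x y s q`. -/
def S_cmul : Prop :=
  ∀ (R : Type) [CommRing R] (G : Type) [Group G] (N : Subgroup G) [N.Normal]
    (a b : MonoidAlgebra R G) (q'' q : G ⧸ N) (F' : Finset (G ⧸ N)),
    (∀ g ∈ b.coeff.support, (g : G ⧸ N) * q ∈ F') →
    comp N (a * b) q'' q = ∑ q' ∈ F', comp N a q'' q' * comp N b q' q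

/-- Matrices.
PROOF (may use `S_cfacts`, `S_cmul`). 1. The entry at `((j, q), (j', q₂))` of the left side is
`∑_i ∑_(q' ∈ F') adj (comp (A i j) q' q) * comp (A i j') q' q₂
= ∑_i ∑_(q' ∈ F') comp (adj (A i j)) q q' * comp (A i j') q' q₂ = ∑_i comp (adj (A i j) * A i j') q q₂`.
2. From 1 and linearity: `cmat` of the unit matrix is the unit matrix (`F' = F`).
3. From 1: the row sum at `(i, q')` is `∑_j ∑_(q ∈ F) l1 (comp (T i j) q' q) ≤ ∑_j l1 (T i j)`, `T = mstar A * A`. -/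
def S_cmat : Prop :=
  ∀ (G : Type) [Group G] (N : Subgroup G) [N.Normal] (ι κ : Type) [Fintype ι] [DecidableEq ι]
    [DecidableEq (G ⧸ N)] [Fintype κ] (A : Matrix κ ι (MonoidAlgebra ℤ G)) (F' F : Finset (G ⧸ N)),
    (∀ i j, ∀ g ∈ (A i j).coeff.support, ∀ q ∈ F, (g : G ⧸ N) * q ∈ F') →
    mstar (cmat N A F' F) * cmat N A F' F = cmat N (mstar A * A) F F ∧
    (∀ K : ℝ, BB (cmat N A F' F) K = cmat N (BB A K) F F) ∧
    ∀ K : ℝ, RowBound (mstar A * A) K → RowBound (mstar (cmat N A F' F) * cmat N A F' F) K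

/-- Powers of a compression.
PROOF (may use `S_cfacts`, `S_cmul`). Induction on `k`. `k = 0`: `comp` of `1`. Step:
`(C ^ (k+1)) x y = ∑_((l, q₁)) C x (l, q₁) (C ^ k) (l, q₁) y = ∑_l ∑_(q₁ ∈ F) comp (B x.1 l) x.2 q₁ *
comp ((B ^ k) l y.1) q₁ y.2 = ∑_l comp (B x.1 l * (B ^ k) l y.1) x.2 y.2` by `S_cmul`: the support of
`(B ^ k) l y.1` times `y.2` is in `F`. (`pow_succ'`.) -/
def S_pow : Prop :=
  ∀ (G : Type) [Group G] (N : Subgroup G) [N.Normal] (ι : Type) [Fintype ι] [DecidableEq ι]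
    [DecidableEq (G ⧸ N)] (B : Matrix ι ι (MonoidAlgebra ℝ G)) (F F₀ : Finset (G ⧸ N)) (M : ℕ),
    (∀ k ≤ M, ∀ i j, ∀ g ∈ ((B ^ k) i j).coeff.support, ∀ q ∈ F₀, (g : G ⧸ N) * q ∈ F) →
    ∀ k ≤ M, ∀ x y : ι × F, (y.2 : G ⧸ N) ∈ F₀ →
      (cmat N B F F ^ k) x y = comp N ((B ^ k) x.1 y.1) x.2 y.2

/-- Even powers of selfadjoint matrices.
PROOF. 1. `mstar (A B) = mstar B mstar A` (`adj (a b) = adj b adj a`), so `mstar (M ^ N) = M ^ N`;
`(M ^ (2N)) x x = ∑_y (M ^ N) x y (M ^ N) y x = ∑_y adj ((M ^ N) y x) (M ^ N) y x`, and the coefficient at `1` of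
`adj c * c` is `∑_g c(g)²`. 2. `adj` is additive, commutes with scalars and `toR`, `adj (adj a) = a`. -/
def S_pos : Prop :=
  (∀ (G : Type) [Group G] (ι : Type) [Fintype ι] [DecidableEq ι]
    (M : Matrix ι ι (MonoidAlgebra ℝ G)), mstar M = M → ∀ (N : ℕ) (x : ι),
    mstar (M ^ N) = M ^ N ∧
    ((M ^ (2 * N)) x x).coeff 1 = ∑ y, ((M ^ N) y x).coeff.sum fun _ r => r ^ 2) ∧
  (∀ (G : Type) [Group G] (ι κ : Type) [Fintype ι] [DecidableEq ι] [Fintype κ]
    (A : Matrix κ ι (MonoidAlgebra ℤ G)) (K : ℝ), mstar (BB A K) = BB A K)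

/-- Følner sets. PROOF. `ε = η / (|S| + 1)`, `F` from amenability, `F₀ = {q ∈ F | ∀ s ∈ S, s q ∈ F}`:
`|F \ F₀| ≤ ∑_(s ∈ S) |{q ∈ F | s q ∉ F}| ≤ |S| ε |F| ≤ η |F|`. -/
def S_fol : Prop :=
  ∀ (Q : Type) [Group Q], Amenable Q → ∀ (S : Finset Q) (η : ℝ), 0 < η →
    ∃ F F₀ : Finset Q, F.Nonempty ∧ F₀ ⊆ F ∧ (1 - η) * F.card ≤ F₀.card ∧
      ∀ s ∈ S, ∀ q ∈ F₀, s * q ∈ F

/-- The augmentation of the restricted matrix is injective mod `p`.
PROOF (may use `S_alg`, `S_cfacts`). Let `Ā : Matrix κ ι (ZMod p)[Q]`, `Q = G ⧸ N`, be the image of `A`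
(`mapDomain QuotientGroup.mk` and reduction mod `p`; both ring homomorphisms). `aug (Ā i j) = aug (A i j)`
mod `p`, so `S_alg` applies: `Ā` is injective. Let `w : ι × F → ZMod p` be killed by the reduction mod `p` of
`(cmat N A F' F).map aug`, whose entry at `((i, q'), (j, q))` is the coefficient of the image of `A i j` at
`q' q⁻¹` (`S_cfacts`). Put `v j = ∑_(q ∈ F) single q (w (j, q))`. The coefficient of `(Ā v) i` at `q'` is
`∑_j ∑_(q ∈ F) Ā i j (q' q⁻¹) w (j, q)`; it is `0` for `q' ∈ F'` by hypothesis, and for `q' ∉ F'` because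
`q' q⁻¹` is not in the image of the support of `A i j`. So `v = 0`, `w = 0`. -/
def S_adm : Prop :=
  ∀ (p : ℕ) [Fact p.Prime] (G : Type) [Group G] (N : Subgroup G) [N.Normal],
    LocInd p (G ⧸ N) → ∀ (ι κ : Type) [Fintype ι] [Fintype κ]
    (A : Matrix κ ι (MonoidAlgebra ℤ G)) (F' F : Finset (G ⧸ N)),
    (∀ i j, ∀ g ∈ (A i j).coeff.support, ∀ q ∈ F, (g : G ⧸ N) * q ∈ F') →
    Adm {p} (A.map aug) → Adm {p} ((cmat N A F' F).map aug)

/-- Extensions.
PROOF (may use `S_cfacts`, `S_cmat`, `S_pow`, `S_pos`, `S_fol`, `S_adm`). Given `A`, `K`, `N₀` (called `N` in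
`DD`), `δ`; `B = BB A K`. It is enough to show `(1 - η) tr (B ^ (2N₀)) ≤ |ι| bnd` for all `η ∈ (0, 1)`. Let `S` be
the finite set of the classes in `Q = G ⧸ N` of the elements of the supports of the entries of the
`B ^ k`, `k ≤ 2N₀`; take `F`, `F₀` from `S_fol`, and `F' = ` all `g q`, `q ∈ F`, `g` in a support of an entry of
`A`. `C = cmat N A F' F`: `DD P N` for `C` (index sets `ι × F`, `κ × F'`; `Adm` by `S_adm` for every `p ∈ P`, row
sums by `S_cmat`) gives `tr (BB C K ^ (2N₀)) ≤ |ι| |F| bnd`, and `BB C K = cmat N B F F =: D` (`S_cmat`). The trace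
on the left is the sum over `(j, q) ∈ ι × F` of the coefficients at `1` of `(D ^ (2N₀)) (j, q) (j, q)`: for
`q ∈ F₀` this is the coefficient at `1` of `(B ^ (2N₀)) j j` (`S_pow`, `S_cfacts`), for the other `q` it is `≥ 0`
(`S_pos`, `mstar D = D` since `D = BB C K`). So `|F₀| tr (B ^ (2N₀)) ≤ |ι| |F| bnd`; as `tr (B ^ (2N₀)) ≥ 0`
(`S_pos`) and `(1 - η) |F| ≤ |F₀|`, `|F| > 0`, the claim follows. -/
def S_ext : Prop :=
  ∀ (P : Set ℕ), (∀ p ∈ P, p.Prime) → ∀ (G : Type) [Group G] (N : Subgroup G) [N.Normal],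
    DD P N → Amenable (G ⧸ N) → (∀ p ∈ P, LocInd p (G ⧸ N)) → DD P G

/-! ## Square summable kernel vectors -/

/-- The trace bounds kernel vectors.
PROOF (may use `S_pos`). For `M : Matrix ι ι ℝ[Γ]` and `v : ι → L2 Γ` let
`(M v) i = ∑ j, ρ (M i j) (v j)`, `ρ a ξ = a.coeff.sum fun g r => (r : ℂ) • lam g ξ`; `ρ` is additive and
multiplicative (`lam (g h) = lam g ∘ lam h`), so `(M M') v = M (M' v)`, and `⟪ρ a ξ, η⟫ = ⟪ξ, ρ (adj a) η⟫`
(`(lam g)† = lam g⁻¹`). If `A v = 0` then `(mstar A * A) v = 0`, so `B v = v`, `B = BB A K`, and `B ^ N v = v`.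
Let `e = delta 1`: `v j 1 = ⟪e, v j⟫ = ∑_i ⟪e, ρ ((B ^ N) j i) (v i)⟫ = ∑_i ⟪ρ ((B ^ N) i j) e, v i⟫` (`mstar (B ^ N) = B ^ N`
by `S_pos`). `ρ a e` is the function `a`, of norm squared `a.coeff.sum fun _ r => r ^ 2`. Cauchy-Schwarz:
`‖v j 1‖² ≤ (∑_i ‖v i‖²) ∑_i ((B ^ N) i j).coeff.sum (r ^ 2) = (∑_i ‖v i‖²) ((B ^ (2N)) j j).coeff 1` by `S_pos`, and
the other diagonal entries are `≥ 0`. -/
def S_ineq : Prop :=
  ∀ (Γ : Type) [Group Γ] (ι κ : Type) [Fintype ι] [DecidableEq ι] [Fintype κ]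
    (A : Matrix κ ι (MonoidAlgebra ℤ Γ)) (K : ℝ) (v : ι → L2 Γ),
    (∀ i, ∑ j, act (A i j) (v j) = 0) → ∀ (N : ℕ) (j : ι),
      ‖v j 1‖ ^ 2 ≤ (∑ i, ‖v i‖ ^ 2) * tr (BB A K ^ (2 * N))

/-- Injectivity on square summable functions.
PROOF (may use `S_ineq`). Take `K ≥ 1` with `RowBound (mstar A * A) K` (maximum or sum of all the row sums,
plus `1`). For every `N` and `δ > 0`: `‖v j 1‖² ≤ (∑ ‖v i‖²) |ι| (exp (-(2N) exp (-1/δ)/K) + δ log K)`. `N → ∞`, then
`δ → 0`: `v j 1 = 0`. For `γ ∈ Γ` apply this to the right translates `pull (fun x => x * γ) _ (v j)` (`act`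
commutes with right translations): `v j γ = 0`. -/
def S_inj : Prop :=
  ∀ (P : Set ℕ) (Γ : Type) [Group Γ], DD P Γ → ∀ (ι κ : Type) [Fintype ι] [Fintype κ]
    (A : Matrix κ ι (MonoidAlgebra ℤ Γ)), Adm P (A.map aug) → ∀ v : ι → L2 Γ,
    (∀ i, ∑ j, act (A i j) (v j) = 0) → v = 0

/-! ## Cocycles -/

/-- Fox calculus without relators.
PROOF. For `x ∈ Γ` let `D x` be the set of the `a : Fin d → ℤ[Γ]` with `b x = ∑ j, act (a j) (b (S j))` for all
cocycles `b`. `act (a + a') = act a + act a'`, `act (single g 1 * a) ξ = lam g (act a ξ)`. Facts: `0 ∈ D 1`;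
the function equal to `single 1 1` at `j` and to `0` elsewhere is in `D (S j)`; if `a ∈ D x`, `a' ∈ D y` then
`a + single x 1 * a' ∈ D (x y)`, and `- single x⁻¹ 1 * a ∈ D x⁻¹`. So `D x` is nonempty for all `x`
(`Subgroup.closure_induction`), and `a - a' ∈ D 1` for `a, a' ∈ D x`. Let `W ≤ (Fin d → ℤ)` be the set of the
`j ↦ aug (a j)`, `a ∈ D h`, `h ∈ H`: an additive subgroup (`aug` is additive, `aug (single x 1 * a) = aug a`),
containing the augmentations of `D 1`. So `χ x = ` the class of `j ↦ aug (a j)`, `a ∈ D x`, is a well defined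
homomorphism `Γ →* Multiplicative ((Fin d → ℤ) ⧸ W)`, trivial on `H`, with `χ (S j)` = the class of the unit
vector `e j`. `W` is finitely generated (`ℤ` is noetherian): generators `w i = aug (A i)`, `A i ∈ D (h i)`,
`h i ∈ H`, `i : Fin m`. So `∑ j, act (A i j) (b (S j)) = b (h i) = 0` if `b` vanishes on `H`. Now let `p` be such
that `χ' : Γ →* Multiplicative (ZMod p)` is trivial if it is trivial on `H`. Claim: `e j ∈ W + p ℤ^d =: W'` for all
`j`. Otherwise `(Fin d → ℤ) ⧸ W'` is a vector space over `ZMod p` (an additive group killed by `p`: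
`AddCommGroup.zmodModule`) with a nonzero element `[e j]`, so there is a linear form `f` with `f [e j] ≠ 0`, and
`x ↦ f [χ x]` is a nontrivial homomorphism to `ZMod p`, trivial on `H`: contradiction. So
`e j = ∑ i, c i • w i + p z`, and if `∑ j', (w i j') v j' = 0` in `ZMod p` for all `i`, then `v j = 0`. -/
def S_fox : Prop :=
  ∀ (Γ : Type) [Group Γ] (d : ℕ) (S : Fin d → Γ), Subgroup.closure (Set.range S) = ⊤ →
    ∀ H : Subgroup Γ, ∃ (m : ℕ) (A : Matrix (Fin m) (Fin d) (MonoidAlgebra ℤ Γ)),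
      (∀ b : Γ → L2 Γ, IsCocycle b → (∀ h ∈ H, b h = 0) →
        ∀ i, ∑ j, act (A i j) (b (S j)) = 0) ∧
      ∀ (p : ℕ) [Fact p.Prime],
        (∀ χ : Γ →* Multiplicative (ZMod p), (∀ h ∈ H, χ h = 1) → χ = 1) → Adm {p} (A.map aug)

/-- If `Γ` has `p ^ r` homomorphisms to `ℤ/p`, there are `r` elements of `Γ` such that a homomorphism which
is trivial on them is trivial.
PROOF. Induction: for every subgroup `V` of the (commutative) group `Γ →* Multiplicative (ZMod p)` of
order `p ^ r` there are `r` elements `g i` such that `χ ∈ V`, `χ (g i) = 1` for all `i` imply `χ = 1`. `r = 0`: `V` is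
trivial. `r > 0`: there is `χ ∈ V`, `χ ≠ 1`, so `g` with `χ g ≠ 1`; the evaluation `V → Multiplicative (ZMod p)`
at `g` is nontrivial, so onto (prime order), its kernel `V'` has order `p ^ (r - 1)`. -/
def S_dual : Prop :=
  ∀ (p : ℕ) [Fact p.Prime] (Γ : Type) [Group Γ] (r : ℕ),
    Nat.card (Γ →* Multiplicative (ZMod p)) = p ^ r →
    ∃ g : Fin r → Γ, ∀ χ : Γ →* Multiplicative (ZMod p), (∀ i, χ (g i) = 1) → χ = 1

end Pool.Agent.Lib.MP_fed171_al.RP
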