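import Mathlib
import Pool.Agent.Lib.MP_fed171_al.RP.Stm

/-!
# Project RP (MP_fed171_al): piece `adm`, the augmentation of the restricted matrix
-/

set_option autoImplicit false

namespace Pool.Agent.Lib.MP_fed171_al.RP

section adm

variable {G : Type} [Group G] (p : ℕ) (N : Subgroup G)

/-- The image in the group ring mod `p` of the quotient. -/
private noncomputable def adm_bar (a : MonoidAlgebra ℤ G) : MonoidAlgebra (ZMod p) (G ⧸ N) :=
  MonoidAlgebra.ofCoeff ((a.coeff.mapDomain (QuotientGroup.mk : G → G ⧸ N)).mapRange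
    (fun z : ℤ => (z : ZMod p)) Int.cast_zero)

private theorem adm_bar_coeff (a : MonoidAlgebra ℤ G) (q : G ⧸ N) :
    (adm_bar p N a).coeff q =
      ((a.coeff.mapDomain (QuotientGroup.mk : G → G ⧸ N) q : ℤ) : ZMod p) := rfl

private theorem adm_bar_aug (a : MonoidAlgebra ℤ G) :
    aug (adm_bar p N a) = ((aug a : ℤ) : ZMod p) := by
  unfold aug adm_bar
  rw [MonoidAlgebra.coeff_ofCoeff, Finsupp.sum_mapRange_index (fun _ => rfl),
    Finsupp.sum_mapDomain_index (fun _ => Int.cast_zero) (fun _ _ _ => Int.cast_add _ _)]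
  unfold Finsupp.sum
  rw [Int.cast_sum]

end adm

theorem p_adm (h1 : S_alg) (h2 : S_cfacts) : S_adm := by
  classical
  intro p _ G _ N _ hloc ι κ _ _ A F' F hF hA p' hp' w hw
  rw [Set.mem_singleton_iff] at hp'
  subst hp'
  -- the image of the matrix is injective
  have hinj := h1 p' (G ⧸ N) hloc ι κ (fun i j => adm_bar p' N (A i j)) (by
    intro v hv
    apply hA p' rfl v
    rw [← hv]
    congr 1
    funext i j
    exact (adm_bar_aug p' N (A i j)).symm)
  obtain ⟨v, hv⟩ : ∃ v : ι → MonoidAlgebra (ZMod p') (G ⧸ N),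
    v = fun j => ∑ q : F, MonoidAlgebra.single (q : G ⧸ N) (w (j, q)) := ⟨_, rfl⟩
  have hcoeff : ∀ i q', ((Matrix.mulVec (fun i j => adm_bar p' N (A i j)) v) i).coeff q' =
      ∑ j, ∑ q : F, (adm_bar p' N (A i j)).coeff (q' * (q : G ⧸ N)⁻¹) * w (j, q) := by
    intro i q'
    unfold Matrix.mulVec dotProduct
    rw [MonoidAlgebra.coeff_sum, Finsupp.finsetSum_apply]
    refine Finset.sum_congr rfl fun j _ => ?_
    rw [hv]
    simp only
    rw [Finset.mul_sum, MonoidAlgebra.coeff_sum, Finsupp.finsetSum_apply]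
    refine Finset.sum_congr rfl fun q _ => ?_
    rw [MonoidAlgebra.coeff_mul_single_apply]
  have hzero : Matrix.mulVec (fun i j => adm_bar p' N (A i j)) v = 0 := by
    funext i
    apply MonoidAlgebra.coeff_injective
    apply Finsupp.ext
    intro q'
    rw [hcoeff]
    by_cases hq : q' ∈ F'
    · have h3 := congrFun hw (i, ⟨q', hq⟩)
      unfold Matrix.mulVec dotProduct at h3
      rw [Fintype.sum_prod_type] at h3
      rw [Pi.zero_apply] at h3
      rw [Pi.zero_apply, MonoidAlgebra.coeff_zero, Finsupp.zero_apply, ← h3]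
      refine Finset.sum_congr rfl fun j _ => Finset.sum_congr rfl fun q _ => ?_
      congr 1
      rw [adm_bar_coeff]
      have h4 := (h2.1 ℤ G N (A i j) 0 0 q' (q : G ⧸ N)).2.2.2.2.2.2.2
      show _ = ((aug (comp N (A i j) q' (q : G ⧸ N)) : ℤ) : ZMod p')
      rw [h4]
    · rw [Pi.zero_apply, MonoidAlgebra.coeff_zero, Finsupp.zero_apply]
      refine Finset.sum_eq_zero fun j _ => Finset.sum_eq_zero fun q _ => ?_
      rw [adm_bar_coeff]
      have h5 : (A i j).coeff.mapDomain (QuotientGroup.mk : G → G ⧸ N)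
          (q' * (q : G ⧸ N)⁻¹) = 0 := by
        by_contra hne
        have h6 := Finsupp.mapDomain_support (Finsupp.mem_support_iff.2 hne)
        obtain ⟨g, hg, hgq⟩ := Finset.mem_image.1 h6
        have h7 := hF i j g hg (q : G ⧸ N) q.2
        apply hq
        have h8 : (g : G ⧸ N) * (q : G ⧸ N) = q' := by
          rw [hgq, inv_mul_cancel_right]
        rwa [h8] at h7
      rw [h5, Int.cast_zero, zero_mul]
  have hv0 := hinj v hzero
  funext x
  obtain ⟨j, q⟩ := x
  have h9 : (v j).coeff (q : G ⧸ N) = w (j, q) := by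
    rw [hv]
    simp only
    rw [MonoidAlgebra.coeff_sum, Finsupp.finsetSum_apply, Finset.sum_eq_single q]
    · rw [MonoidAlgebra.coeff_single, Finsupp.single_eq_same]
    · intro q₁ _ hne
      rw [MonoidAlgebra.coeff_single, Finsupp.single_eq_of_ne]
      intro h
      exact hne (Subtype.ext h).symm
    · intro h
      exact absurd (Finset.mem_univ q) h
  rw [← h9, hv0]
  rfl

end Pool.Agent.Lib.MP_fed171_al.RP
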