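import Pool.Agent.Lib.MP_fed171_al.RP.Stm

/-!
# Project RP (MP_fed171_al): the Strebel-Gersten lemma
-/

set_option autoImplicit false

namespace Pool.Agent.Lib.MP_fed171_al.RP

section Alg

variable {k : Type} [CommRing k] {Q : Type} [Group Q]

/-- The sums of the coefficients over the left cosets of `M`. -/
noncomputable def alg_push (M : Subgroup Q) : MonoidAlgebra k Q →ₗ[k] (Q ⧸ M →₀ k) where
  toFun z := z.coeff.mapDomain (QuotientGroup.mk : Q → Q ⧸ M)
  map_add' a b := by rw [MonoidAlgebra.coeff_add, Finsupp.mapDomain_add]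
  map_smul' r a := by rw [MonoidAlgebra.coeff_smul, Finsupp.mapDomain_smul, RingHom.id_apply]

theorem alg_push_single (M : Subgroup Q) (g : Q) (r : k) :
    alg_push M (MonoidAlgebra.single g r) = Finsupp.single (g : Q ⧸ M) r := by
  change (MonoidAlgebra.single g r).coeff.mapDomain _ = _
  rw [MonoidAlgebra.coeff_single, Finsupp.mapDomain_single]

/-- right multiplication by congruent elements -/
theorem alg_push_congr (M : Subgroup Q) (z : MonoidAlgebra k Q) {g h : Q} (hgh : g⁻¹ * h ∈ M) :
    alg_push M (z * MonoidAlgebra.single g 1) = alg_push M (z * MonoidAlgebra.single h 1) := by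
  induction z using MonoidAlgebra.induction_linear with
  | zero => simp
  | add a b ha hb => rw [add_mul, add_mul, map_add, map_add, ha, hb]
  | single x r =>
    rw [MonoidAlgebra.single_mul_single, MonoidAlgebra.single_mul_single, alg_push_single,
      alg_push_single]
    congr 1
    rw [QuotientGroup.eq]
    rw [show (x * g)⁻¹ * (x * h) = g⁻¹ * h by group]
    exact hgh

theorem alg_push_mem (M : Subgroup Q) (z : MonoidAlgebra k Q) {h : Q} (hh : h ∈ M) :
    alg_push M (z * MonoidAlgebra.single h 1) = alg_push M z := by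
  have := alg_push_congr (k := k) M z (g := 1) (h := h) (by simpa using hh)
  rw [← this, ← MonoidAlgebra.one_def, mul_one]

/-- right multiplication by an element which normalises -/
theorem alg_push_norm (M : Subgroup Q) (z : MonoidAlgebra k Q) (s : Q)
    (hs : ∀ x ∈ M, s⁻¹ * x * s ∈ M) (hz : alg_push M z = 0) :
    alg_push M (z * MonoidAlgebra.single s 1) = 0 := by
  let f : Q ⧸ M → Q ⧸ M := Quotient.map' (fun x => x * s) (by
    intro a b hab
    rw [QuotientGroup.leftRel_apply] at hab ⊢
    have := hs _ hab
    rw [show (a * s)⁻¹ * (b * s) = s⁻¹ * (a⁻¹ * b) * s by group]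
    exact this)
  have key : ∀ z : MonoidAlgebra k Q,
      alg_push M (z * MonoidAlgebra.single s 1) = (alg_push M z).mapDomain f := by
    intro z
    induction z using MonoidAlgebra.induction_linear with
    | zero => simp
    | add a b ha hb => rw [add_mul, map_add, map_add, Finsupp.mapDomain_add, ha, hb]
    | single x r =>
      rw [MonoidAlgebra.single_mul_single, alg_push_single, alg_push_single,
        Finsupp.mapDomain_single, mul_one]
      rfl
  rw [key, hz, Finsupp.mapDomain_zero]

/-- smaller subgroups -/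
theorem alg_push_mono {K M : Subgroup Q} (h : K ≤ M) (z : MonoidAlgebra k Q)
    (hz : alg_push K z = 0) : alg_push M z = 0 := by
  let f : Q ⧸ K → Q ⧸ M := Quotient.map' id (by
    intro a b hab
    rw [QuotientGroup.leftRel_apply] at hab ⊢
    exact h hab)
  have key : ∀ z : MonoidAlgebra k Q, alg_push M z = (alg_push K z).mapDomain f := by
    intro z
    induction z using MonoidAlgebra.induction_linear with
    | zero => simp
    | add a b ha hb => rw [map_add, map_add, Finsupp.mapDomain_add, ha, hb]
    | single x r =>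
      rw [alg_push_single, alg_push_single, Finsupp.mapDomain_single]
      rfl
  rw [key, hz, Finsupp.mapDomain_zero]

/-- union of cosets -/
theorem alg_push_sum {ι : Type} [Fintype ι] (K K₁ : Subgroup Q) (s : ι → Q)
    (h1 : ∀ (y : Q) (i : ι), y * s i ∈ K₁ → y ∈ K)
    (h2 : ∀ y ∈ K, ∃! i : ι, y * s i ∈ K₁) (z : MonoidAlgebra k Q)
    (hz : alg_push K₁ (∑ i, z * MonoidAlgebra.single (s i) 1) = 0) : alg_push K z = 0 := by
  classical
  have key : ∀ (z : MonoidAlgebra k Q) (x : Q),
      alg_push K z (x : Q ⧸ K) =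
        alg_push K₁ (∑ i, z * MonoidAlgebra.single (s i) 1) (x : Q ⧸ K₁) := by
    intro z x
    induction z using MonoidAlgebra.induction_linear with
    | zero => simp
    | add a b ha hb =>
      simp only [add_mul, Finset.sum_add_distrib]
      rw [map_add, map_add, Finsupp.add_apply, Finsupp.add_apply, ha, hb]
    | single g r =>
      rw [alg_push_single, map_sum, Finsupp.finsetSum_apply, Finsupp.single_apply]
      have e1 : ∀ i : ι, (alg_push K₁ (MonoidAlgebra.single g r * MonoidAlgebra.single (s i) 1))
          (x : Q ⧸ K₁) = if x⁻¹ * g * s i ∈ K₁ then r else 0 := by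
        intro i
        rw [MonoidAlgebra.single_mul_single, alg_push_single, Finsupp.single_apply, mul_one]
        have e2 : ((g * s i : Q) : Q ⧸ K₁) = (x : Q ⧸ K₁) ↔ x⁻¹ * g * s i ∈ K₁ := by
          rw [eq_comm, QuotientGroup.eq, mul_assoc]
        by_cases h : x⁻¹ * g * s i ∈ K₁
        · rw [if_pos (e2.mpr h), if_pos h]
        · rw [if_neg (fun h' => h (e2.mp h')), if_neg h]
      rw [Finset.sum_congr rfl fun i _ => e1 i]
      have e3 : ((g : Q) : Q ⧸ K) = (x : Q ⧸ K) ↔ x⁻¹ * g ∈ K := by
        rw [eq_comm, QuotientGroup.eq]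
      by_cases h : x⁻¹ * g ∈ K
      · rw [if_pos (e3.mpr h)]
        obtain ⟨i, hi, hi'⟩ := h2 _ h
        rw [Finset.sum_eq_single i]
        · rw [if_pos hi]
        · intro j _ hj
          rw [if_neg (fun h' => hj (hi' j h'))]
        · intro h'
          exact absurd (Finset.mem_univ i) h'
      · rw [if_neg (fun h' => h (e3.mp h'))]
        symm
        apply Finset.sum_eq_zero
        intro i _
        rw [if_neg (fun h' => h (h1 _ _ h'))]
  ext y
  induction y using QuotientGroup.induction_on with
  | H x => rw [key, hz, Finsupp.zero_apply, Finsupp.zero_apply]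

/-- The hypotheses: `A` is injective relative to the cosets of `M`, and kills the `u j`, which are
supported in `M`. -/
structure alg_Data {ι κ : Type} [Fintype ι] (A : κ → ι → MonoidAlgebra k Q) (M : Subgroup Q)
    (u : ι → MonoidAlgebra k Q) : Prop where
  H : ∀ w : ι → k, (∀ i, alg_push M (∑ j, w j • A i j) = 0) → w = 0
  S : ∀ j, ∀ x ∈ (u j).coeff.support, x ∈ M
  E : ∀ i, ∑ j, A i j * u j = 0

variable (k Q) in
/-- the claim for complexity at most `n` -/
def alg_Gen (κ : Type) (n : ℕ) : Prop :=
  ∀ (ι : Type) [Fintype ι] (A : κ → ι → MonoidAlgebra k Q) (M : Subgroup Q)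
    (u : ι → MonoidAlgebra k Q), alg_Data A M u →
    ∑ j, ((u j).coeff.support.card - 1) ≤ n → u = 0

variable (k Q) in
/-- the claim for normalised vectors -/
def alg_Norm (κ : Type) (n : ℕ) : Prop :=
  ∀ (ι : Type) [Fintype ι] (A : κ → ι → MonoidAlgebra k Q) (M : Subgroup Q)
    (u : ι → MonoidAlgebra k Q), alg_Data A M u → (∀ j, u j ≠ 0 → (u j).coeff 1 ≠ 0) →
    ∑ j, ((u j).coeff.support.card - 1) ≤ n → u = 0

theorem alg_support_mul (g : Q) (z : MonoidAlgebra k Q) (x : Q) :
    x ∈ (MonoidAlgebra.single g 1 * z).coeff.support ↔ g⁻¹ * x ∈ z.coeff.support := by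
  rw [Finsupp.mem_support_iff, Finsupp.mem_support_iff, MonoidAlgebra.coeff_single_mul_apply,
    one_mul]

theorem alg_card_mul (g : Q) (z : MonoidAlgebra k Q) :
    (MonoidAlgebra.single g 1 * z).coeff.support.card = z.coeff.support.card := by
  symm
  refine Finset.card_bij (fun x _ => g * x) ?_ ?_ ?_
  · intro x hx
    rw [alg_support_mul]
    simpa using hx
  · intro x _ y _ h
    exact mul_left_cancel h
  · intro y hy
    rw [alg_support_mul] at hy
    exact ⟨_, hy, by simp⟩

theorem alg_gen_of_norm (κ : Type) (n : ℕ) (h : alg_Norm k Q κ n) : alg_Gen k Q κ n := by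
  intro ι _ A M u hD hn
  have hq : ∀ j, ∃ q : Q, q ∈ M ∧ (u j ≠ 0 → (u j).coeff q ≠ 0) := by
    intro j
    by_cases hj : u j = 0
    · exact ⟨1, M.one_mem, fun h' => absurd hj h'⟩
    · have h1 : (u j).coeff ≠ 0 := fun h' => hj (MonoidAlgebra.coeff_eq_zero.mp h')
      obtain ⟨x, hx⟩ := Finsupp.support_nonempty_iff.mpr h1
      exact ⟨x, hD.S j x hx, fun _ => Finsupp.mem_support_iff.mp hx⟩
  choose q hqM hq using hq
  have e0 : ∀ j, MonoidAlgebra.single (q j) (1 : k) *
      (MonoidAlgebra.single (q j)⁻¹ 1 * u j) = u j := by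
    intro j
    rw [← mul_assoc, MonoidAlgebra.single_mul_single, mul_inv_cancel, mul_one,
      ← MonoidAlgebra.one_def, one_mul]
  have h1 : (fun j => MonoidAlgebra.single (q j)⁻¹ (1 : k) * u j) = 0 := by
    refine h ι (fun i j => A i j * MonoidAlgebra.single (q j) 1) M _ ⟨?_, ?_, ?_⟩ ?_ ?_
    · intro w hw
      apply hD.H w
      intro i
      rw [← hw i, map_sum, map_sum]
      apply Finset.sum_congr rfl
      intro j _
      rw [map_smul, map_smul, alg_push_mem M _ (hqM j)]
    · intro j x hx
      rw [alg_support_mul, inv_inv] at hx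
      have := hD.S j _ hx
      exact (Subgroup.mul_mem_cancel_left M (hqM j)).mp this
    · intro i
      rw [← hD.E i]
      apply Finset.sum_congr rfl
      intro j _
      rw [mul_assoc, e0]
    · intro j hj
      rw [MonoidAlgebra.coeff_single_mul_apply, one_mul, inv_inv, mul_one]
      apply hq j
      intro h'
      apply hj
      rw [h', mul_zero]
    · refine le_trans (le_of_eq ?_) hn
      apply Finset.sum_congr rfl
      intro j _
      rw [alg_card_mul]
  funext j
  have h2 := congrFun h1 j
  simp only [Pi.zero_apply] at h2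
  rw [← e0 j, h2, mul_zero, Pi.zero_apply]

end Alg

section Main

variable {p : ℕ} [Fact p.Prime] {Q : Type} [Group Q]

/-- natural subtraction in sums -/
theorem alg_sum_sub {ι : Type} [Fintype ι] [DecidableEq ι] (c : ι → ℕ) (i₀ : ι) (h0 : 1 ≤ c i₀) :
    ∑ i, (c i - 1) + 1 ≤ ∑ i, c i ∧
    ((∃ i₁, i₁ ≠ i₀ ∧ 1 ≤ c i₁) → ∑ i, (c i - 1) + 2 ≤ ∑ i, c i) := by
  rw [← Finset.add_sum_erase Finset.univ (fun i => c i - 1) (Finset.mem_univ i₀),
    ← Finset.add_sum_erase Finset.univ c (Finset.mem_univ i₀)]
  constructor
  · have : ∑ i ∈ Finset.univ.erase i₀, (c i - 1) ≤ ∑ i ∈ Finset.univ.erase i₀, c i :=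
      Finset.sum_le_sum fun i _ => Nat.sub_le _ _
    omega
  · rintro ⟨i₁, h1, h2⟩
    have : ∑ i ∈ Finset.univ.erase i₀, (c i - 1) < ∑ i ∈ Finset.univ.erase i₀, c i :=
      Finset.sum_lt_sum (fun i _ => Nat.sub_le _ _)
        ⟨i₁, Finset.mem_erase.mpr ⟨h1, Finset.mem_univ _⟩, by omega⟩
    omega

open Classical in
/-- The part of `z` on the elements `x` of `K` with `φ x = m`. -/
noncomputable def alg_part (K : Subgroup Q) (φ : K →* Multiplicative (ZMod p)) (m : ZMod p)
    (z : MonoidAlgebra (ZMod p) Q) : MonoidAlgebra (ZMod p) Q :=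
  MonoidAlgebra.ofCoeff (z.coeff.filter fun x =>
    ∃ hx : x ∈ K, φ ⟨x, hx⟩ = Multiplicative.ofAdd m)

theorem alg_mem_part (K : Subgroup Q) (φ : K →* Multiplicative (ZMod p)) (m : ZMod p)
    (z : MonoidAlgebra (ZMod p) Q) (x : Q) :
    x ∈ (alg_part K φ m z).coeff.support ↔
      x ∈ z.coeff.support ∧ ∃ hx : x ∈ K, φ ⟨x, hx⟩ = Multiplicative.ofAdd m := by
  classical
  unfold alg_part
  rw [MonoidAlgebra.coeff_ofCoeff, Finsupp.support_filter, Finset.mem_filter]

theorem alg_sum_part (K : Subgroup Q) (φ : K →* Multiplicative (ZMod p))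
    (z : MonoidAlgebra (ZMod p) Q) (hz : ∀ x ∈ z.coeff.support, x ∈ K) :
    ∑ m : ZMod p, alg_part K φ m z = z := by
  classical
  ext x
  rw [MonoidAlgebra.coeff_sum, Finsupp.finsetSum_apply]
  by_cases hx : x ∈ z.coeff.support
  · have hK := hz x hx
    rw [Finset.sum_eq_single (Multiplicative.toAdd (φ ⟨x, hK⟩))]
    · unfold alg_part
      rw [MonoidAlgebra.coeff_ofCoeff, Finsupp.filter_apply_pos]
      exact ⟨hK, rfl⟩
    · intro m _ hm
      unfold alg_part
      rw [MonoidAlgebra.coeff_ofCoeff, Finsupp.filter_apply_neg]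
      rintro ⟨hx', h⟩
      apply hm
      rw [h]
      rfl
    · intro h
      exact absurd (Finset.mem_univ _) h
  · rw [Finsupp.notMem_support_iff.mp hx]
    apply Finset.sum_eq_zero
    intro m _
    rw [← Finsupp.notMem_support_iff, alg_mem_part]
    exact fun h => hx h.1

theorem alg_card_part (K : Subgroup Q) (φ : K →* Multiplicative (ZMod p))
    (z : MonoidAlgebra (ZMod p) Q) (hz : ∀ x ∈ z.coeff.support, x ∈ K) :
    ∑ m : ZMod p, (alg_part K φ m z).coeff.support.card = z.coeff.support.card := by
  classical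
  rw [← Finset.card_biUnion]
  · congr 1
    ext x
    simp only [Finset.mem_biUnion, Finset.mem_univ, true_and, alg_mem_part]
    constructor
    · rintro ⟨m, h, -⟩
      exact h
    · intro h
      exact ⟨Multiplicative.toAdd (φ ⟨x, hz x h⟩), h, hz x h, rfl⟩
  · intro m _ m' _ hm
    rw [Function.onFun, Finset.disjoint_left]
    intro x h1 h2
    rw [alg_mem_part] at h1 h2
    obtain ⟨-, hx, h1⟩ := h1
    obtain ⟨-, hx', h2⟩ := h2
    exact hm (Multiplicative.ofAdd.injective (h1.symm.trans h2))

/-- a function on `ι × ZMod p` as a function of two variables, and the combination -/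
theorem alg_comb {ι : Type} [Fintype ι] (F : ι → ZMod p → MonoidAlgebra (ZMod p) Q)
    (w : ι × ZMod p → ZMod p) :
    ∑ x : ι × ZMod p, w x • F x.1 x.2 = ∑ j, ∑ m, w (j, m) • F j m :=
  Fintype.sum_prod_type _

theorem alg_norm_of_gen (hfix : S_fix) (hQ : LocInd p Q) (κ : Type) (n : ℕ)
    (h : ∀ n' < n, alg_Gen (ZMod p) Q κ n') : alg_Norm (ZMod p) Q κ n := by
  classical
  intro ι _ A M u hD hN hn
  let K : Subgroup Q := Subgroup.closure (⋃ j, ((u j).coeff.support : Set Q))
  have hK : ∀ j, ∀ x ∈ (u j).coeff.support, x ∈ K := fun j x hx =>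
    Subgroup.subset_closure (Set.mem_iUnion.mpr ⟨j, hx⟩)
  have hKM : K ≤ M := by
    refine (Subgroup.closure_le M).mpr ?_
    intro x hx
    obtain ⟨j, hj⟩ := Set.mem_iUnion.mp hx
    exact hD.S j x hj
  have hfg : K.FG := by
    rw [Subgroup.fg_iff]
    exact ⟨_, rfl, Set.finite_iUnion fun j => Finset.finite_toSet _⟩
  by_cases hbot : K = ⊥
  · have h1 : ∀ j, u j = MonoidAlgebra.single 1 ((u j).coeff 1) := by
      intro j
      ext x
      rw [MonoidAlgebra.coeff_single]
      by_cases hx : x = 1
      · rw [hx, Finsupp.single_eq_same]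
      · rw [Finsupp.single_eq_of_ne (by tauto)]
        by_contra h'
        have := hK j x (Finsupp.mem_support_iff.mpr h')
        rw [hbot, Subgroup.mem_bot] at this
        exact hx this
    have h2 : (fun j => (u j).coeff 1) = 0 := by
      apply hD.H
      intro i
      have h3 := hD.E i
      have h4 : ∑ j, (u j).coeff 1 • A i j = ∑ j, A i j * u j := by
        apply Finset.sum_congr rfl
        intro j _
        conv_rhs => rw [h1 j]
        rw [← MonoidAlgebra.single_one_comm]
        ext x
        rw [MonoidAlgebra.coeff_single_one_mul, MonoidAlgebra.coeff_smul, Finsupp.smul_apply,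
          smul_eq_mul]
      rw [h4, h3, map_zero]
    funext j
    rw [h1 j]
    have := congrFun h2 j
    simp only [Pi.zero_apply] at this
    rw [this, MonoidAlgebra.single_zero, Pi.zero_apply]
  · obtain ⟨φ, hφ⟩ := hQ K hfg hbot
    obtain ⟨t, ht⟩ : ∃ t : K, φ t = Multiplicative.ofAdd 1 := by
      obtain ⟨s, hs⟩ : ∃ s, φ s ≠ 1 := by
        by_contra h'
        push Not at h'
        exact hφ (MonoidHom.ext h')
      refine ⟨s ^ ((Multiplicative.toAdd (φ s))⁻¹).val, ?_⟩
      rw [map_pow]
      apply Multiplicative.toAdd.injective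
      rw [toAdd_pow, toAdd_ofAdd, nsmul_eq_mul, ZMod.natCast_val, ZMod.cast_id', id_eq]
      exact inv_mul_cancel₀ (fun h' => hs (Multiplicative.toAdd.injective h'))
    have hpow : ∀ a : ℕ, φ (t ^ a) = Multiplicative.ofAdd (a : ZMod p) := by
      intro a
      rw [map_pow, ht, ← ofAdd_nsmul, nsmul_eq_mul, mul_one]
    let K₁ : Subgroup Q := φ.ker.map K.subtype
    have hK₁ : ∀ x, x ∈ K₁ ↔ ∃ hx : x ∈ K, φ ⟨x, hx⟩ = 1 := by
      intro x
      constructor
      · rintro ⟨y, hy, rfl⟩
        exact ⟨y.2, hy⟩
      · rintro ⟨hx, h'⟩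
        exact ⟨⟨x, hx⟩, h', rfl⟩
    let s : ZMod p → Q := fun m => ((t ^ m.val : K) : Q)
    have hs : ∀ (m : ZMod p) (y : K), (s m)⁻¹ * (y : Q) ∈ K₁ ↔ φ y = Multiplicative.ofAdd m := by
      intro m y
      have e : (s m)⁻¹ * (y : Q) = (((t ^ m.val)⁻¹ * y : K) : Q) := rfl
      rw [e, hK₁]
      have e2 : φ ((t ^ m.val)⁻¹ * y) = 1 ↔ φ y = Multiplicative.ofAdd m := by
        rw [map_mul, map_inv, hpow, ZMod.natCast_val, ZMod.cast_id', id_eq,
          inv_mul_eq_one, eq_comm]
      constructor
      · rintro ⟨_, h'⟩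
        exact e2.mp h'
      · intro h'
        exact ⟨((t ^ m.val)⁻¹ * y : K).2, e2.mpr h'⟩
    -- the new data
    let A' : κ → ι × ZMod p → MonoidAlgebra (ZMod p) Q := fun i x =>
      A i x.1 * MonoidAlgebra.single (s x.2) 1
    let u' : ι × ZMod p → MonoidAlgebra (ZMod p) Q := fun x =>
      MonoidAlgebra.single (s x.2)⁻¹ 1 * alg_part K φ x.2 (u x.1)
    have e0 : ∀ x : ι × ZMod p, MonoidAlgebra.single (s x.2) (1 : ZMod p) * u' x =
        alg_part K φ x.2 (u x.1) := by
      intro x
      change MonoidAlgebra.single (s x.2) (1 : ZMod p) *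
        (MonoidAlgebra.single (s x.2)⁻¹ 1 * alg_part K φ x.2 (u x.1)) = _
      rw [← mul_assoc, MonoidAlgebra.single_mul_single, mul_inv_cancel, mul_one,
        ← MonoidAlgebra.one_def, one_mul]
    have hD' : alg_Data A' K₁ u' := by
      refine ⟨?_, ?_, ?_⟩
      · intro w hw
        let V : Submodule (ZMod p) (ι → ZMod p → ZMod p) :=
          { carrier := {w | ∀ i, alg_push K₁
              (∑ j, ∑ m, w j m • (A i j * MonoidAlgebra.single (s m) 1)) = 0}
            add_mem' := by
              intro a b ha hb i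
              simp only [Pi.add_apply, add_smul, Finset.sum_add_distrib, map_add]
              have h1 := ha i
              have h2 := hb i
              simp only [map_sum] at h1 h2 ⊢
              rw [h1, h2, add_zero]
            zero_mem' := by
              intro i
              simp
            smul_mem' := by
              intro c a ha i
              simp only [Pi.smul_apply, smul_assoc, ← Finset.smul_sum, map_smul]
              rw [ha i, smul_zero] }
        have hVmem : ∀ w, w ∈ V ↔ ∀ i, alg_push K₁
              (∑ j, ∑ m, w j m • (A i j * MonoidAlgebra.single (s m) 1)) = 0 := fun _ => Iff.rfl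
        have hVs : ∀ w ∈ V, (fun j m => w j (m + 1)) ∈ V := by
          intro w hw
          rw [hVmem] at hw ⊢
          intro i
          have h1 := alg_push_norm K₁ _ ((t : Q)⁻¹) (by
            intro x hx
            obtain ⟨hxK, h'⟩ := (hK₁ x).mp hx
            refine (hK₁ _).mpr ⟨K.mul_mem (K.mul_mem (K.inv_mem (K.inv_mem t.2)) hxK)
              (K.inv_mem t.2), ?_⟩
            have e : (⟨(t : Q)⁻¹⁻¹ * x * (t : Q)⁻¹, K.mul_mem (K.mul_mem (K.inv_mem
              (K.inv_mem t.2)) hxK) (K.inv_mem t.2)⟩ : K) = t⁻¹⁻¹ * ⟨x, hxK⟩ * t⁻¹ := rfl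
            rw [e, map_mul, map_mul, h', map_inv, map_inv, mul_one, inv_mul_cancel]) (hw i)
          rw [← h1, Finset.sum_mul, map_sum, map_sum]
          apply Finset.sum_congr rfl
          intro j _
          rw [Finset.sum_mul, map_sum, map_sum]
          refine Fintype.sum_equiv (Equiv.addRight (1 : ZMod p)) _ _ fun m => ?_
          rw [Equiv.coe_addRight, smul_mul_assoc, map_smul, map_smul, mul_assoc,
            MonoidAlgebra.single_mul_single, mul_one]
          congr 1
          apply alg_push_congr
          refine (hs m (t ^ (m + 1).val * t⁻¹)).mpr ?_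
          rw [map_mul, map_inv, hpow, ht, ZMod.natCast_val, ZMod.cast_id', id_eq, ofAdd_add,
            mul_inv_cancel_right]
        by_contra hw0
        have hVbot : V ≠ ⊥ := by
          intro hV
          apply hw0
          have h1 : (fun j m => w (j, m)) ∈ V := by
            rw [hVmem]
            intro i
            rw [← hw i, Fintype.sum_prod_type]
          rw [hV, Submodule.mem_bot] at h1
          funext ⟨j, m⟩
          exact congrFun (congrFun h1 j) m
        obtain ⟨v, hvV, hv0, hv⟩ := hfix p ι V hVs hVbot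
        have hvc : ∀ j m, v j m = v j 0 := by
          intro j m
          have h1 : ∀ a : ℕ, v j (a : ZMod p) = v j 0 := by
            intro a
            induction a with
            | zero => rw [Nat.cast_zero]
            | succ a ih => rw [Nat.cast_succ, hv, ih]
          have h2 := h1 m.val
          rwa [ZMod.natCast_val, ZMod.cast_id', id_eq] at h2
        have h3 : (fun j => v j 0) = 0 := by
          apply hD.H
          intro i
          apply alg_push_mono hKM
          apply alg_push_sum K K₁ s
          · intro y m hy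
            obtain ⟨h4, -⟩ := (hK₁ _).mp hy
            exact (Subgroup.mul_mem_cancel_right K (t ^ m.val : K).2).mp h4
          · intro y hy
            have e : ∀ m, y * s m ∈ K₁ ↔ φ ⟨y, hy⟩ * Multiplicative.ofAdd m = 1 := by
              intro m
              have e1 : φ ⟨y, hy⟩ * Multiplicative.ofAdd m = φ (⟨y, hy⟩ * t ^ m.val) := by
                rw [map_mul, hpow, ZMod.natCast_val, ZMod.cast_id', id_eq]
              rw [e1, hK₁]
              constructor
              · rintro ⟨_, h'⟩
                exact h'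
              · intro h'
                exact ⟨(⟨y, hy⟩ * t ^ m.val : K).2, h'⟩
            refine ⟨- Multiplicative.toAdd (φ ⟨y, hy⟩), ?_, ?_⟩
            · simp only
              rw [e, ofAdd_neg, ofAdd_toAdd, mul_inv_cancel]
            · intro m hm
              rw [e, mul_eq_one_iff_inv_eq] at hm
              rw [← toAdd_inv, hm, toAdd_ofAdd]
          · have h4 := (hVmem v).mp hvV i
            rw [← h4]
            congr 1
            rw [Finset.sum_comm]
            apply Finset.sum_congr rfl
            intro m _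
            rw [Finset.sum_mul]
            apply Finset.sum_congr rfl
            intro j _
            rw [hvc j m, smul_mul_assoc]
        apply hv0
        funext j m
        rw [hvc j m]
        exact congrFun h3 j
      · intro x y hy
        change y ∈ (MonoidAlgebra.single (s x.2)⁻¹ 1 * alg_part K φ x.2 (u x.1)).coeff.support at hy
        rw [alg_support_mul, alg_mem_part, inv_inv] at hy
        obtain ⟨-, hx, h'⟩ := hy
        have h3 := (hs x.2 ⟨_, hx⟩).mpr h'
        simpa using h3
      · intro i
        rw [← hD.E i, Fintype.sum_prod_type]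
        apply Finset.sum_congr rfl
        intro j _
        conv_rhs => rw [← alg_sum_part K φ (u j) (hK j), Finset.mul_sum]
        apply Finset.sum_congr rfl
        intro m _
        change A i j * MonoidAlgebra.single (s m) 1 * u' (j, m) = _
        rw [mul_assoc]
        exact congrArg _ (e0 (j, m))
    have hlt : ∑ x, ((u' x).coeff.support.card - 1) < n := by
      refine lt_of_lt_of_le ?_ hn
      rw [Fintype.sum_prod_type]
      have e1 : ∀ j m, (u' (j, m)).coeff.support.card = (alg_part K φ m (u j)).coeff.support.card :=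
        fun j m => alg_card_mul _ _
      have e2 : ∀ j, u j ≠ 0 → 1 ≤ (alg_part K φ 0 (u j)).coeff.support.card := by
        intro j hj
        rw [Nat.one_le_iff_ne_zero, Finset.card_ne_zero]
        exact ⟨1, (alg_mem_part K φ 0 (u j) 1).mpr ⟨Finsupp.mem_support_iff.mpr (hN j hj),
          K.one_mem, by
            rw [ofAdd_zero]
            exact φ.map_one⟩⟩
      have e3 : ∀ j, ∑ m, ((u' (j, m)).coeff.support.card - 1) ≤
          (u j).coeff.support.card - 1 := by
        intro j
        simp only [e1]
        by_cases hj : u j = 0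
        · have : ∀ m, (alg_part K φ m (u j)).coeff.support.card = 0 := by
            intro m
            rw [Finset.card_eq_zero, Finset.eq_empty_iff_forall_notMem]
            intro x hx
            rw [alg_mem_part, hj] at hx
            simp at hx
          simp [this]
        · have h1 := (alg_sum_sub (fun m => (alg_part K φ m (u j)).coeff.support.card) 0
            (e2 j hj)).1
          rw [alg_card_part K φ (u j) (hK j)] at h1
          omega
      obtain ⟨j₀, x₀, hx₀, hx₀K, hφx⟩ : ∃ j, ∃ x ∈ (u j).coeff.support, ∃ hx : x ∈ K,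
          φ ⟨x, hx⟩ ≠ 1 := by
        by_contra h'
        push Not at h'
        apply hφ
        have h1 : K ≤ K₁ := by
          refine (Subgroup.closure_le K₁).mpr ?_
          intro x hx
          obtain ⟨j, hj⟩ := Set.mem_iUnion.mp hx
          exact (hK₁ x).mpr ⟨hK j x hj, h' j x hj (hK j x hj)⟩
        ext y
        obtain ⟨h2, h3⟩ := (hK₁ y).mp (h1 y.2)
        exact congrArg _ h3
      refine Finset.sum_lt_sum (fun j _ => e3 j) ⟨j₀, Finset.mem_univ _, ?_⟩
      simp only [e1]
      have hj : u j₀ ≠ 0 := by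
        intro h'
        rw [h'] at hx₀
        simp at hx₀
      have h1 := (alg_sum_sub (fun m => (alg_part K φ m (u j₀)).coeff.support.card) 0
        (e2 j₀ hj)).2 ⟨Multiplicative.toAdd (φ ⟨x₀, hx₀K⟩), by
          intro h'
          exact hφx (Multiplicative.toAdd.injective h'), by
          rw [Nat.one_le_iff_ne_zero, Finset.card_ne_zero]
          exact ⟨x₀, (alg_mem_part _ _ _ _ _).mpr ⟨hx₀, hx₀K, rfl⟩⟩⟩
      rw [alg_card_part K φ (u j₀) (hK j₀)] at h1
      omega
    have hu' := h _ hlt (ι × ZMod p) A' K₁ u' hD' le_rfl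
    funext j
    rw [← alg_sum_part K φ (u j) (hK j), Pi.zero_apply]
    apply Finset.sum_eq_zero
    intro m _
    have h1 := e0 (j, m)
    rw [hu', Pi.zero_apply, mul_zero] at h1
    exact h1.symm

theorem alg_gen (hfix : S_fix) (hQ : LocInd p Q) (κ : Type) (n : ℕ) :
    alg_Gen (ZMod p) Q κ n := by
  induction n using Nat.strong_induction_on with
  | _ n ih => exact alg_gen_of_norm κ n (alg_norm_of_gen hfix hQ κ n ih)

end Main

theorem alg_aug_push {R : Type} [CommRing R] {Q : Type} [Group Q] (z : MonoidAlgebra R Q)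
    (hz : alg_push (⊤ : Subgroup Q) z = 0) : aug z = 0 := by
  have key : ∀ z : MonoidAlgebra R Q,
      aug z = (alg_push (⊤ : Subgroup Q) z).sum fun _ r => r := by
    intro z
    change _ = (z.coeff.mapDomain (QuotientGroup.mk : Q → Q ⧸ (⊤ : Subgroup Q))).sum fun _ r => r
    rw [Finsupp.sum_mapDomain_index (fun _ => rfl) (fun _ _ _ => rfl)]
    rfl
  rw [key, hz, Finsupp.sum_zero_index]

theorem alg_aug_add {R : Type} [CommRing R] {Q : Type} [Group Q] (a b : MonoidAlgebra R Q) :
    aug (a + b) = aug a + aug b := by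
  unfold aug
  rw [MonoidAlgebra.coeff_add, Finsupp.sum_add_index' (fun _ => rfl) (fun _ _ _ => rfl)]

theorem alg_aug_smul {R : Type} [CommRing R] {Q : Type} [Group Q] (r : R)
    (a : MonoidAlgebra R Q) : aug (r • a) = r * aug a := by
  unfold aug
  rw [MonoidAlgebra.coeff_smul, Finsupp.sum_smul_index (fun _ => rfl), Finsupp.mul_sum]

theorem p_alg (h : S_fix) : S_alg := by
  intro p _ Q _ hQ ι κ _ _ A hA v hv
  refine alg_gen h hQ κ _ ι A ⊤ v ⟨?_, fun _ _ _ => Subgroup.mem_top _, ?_⟩ le_rfl
  · intro w hw
    apply hA w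
    funext i
    have h1 := alg_aug_push _ (hw i)
    have h2 : aug (∑ j, w j • A i j) = ∑ j, w j * aug (A i j) := by
      have h3 : ∀ s : Finset ι, aug (∑ j ∈ s, w j • A i j) = ∑ j ∈ s, w j * aug (A i j) := by
        intro s
        classical
        induction s using Finset.induction_on with
        | empty =>
          unfold aug
          simp
        | insert a s ha ih =>
          rw [Finset.sum_insert ha, Finset.sum_insert ha, alg_aug_add, alg_aug_smul, ih]
      exact h3 _
    rw [h2] at h1
    rw [Pi.zero_apply, ← h1]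
    change ∑ j, aug (A i j) * w j = _
    exact Finset.sum_congr rfl fun j _ => mul_comm _ _
  · intro i
    exact congrFun hv i

end Pool.Agent.Lib.MP_fed171_al.RP
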