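import Mathlib
import Pool.Agent.Lib.MP_fed171_al.RP.Stm

/-!
# Project RP (MP_fed171_al): trivial groups
-/

set_option autoImplicit false

namespace Pool.Agent.Lib.MP_fed171_al.RP

section

variable {R : Type} [CommRing R] {G : Type} [Group G]

/-- the augmentation as a ring homomorphism -/
noncomputable def base_aug (R : Type) [CommRing R] (G : Type) [Group G] :
    MonoidAlgebra R G →+* R :=
  (MonoidAlgebra.lift R R G (1 : G →* R)).toRingHom

theorem base_aug_apply (a : MonoidAlgebra R G) : base_aug R G a = aug a := by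
  unfold base_aug aug
  show MonoidAlgebra.lift R R G (1 : G →* R) a = _
  rw [MonoidAlgebra.lift_apply]
  simp

variable [Subsingleton G]

theorem base_single (a : MonoidAlgebra R G) : a = MonoidAlgebra.single 1 (a.coeff 1) := by
  apply MonoidAlgebra.ext
  apply Finsupp.ext
  intro g
  rw [Subsingleton.elim g 1]
  simp

theorem base_coeff (a : MonoidAlgebra R G) : a.coeff 1 = aug a := by
  rw [← base_aug_apply]
  conv_rhs => rw [base_single a]
  rw [base_aug_apply]
  unfold aug
  simp

theorem base_adj (a : MonoidAlgebra R G) : adj a = a := by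
  unfold adj
  rw [base_single a, MonoidAlgebra.mapDomain_single, inv_one]

theorem base_l1 (a : MonoidAlgebra ℤ G) : l1 a = |((aug a : ℤ) : ℝ)| := by
  rw [← base_coeff a]
  conv_lhs => rw [base_single a]
  unfold l1
  simp

theorem base_toR (a : MonoidAlgebra ℤ G) : aug (toR a) = ((aug a : ℤ) : ℝ) := by
  rw [← base_coeff, ← base_coeff]
  unfold toR
  simp

theorem base_mstar {ι κ : Type} (A : Matrix κ ι (MonoidAlgebra R G)) :
    mstar A = A.transpose := by
  ext1 i j
  unfold mstar
  rw [base_adj]
  rfl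

theorem base_gram {ι κ : Type} [Fintype κ] [Fintype ι]
    (A : Matrix κ ι (MonoidAlgebra ℤ G)) (i j : ι) :
    aug ((mstar A * A) i j) = ((A.map aug).transpose * A.map aug) i j := by
  rw [base_mstar, Matrix.mul_apply, Matrix.mul_apply, ← base_aug_apply, map_sum]
  apply Finset.sum_congr rfl
  intro k _
  rw [map_mul, base_aug_apply, base_aug_apply]
  rfl

theorem base_BB {ι κ : Type} [Fintype κ] [Fintype ι] [DecidableEq ι]
    (A : Matrix κ ι (MonoidAlgebra ℤ G)) (K : ℝ) :
    (base_aug ℝ G).mapMatrix (BB A K) =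
      1 - K⁻¹ • ((A.map aug).transpose * A.map aug).map (fun z : ℤ => (z : ℝ)) := by
  unfold BB
  rw [map_sub, map_one]
  congr 1
  ext1 i j
  rw [RingHom.mapMatrix_apply, Matrix.map_apply, Matrix.smul_apply, Matrix.smul_apply,
    Matrix.map_apply, Matrix.map_apply, ← base_gram, ← base_toR]
  show MonoidAlgebra.lift ℝ ℝ G (1 : G →* ℝ) (K⁻¹ • toR ((mstar A * A) i j)) = _
  rw [map_smul]
  congr 1
  exact base_aug_apply _

theorem base_tr {ι : Type} [Fintype ι] [DecidableEq ι] (M : Matrix ι ι (MonoidAlgebra ℝ G))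
    (n : ℕ) : tr (M ^ n) = (((base_aug ℝ G).mapMatrix M) ^ n).trace := by
  rw [← map_pow]
  unfold tr Matrix.trace
  apply Finset.sum_congr rfl
  intro i _
  rw [base_coeff, ← base_aug_apply]
  rfl

end

/-- Trivial groups have the trace property. -/
theorem p_base (h : S_mat) : S_base := by
  intro P G _ _ hP ι κ _ _ _ A K N δ hK hδ hrow hadm
  obtain ⟨p, hp, hpp⟩ := hP
  have : Fact p.Prime := ⟨hpp⟩
  rw [base_tr, base_BB]
  apply h p ι κ (A.map aug) (hadm p hp) K N δ hK hδ
  intro i
  refine le_trans (le_of_eq ?_) (hrow i)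
  apply Finset.sum_congr rfl
  intro j _
  rw [base_l1, base_gram]

end Pool.Agent.Lib.MP_fed171_al.RP
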