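import Mathlib
import Pool.Agent.Lib.MP_fed171_al.RP.Stm

/-!
# Project RP (MP_fed171_al): piece `cfacts`, elementary facts on `comp`
-/

set_option autoImplicit false

namespace Pool.Agent.Lib.MP_fed171_al.RP

private theorem cf_apply {R : Type} [CommRing R] {G : Type} [Group G] (N : Subgroup G) [N.Normal]
    (a : MonoidAlgebra R G) (q' q : G ⧸ N) (h : N) :
    (comp N a q' q).coeff h = a.coeff (Quotient.out q' * (h : G) * (Quotient.out q)⁻¹) := by
  unfold comp
  rw [MonoidAlgebra.coeff_comapDomain, Finsupp.comapDomain_apply]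

private theorem cf_adj {R : Type} [CommRing R] {G : Type} [Group G] (a : MonoidAlgebra R G)
    (g : G) : (adj a).coeff g = a.coeff g⁻¹ := by
  unfold adj
  have h := Finsupp.mapDomain_apply (f := fun g : G => g⁻¹) inv_injective a.coeff g⁻¹
  rw [inv_inv] at h
  rw [← h]
  rfl

private theorem cf_mk {G : Type} [Group G] (N : Subgroup G) [N.Normal] (q' q : G ⧸ N) (h : N) :
    ((Quotient.out q' * (h : G) * (Quotient.out q)⁻¹ : G) : G ⧸ N) = q' * q⁻¹ := by
  rw [QuotientGroup.mk_mul, QuotientGroup.mk_mul, QuotientGroup.mk_inv, QuotientGroup.out_eq',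
    QuotientGroup.out_eq', (QuotientGroup.eq_one_iff (h : G)).mpr h.2, mul_one]

private theorem cf_surj {G : Type} [Group G] (N : Subgroup G) [N.Normal] (q' q : G ⧸ N) (g : G)
    (hg : (g : G ⧸ N) = q' * q⁻¹) :
    ∃ h : N, Quotient.out q' * (h : G) * (Quotient.out q)⁻¹ = g := by
  refine ⟨⟨(Quotient.out q')⁻¹ * g * Quotient.out q, ?_⟩, by group⟩
  rw [← QuotientGroup.eq_one_iff, QuotientGroup.mk_mul, QuotientGroup.mk_mul,
    QuotientGroup.mk_inv, QuotientGroup.out_eq', QuotientGroup.out_eq', hg]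
  group

private theorem cf_one {G : Type} [Group G] (N : Subgroup G) [N.Normal] (q : G ⧸ N) (h : N) :
    Quotient.out q * (h : G) * (Quotient.out q)⁻¹ = 1 ↔ h = 1 := by
  rw [mul_inv_eq_one]
  constructor
  · intro hh
    exact Subtype.ext (mul_left_cancel (hh.trans (mul_one _).symm))
  · intro hh
    rw [hh, OneMemClass.coe_one, mul_one]

private theorem cf_coeff_one {R : Type} [CommRing R] {G : Type} [Group G] (g : G) [Decidable (g = 1)] :
    (1 : MonoidAlgebra R G).coeff g = if g = 1 then 1 else 0 := by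
  classical
  rw [MonoidAlgebra.one_def, MonoidAlgebra.coeff_single, Finsupp.single_apply]
  by_cases h : g = 1
  · rw [if_pos h, if_pos h.symm]
  · rw [if_neg h, if_neg (fun h' => h h'.symm)]

private theorem cf_aug {R : Type} [CommRing R] {G : Type} [Group G] (N : Subgroup G) [N.Normal]
    (a : MonoidAlgebra R G) (q' q : G ⧸ N) :
    aug (comp N a q' q) = (a.coeff.mapDomain (QuotientGroup.mk : G → G ⧸ N)) (q' * q⁻¹) := by
  classical
  have h1 : (a.coeff.mapDomain (QuotientGroup.mk : G → G ⧸ N)) (q' * q⁻¹) =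
      ∑ g ∈ a.coeff.support.filter (fun g : G => (g : G ⧸ N) = q' * q⁻¹), a.coeff g := by
    unfold Finsupp.mapDomain
    rw [Finsupp.sum_apply, Finsupp.sum, Finset.sum_filter]
    refine Finset.sum_congr rfl fun g _ => ?_
    rw [Finsupp.single_apply]
  rw [h1]
  unfold aug
  rw [Finsupp.sum]
  refine Finset.sum_nbij (fun h : N => Quotient.out q' * (h : G) * (Quotient.out q)⁻¹) ?_ ?_ ?_ ?_
  · intro h hh
    rw [Finsupp.mem_support_iff, cf_apply] at hh
    rw [Finset.mem_filter, Finsupp.mem_support_iff]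
    exact ⟨hh, cf_mk N q' q h⟩
  · exact (comp_inj N q' q).injOn
  · intro g hg
    rw [Finset.mem_coe, Finset.mem_filter, Finsupp.mem_support_iff] at hg
    obtain ⟨h, hh⟩ := cf_surj N q' q g hg.2
    refine ⟨h, ?_, hh⟩
    rw [Finset.mem_coe, Finsupp.mem_support_iff, cf_apply, hh]
    exact hg.1
  · intro h _
    exact cf_apply N a q' q h

private theorem cf_l1 {G : Type} [Group G] (N : Subgroup G) [N.Normal] (a : MonoidAlgebra ℤ G)
    (q' : G ⧸ N) (F : Finset (G ⧸ N)) : ∑ q ∈ F, l1 (comp N a q' q) ≤ l1 a := by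
  classical
  let f : (Σ _ : G ⧸ N, N) → G :=
    fun x => Quotient.out q' * (x.2 : G) * (Quotient.out x.1)⁻¹
  have hinj : Function.Injective f := by
    intro x y hxy
    obtain ⟨q, h⟩ := x
    obtain ⟨r, k⟩ := y
    have e1 := cf_mk N q' q h
    have e2 := cf_mk N q' r k
    have hxy' : Quotient.out q' * (h : G) * (Quotient.out q)⁻¹ =
      Quotient.out q' * (k : G) * (Quotient.out r)⁻¹ := hxy
    rw [hxy', e2] at e1
    have e3 : r = q := inv_injective (mul_left_cancel e1)
    subst e3
    have e4 : h = k := comp_inj N q' r hxy'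
    rw [e4]
  calc ∑ q ∈ F, l1 (comp N a q' q)
      = ∑ x ∈ F.sigma (fun q => (comp N a q' q).coeff.support), |((a.coeff (f x) : ℤ) : ℝ)| := by
        rw [Finset.sum_sigma]
        refine Finset.sum_congr rfl fun q _ => ?_
        unfold l1
        rw [Finsupp.sum]
        refine Finset.sum_congr rfl fun h _ => ?_
        rw [cf_apply]
    _ = ∑ g ∈ (F.sigma (fun q => (comp N a q' q).coeff.support)).image f,
          |((a.coeff g : ℤ) : ℝ)| := by
        rw [Finset.sum_image hinj.injOn]
    _ ≤ ∑ g ∈ a.coeff.support, |((a.coeff g : ℤ) : ℝ)| := by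
        refine Finset.sum_le_sum_of_subset_of_nonneg ?_ (fun g _ _ => abs_nonneg _)
        intro g hg
        rw [Finset.mem_image] at hg
        obtain ⟨x, hx, rfl⟩ := hg
        rw [Finset.mem_sigma, Finsupp.mem_support_iff, cf_apply] at hx
        exact Finsupp.mem_support_iff.mpr hx.2

theorem p_cfacts : S_cfacts := by
  classical
  refine ⟨?_, ?_, ?_⟩
  · intro R _ G _ N _ a b r q' q
    refine ⟨?_, ?_, ?_, ?_, ?_, ?_, ?_, cf_aug N a q' q⟩
    · refine MonoidAlgebra.ext (Finsupp.ext fun h => ?_)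
      rw [cf_apply, cf_adj, cf_adj, cf_apply]
      congr 1
      rw [InvMemClass.coe_inv]
      group
    · rw [cf_apply, OneMemClass.coe_one, mul_one, mul_inv_cancel]
    · refine MonoidAlgebra.ext (Finsupp.ext fun h => ?_)
      rw [cf_apply, cf_coeff_one, cf_coeff_one]
      by_cases hh : h = 1
      · rw [if_pos hh, if_pos ((cf_one N q h).mpr hh)]
      · rw [if_neg hh, if_neg (fun h' => hh ((cf_one N q h).mp h'))]
    · intro hq
      refine MonoidAlgebra.ext (Finsupp.ext fun h => ?_)
      rw [cf_apply, cf_coeff_one, if_neg]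
      · rfl
      · intro h1
        have h2 := cf_mk N q' q h
        rw [h1, QuotientGroup.mk_one] at h2
        exact hq (mul_inv_eq_one.mp h2.symm)
    · refine MonoidAlgebra.ext (Finsupp.ext fun h => ?_)
      rw [cf_apply, MonoidAlgebra.coeff_sub, MonoidAlgebra.coeff_sub, Finsupp.sub_apply,
        Finsupp.sub_apply, cf_apply, cf_apply]
    · refine MonoidAlgebra.ext (Finsupp.ext fun h => ?_)
      rw [cf_apply, MonoidAlgebra.coeff_add, MonoidAlgebra.coeff_add, Finsupp.add_apply,
        Finsupp.add_apply, cf_apply, cf_apply]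
    · refine MonoidAlgebra.ext (Finsupp.ext fun h => ?_)
      rw [cf_apply, MonoidAlgebra.coeff_smul, MonoidAlgebra.coeff_smul, Finsupp.smul_apply,
        Finsupp.smul_apply, cf_apply]
  · intro G _ N _ a q' q
    refine MonoidAlgebra.ext (Finsupp.ext fun h => ?_)
    unfold toR
    rw [cf_apply, MonoidAlgebra.coeff_mapRingHom, MonoidAlgebra.coeff_mapRingHom, cf_apply]
  · intro G _ N _ a q' F
    exact cf_l1 N a q' F

end Pool.Agent.Lib.MP_fed171_al.RP
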