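import Pool.Agent.Lib.MP_fed171_al.RP.Stm

/-!
# Project RP (MP_fed171_al), piece `cmat`
-/

set_option autoImplicit false

namespace Pool.Agent.Lib.MP_fed171_al.RP

private theorem cmat_comp_sum {R : Type} [CommRing R] {G : Type} [Group G] (N : Subgroup G)
    [N.Normal] {κ : Type} (s : Finset κ) (f : κ → MonoidAlgebra R G) (q' q : G ⧸ N) :
    comp N (∑ i ∈ s, f i) q' q = ∑ i ∈ s, comp N (f i) q' q :=
  map_sum (MonoidAlgebra.comapDomainAddMonoidHom
    (fun h : N => Quotient.out q' * (h : G) * (Quotient.out q)⁻¹) (comp_inj N q' q)) f s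

private theorem cmat_comp_zero {R : Type} [CommRing R] {G : Type} [Group G] (N : Subgroup G)
    [N.Normal] (q' q : G ⧸ N) : comp N (0 : MonoidAlgebra R G) q' q = 0 :=
  map_zero (MonoidAlgebra.comapDomainAddMonoidHom
    (fun h : N => Quotient.out q' * (h : G) * (Quotient.out q)⁻¹) (comp_inj N q' q))

/-- [RP cmat] -/
theorem p_cmat (h1 : S_cfacts) (h2 : S_cmul) : S_cmat := by
  intro G _ N _ ι κ _ _ _ _ A F' F hF
  obtain ⟨c1, c2, c3⟩ := h1
  have e1 : mstar (cmat N A F' F) * cmat N A F' F = cmat N (mstar A * A) F F := by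
    funext x y
    rw [Matrix.mul_apply, Fintype.sum_prod_type]
    show ∑ i, ∑ q' : F', adj (comp N (A i x.1) q' x.2) * comp N (A i y.1) q' y.2 =
      comp N ((mstar A * A) x.1 y.1) x.2 y.2
    rw [Matrix.mul_apply, cmat_comp_sum]
    refine Finset.sum_congr rfl fun i _ => ?_
    rw [Finset.sum_coe_sort F' (fun q' => adj (comp N (A i x.1) q' x.2) * comp N (A i y.1) q' y.2),
      h2 ℤ G N (mstar A x.1 i) (A i y.1) x.2 y.2 F' (fun g hg => hF i y.1 g hg y.2 y.2.2)]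
    refine Finset.sum_congr rfl fun q' _ => ?_
    congr 1
    exact ((c1 ℤ G N (A i x.1) 0 0 q' x.2).1).symm
  refine ⟨e1, ?_, ?_⟩
  · intro K
    funext x y
    show (1 : Matrix (ι × F) (ι × F) (MonoidAlgebra ℝ N)) x y -
      K⁻¹ • toR ((mstar (cmat N A F' F) * cmat N A F' F) x y) =
      comp N ((1 : Matrix ι ι (MonoidAlgebra ℝ G)) x.1 y.1 -
        K⁻¹ • toR ((mstar A * A) x.1 y.1)) x.2 y.2
    rw [e1, (c1 ℝ G N _ _ 0 x.2 y.2).2.2.2.2.1, (c1 ℝ G N _ 0 K⁻¹ x.2 y.2).2.2.2.2.2.2.1, c2]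
    congr 1
    rw [Matrix.one_apply, Matrix.one_apply]
    by_cases hx1 : x.1 = y.1
    · rw [if_pos hx1]
      by_cases hx2 : (x.2 : G ⧸ N) = y.2
      · rw [if_pos (Prod.ext hx1 (Subtype.ext hx2)), hx2]
        exact ((c1 ℝ G N 0 0 0 y.2 y.2).2.2.1).symm
      · rw [if_neg (fun h => hx2 (by rw [h]))]
        exact ((c1 ℝ G N 0 0 0 x.2 y.2).2.2.2.1 hx2).symm
    · rw [if_neg hx1, if_neg (fun h => hx1 (by rw [h])), cmat_comp_zero]
  · intro K hK x
    rw [e1, Fintype.sum_prod_type]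
    refine le_trans (Finset.sum_le_sum fun j _ => ?_) (hK x.1)
    show ∑ q : F, l1 (comp N ((mstar A * A) x.1 j) x.2 q) ≤ l1 ((mstar A * A) x.1 j)
    rw [Finset.sum_coe_sort F (fun q => l1 (comp N ((mstar A * A) x.1 j) x.2 q))]
    exact c3 G N _ _ F

end Pool.Agent.Lib.MP_fed171_al.RP
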