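import Mathlib
import Pool.Agent.Lib.MP_fed171_al.RP.Stm

set_option autoImplicit false

namespace Pool.Agent.Lib.MP_fed171_al.RP

section

variable {R : Type} [CommRing R] {G : Type} [Group G]

private theorem cmul_coeff (a : MonoidAlgebra R G) (y : G) (t : R) (g : G) :
    (a * MonoidAlgebra.single y t).coeff g = a.coeff (g * y⁻¹) * t :=
  MonoidAlgebra.coeff_mul_single_eq_coeff_mul (g * y⁻¹) fun m' _ =>
    ⟨fun h => by rw [← h, mul_inv_cancel_right], fun h => by rw [h, inv_mul_cancel_right]⟩

variable (N : Subgroup G) [N.Normal]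

private theorem comp_coeff (a : MonoidAlgebra R G) (q' q : G ⧸ N) (h : N) :
    (comp N a q' q).coeff h = a.coeff (Quotient.out q' * (h : G) * (Quotient.out q)⁻¹) := rfl

private theorem comp_add' (a b : MonoidAlgebra R G) (q' q : G ⧸ N) :
    comp N (a + b) q' q = comp N a q' q + comp N b q' q :=
  MonoidAlgebra.comapDomain_add _ _ _ _

private theorem out_eq (q : G ⧸ N) : ((Quotient.out q : G) : G ⧸ N) = q := Quotient.out_eq' q

private theorem cls (q' q : G ⧸ N) (h : N) :
    ((Quotient.out q' * (h : G) * (Quotient.out q)⁻¹ : G) : G ⧸ N) = q' * q⁻¹ := by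
  rw [QuotientGroup.mk_mul, QuotientGroup.mk_mul, QuotientGroup.mk_inv, out_eq, out_eq,
    (QuotientGroup.eq_one_iff (h : G)).2 h.2, mul_one]

private theorem comp_single_ne (y : G) (t : R) (q' q : G ⧸ N) (hne : (y : G ⧸ N) * q ≠ q') :
    comp N (MonoidAlgebra.single y t) q' q = 0 := by
  refine MonoidAlgebra.comapDomain_single_of_not_mem_range ?_ _
  rintro ⟨h, rfl⟩
  refine hne ?_
  show ((Quotient.out q' * (h : G) * (Quotient.out q)⁻¹ : G) : G ⧸ N) * q = q'
  rw [cls, inv_mul_cancel_right]

private theorem mem_aux (y : G) (q : G ⧸ N) :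
    (Quotient.out ((y : G ⧸ N) * q))⁻¹ * y * Quotient.out q ∈ N := by
  rw [← QuotientGroup.eq_one_iff, QuotientGroup.mk_mul, QuotientGroup.mk_mul, QuotientGroup.mk_inv,
    out_eq, out_eq]
  group

private theorem comp_single_eq (y : G) (t : R) (q : G ⧸ N) :
    comp N (MonoidAlgebra.single y t) ((y : G ⧸ N) * q) q
      = MonoidAlgebra.single (⟨_, mem_aux N y q⟩ : N) t := by
  have h := MonoidAlgebra.comapDomain_single_map
    (fun h : N => Quotient.out ((y : G ⧸ N) * q) * (h : G) * (Quotient.out q)⁻¹)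
    (comp_inj N ((y : G ⧸ N) * q) q) (⟨_, mem_aux N y q⟩ : N) t
  rw [← h]
  unfold comp
  congr 2
  show y = Quotient.out ((y : G ⧸ N) * q)
    * ((Quotient.out ((y : G ⧸ N) * q))⁻¹ * y * Quotient.out q) * (Quotient.out q)⁻¹
  group

private theorem cmul_single (a : MonoidAlgebra R G) (y : G) (t : R) (q'' q : G ⧸ N)
    (F' : Finset (G ⧸ N)) (hF : (y : G ⧸ N) * q ∈ F') :
    comp N (a * MonoidAlgebra.single y t) q'' q
      = ∑ q' ∈ F', comp N a q'' q' * comp N (MonoidAlgebra.single y t) q' q := by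
  rw [Finset.sum_eq_single ((y : G ⧸ N) * q)
    (fun q' _ hne => by rw [comp_single_ne N y t q' q (Ne.symm hne), mul_zero])
    (fun hn => absurd hF hn), comp_single_eq]
  ext h
  rw [comp_coeff, cmul_coeff, cmul_coeff, comp_coeff]
  congr 2
  show Quotient.out q'' * (h : G) * (Quotient.out q)⁻¹ * y⁻¹
    = Quotient.out q'' * ((h : G) * ((Quotient.out ((y : G ⧸ N) * q))⁻¹ * y * Quotient.out q)⁻¹)
      * (Quotient.out ((y : G ⧸ N) * q))⁻¹
  group

end

theorem p_cmul : S_cmul := by
  intro R _ G _ N _ a b q'' q F' hb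
  have key : ∀ s : Finset G, (∀ g ∈ s, (g : G ⧸ N) * q ∈ F') →
      comp N (a * ∑ g ∈ s, MonoidAlgebra.single g (b.coeff g)) q'' q
        = ∑ q' ∈ F', comp N a q'' q' * comp N (∑ g ∈ s, MonoidAlgebra.single g (b.coeff g)) q' q := by
    classical
    intro s
    induction s using Finset.induction_on with
    | empty =>
      intro _
      have h0 : ∀ q' : G ⧸ N, comp N (0 : MonoidAlgebra R G) q' q = 0 := fun q' =>
        MonoidAlgebra.comapDomain_zero _ _
      simp only [Finset.sum_empty, mul_zero, h0, Finset.sum_const_zero]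
    | insert g s hg ih =>
      intro hs
      rw [Finset.sum_insert hg, mul_add, comp_add', cmul_single N a g _ q'' q F'
        (hs g (Finset.mem_insert_self g s)), ih fun x hx => hs x (Finset.mem_insert_of_mem hx),
        ← Finset.sum_add_distrib]
      refine Finset.sum_congr rfl fun q' _ => ?_
      rw [comp_add', mul_add]
  have hbs : ∑ g ∈ b.coeff.support, MonoidAlgebra.single g (b.coeff g) = b :=
    MonoidAlgebra.sum_coeff_single b
  have h := key b.coeff.support hb
  rwa [hbs] at h

end Pool.Agent.Lib.MP_fed171_al.RP
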