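import Mathlib
import Pool.Agent.Lib.MP_fed171_al.RP.Stm

/-!
# Project RP (MP_fed171_al): piece dual
-/

set_option autoImplicit false

namespace Pool.Agent.Lib.MP_fed171_al.RP

private lemma dual_aux (p : ℕ) [Fact p.Prime] (Γ : Type) [Group Γ] : ∀ (r : ℕ)
    (V : Subgroup (Γ →* Multiplicative (ZMod p))), Nat.card V = p ^ r →
    ∃ g : Fin r → Γ, ∀ χ ∈ V, (∀ i, χ (g i) = 1) → χ = 1 := by
  intro r
  induction r with
  | zero =>
    intro V hV
    rw [pow_zero, Subgroup.card_eq_one] at hV
    refine ⟨Fin.elim0, fun χ hχ _ => ?_⟩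
    rw [hV, Subgroup.mem_bot] at hχ
    exact hχ
  | succ r ih =>
    intro V hV
    have hp : p.Prime := Fact.out
    have hne : V ≠ ⊥ := by
      intro h
      rw [h, Subgroup.card_bot] at hV
      have h1 : 1 < p ^ (r + 1) := Nat.one_lt_pow (by omega) hp.one_lt
      omega
    obtain ⟨⟨χ, hχV⟩, hχ'⟩ := Subgroup.ne_bot_iff_exists_ne_one.1 hne
    have hχ : χ ≠ 1 := fun h => hχ' (Subtype.ext h)
    obtain ⟨g, hg⟩ : ∃ g, χ g ≠ 1 := by
      by_contra hcon
      push Not at hcon
      exact hχ (MonoidHom.ext hcon)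
    let ev : V →* Multiplicative (ZMod p) := (MonoidHom.eval g).comp V.subtype
    have hcard : Nat.card (Multiplicative (ZMod p)) = p := Nat.card_zmod p
    have hrange : Nat.card ev.range = p := by
      have h1 : Nat.card ev.range ∣ p := by
        have := Subgroup.card_subgroup_dvd_card ev.range
        rwa [hcard] at this
      rcases (Nat.dvd_prime hp).1 h1 with h2 | h2
      · exfalso
        rw [Subgroup.card_eq_one] at h2
        have h3 : ev ⟨χ, hχV⟩ ∈ ev.range := ⟨_, rfl⟩
        rw [h2, Subgroup.mem_bot] at h3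
        exact hg h3
      · exact h2
    have hker : Nat.card ev.ker = p ^ r := by
      have h1 := Subgroup.card_mul_index ev.ker
      rw [Subgroup.index_ker, hrange, hV, pow_succ] at h1
      exact Nat.eq_of_mul_eq_mul_right hp.pos h1
    have hmap : Nat.card (ev.ker.map V.subtype) = p ^ r := by
      rw [← hker]
      exact (Nat.card_congr
        (Subgroup.equivMapOfInjective ev.ker V.subtype V.subtype_injective).toEquiv).symm
    obtain ⟨g', hg'⟩ := ih _ hmap
    refine ⟨Fin.cons g g', fun ψ hψ h => ?_⟩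
    apply hg'
    · refine ⟨⟨ψ, hψ⟩, ?_, rfl⟩
      exact h 0
    · intro i
      exact h i.succ

/-- If `Γ` has `p ^ r` homomorphisms to `ℤ/p`, there are `r` elements of `Γ` such that a
homomorphism which is trivial on them is trivial. -/
theorem p_dual : S_dual := by
  intro p _ Γ _ r h
  obtain ⟨g, hg⟩ := dual_aux p Γ r ⊤ (by rw [Subgroup.card_top]; exact h)
  exact ⟨g, fun χ => hg χ (Subgroup.mem_top χ)⟩

end Pool.Agent.Lib.MP_fed171_al.RP
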