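import Mathlib
import Pool.Agent.Lib.MP_fed171_al.RP.Stm

/-!
# Project RP (MP_fed171_al): piece `ext`, the extension step
-/

set_option autoImplicit false

namespace Pool.Agent.Lib.MP_fed171_al.RP

private theorem ext_bnd_nonneg (K : ℝ) (N : ℕ) (δ : ℝ) (hK : 1 ≤ K) (hδ : 0 < δ) :
    0 ≤ bnd K N δ := by
  unfold bnd
  have h1 := Real.exp_pos (-((2 * N : ℕ) : ℝ) * Real.exp (-(1 / δ)) / K)
  have h2 := mul_nonneg hδ.le (Real.log_nonneg hK)
  linarith

theorem p_ext (h1 : S_cfacts) (h2 : S_cmat) (h3 : S_pow) (h4 : S_pos) (h5 : S_fol) (h6 : S_adm) :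
    S_ext := by
  classical
  intro P hP G _ N _ hDD hAm hLI ι κ _ _ _ A K N₀ δ hK hδ hRow hAdm
  obtain ⟨B, hB⟩ : ∃ B : Matrix ι ι (MonoidAlgebra ℝ G), B = BB A K := ⟨_, rfl⟩
  have hb := ext_bnd_nonneg K N₀ δ hK hδ
  have hBs : mstar B = B := by rw [hB]; exact h4.2 G ι κ A K
  have hdiag : ∀ j, 0 ≤ ((B ^ (2 * N₀)) j j).coeff 1 := by
    intro j
    rw [(h4.1 G ι B hBs N₀ j).2]
    refine Finset.sum_nonneg fun y _ => ?_
    unfold Finsupp.sum
    exact Finset.sum_nonneg fun g _ => sq_nonneg _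
  have htr : 0 ≤ tr (B ^ (2 * N₀)) := by
    unfold tr
    exact Finset.sum_nonneg fun j _ => hdiag j
  -- the main inequality
  have key : ∀ η : ℝ, 0 < η → η < 1 →
      (1 - η) * tr (B ^ (2 * N₀)) ≤ Fintype.card ι * bnd K N₀ δ := by
    intro η hη0 hη1
    obtain ⟨S, hS⟩ : ∃ S : Finset (G ⧸ N), S = (Finset.range (2 * N₀ + 1)).biUnion fun k =>
        Finset.univ.biUnion fun i : ι => Finset.univ.biUnion fun j : ι =>
          ((B ^ k) i j).coeff.support.image (QuotientGroup.mk : G → G ⧸ N) := ⟨_, rfl⟩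
    obtain ⟨F, F₀, hFne, hF0F, hcard, hFol⟩ := h5 (G ⧸ N) hAm S η hη0
    obtain ⟨F', hF'⟩ : ∃ F' : Finset (G ⧸ N), F' = Finset.univ.biUnion fun i : κ =>
        Finset.univ.biUnion fun j : ι => (A i j).coeff.support.biUnion fun g =>
          F.image (fun q => (g : G ⧸ N) * q) := ⟨_, rfl⟩
    have hAF : ∀ i j, ∀ g ∈ (A i j).coeff.support, ∀ q ∈ F, (g : G ⧸ N) * q ∈ F' := by
      intro i j g hg q hq
      rw [hF']
      simp only [Finset.mem_biUnion, Finset.mem_univ, true_and, Finset.mem_image]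
      exact ⟨i, j, g, hg, q, hq, rfl⟩
    have hBF : ∀ k ≤ 2 * N₀, ∀ i j, ∀ g ∈ ((B ^ k) i j).coeff.support, ∀ q ∈ F₀,
        (g : G ⧸ N) * q ∈ F := by
      intro k hk i j g hg q hq
      refine hFol _ ?_ q hq
      rw [hS]
      simp only [Finset.mem_biUnion, Finset.mem_univ, true_and, Finset.mem_image, Finset.mem_range]
      exact ⟨k, by omega, i, j, g, hg, rfl⟩
    obtain ⟨-, hBC, hRC⟩ := h2 G N ι κ A F' F hAF
    have hAdmC : Adm P ((cmat N A F' F).map aug) := by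
      intro p hp v hv
      have : Fact p.Prime := ⟨hP p hp⟩
      refine h6 p G N (hLI p hp) ι κ A F' F hAF ?_ p rfl v hv
      intro p' hp' w hw
      rw [Set.mem_singleton_iff] at hp'
      subst hp'
      exact hAdm p' hp w hw
    have hmain := hDD (ι × F) (κ × F') (cmat N A F' F) K N₀ δ hK hδ (hRC K hRow) hAdmC
    obtain ⟨D, hD⟩ : ∃ D : Matrix (ι × F) (ι × F) (MonoidAlgebra ℝ N), D = cmat N B F F :=
      ⟨_, rfl⟩
    have hDB : BB (cmat N A F' F) K = D := by rw [hBC K, hD, hB]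
    rw [hDB] at hmain
    have hDs : mstar D = D := by
      rw [← hDB]
      exact h4.2 N (ι × F) (κ × F') (cmat N A F' F) K
    have hDnn : ∀ x : ι × F, 0 ≤ ((D ^ (2 * N₀)) x x).coeff 1 := by
      intro x
      rw [(h4.1 N (ι × F) D hDs N₀ x).2]
      refine Finset.sum_nonneg fun y _ => ?_
      unfold Finsupp.sum
      exact Finset.sum_nonneg fun g _ => sq_nonneg _
    have hDeq : ∀ (j : ι) (q : F), (q : G ⧸ N) ∈ F₀ →
        ((D ^ (2 * N₀)) (j, q) (j, q)).coeff 1 = ((B ^ (2 * N₀)) j j).coeff 1 := by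
      intro j q hq
      rw [hD, h3 G N ι B F F₀ (2 * N₀) hBF (2 * N₀) le_rfl (j, q) (j, q) hq]
      exact (h1.1 ℝ G N ((B ^ (2 * N₀)) j j) 0 0 (q : G ⧸ N) (q : G ⧸ N)).2.1
    -- the trace of the power of `D`
    have hsum : (F₀.card : ℝ) * tr (B ^ (2 * N₀)) ≤ tr (D ^ (2 * N₀)) := by
      unfold tr
      rw [Fintype.sum_prod_type, Finset.mul_sum]
      refine Finset.sum_le_sum fun j _ => ?_
      have h7 : ∑ q : F, (if (q : G ⧸ N) ∈ F₀ then ((B ^ (2 * N₀)) j j).coeff 1 else 0) ≤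
          ∑ q : F, ((D ^ (2 * N₀)) (j, q) (j, q)).coeff 1 := by
        refine Finset.sum_le_sum fun q _ => ?_
        split_ifs with hq
        · exact (hDeq j q hq).ge
        · exact hDnn (j, q)
      refine le_trans (le_of_eq ?_) h7
      have h8 : ∑ q : F, (if (q : G ⧸ N) ∈ F₀ then ((B ^ (2 * N₀)) j j).coeff 1 else 0) =
          ∑ q ∈ F, (if (q : G ⧸ N) ∈ F₀ then ((B ^ (2 * N₀)) j j).coeff 1 else 0) :=
        Finset.sum_coe_sort F
          (fun q => if q ∈ F₀ then ((B ^ (2 * N₀)) j j).coeff 1 else (0 : ℝ))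
      rw [h8, ← Finset.sum_filter, Finset.filter_mem_eq_inter,
        Finset.inter_eq_right.mpr hF0F, Finset.sum_const, nsmul_eq_mul]
    have hFpos : (0 : ℝ) < F.card := by exact_mod_cast Finset.card_pos.mpr hFne
    have hcardF : (Fintype.card (ι × F) : ℝ) = Fintype.card ι * F.card := by
      rw [Fintype.card_prod, Fintype.card_coe]
      push_cast
      ring
    rw [hcardF] at hmain
    have h9 : (F.card : ℝ) * ((1 - η) * tr (B ^ (2 * N₀))) ≤
        F.card * (Fintype.card ι * bnd K N₀ δ) := by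
      calc (F.card : ℝ) * ((1 - η) * tr (B ^ (2 * N₀)))
          = ((1 - η) * F.card) * tr (B ^ (2 * N₀)) := by ring
        _ ≤ F₀.card * tr (B ^ (2 * N₀)) := mul_le_mul_of_nonneg_right hcard htr
        _ ≤ tr (D ^ (2 * N₀)) := hsum
        _ ≤ Fintype.card ι * F.card * bnd K N₀ δ := hmain
        _ = F.card * (Fintype.card ι * bnd K N₀ δ) := by ring
    exact le_of_mul_le_mul_left h9 hFpos
  rw [← hB]
  -- let `η` tend to zero
  by_contra hcon
  rw [not_le] at hcon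
  have hcb : 0 ≤ Fintype.card ι * bnd K N₀ δ := mul_nonneg (Nat.cast_nonneg _) hb
  have htpos : 0 < tr (B ^ (2 * N₀)) := lt_of_le_of_lt hcb hcon
  obtain ⟨d, hd⟩ : ∃ d, d = tr (B ^ (2 * N₀)) - Fintype.card ι * bnd K N₀ δ := ⟨_, rfl⟩
  have hdpos : 0 < d := by rw [hd]; linarith
  have hdle : d ≤ tr (B ^ (2 * N₀)) := by rw [hd]; linarith
  have h10 := key (d / (2 * tr (B ^ (2 * N₀)))) (by positivity) (by
    rw [div_lt_one (by positivity)]
    linarith)
  have h11 : d / (2 * tr (B ^ (2 * N₀))) * tr (B ^ (2 * N₀)) = d / 2 := by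
    field_simp
  have h12 : (1 - d / (2 * tr (B ^ (2 * N₀)))) * tr (B ^ (2 * N₀)) =
      tr (B ^ (2 * N₀)) - d / 2 := by
    rw [sub_mul, one_mul, h11]
  rw [h12] at h10
  linarith

end Pool.Agent.Lib.MP_fed171_al.RP
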