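import Mathlib
import Pool.Agent.Lib.MP_fed171_al.RP.Stm

/-!
# [RP fix] a nonzero shift-invariant space of functions contains a nonzero fixed function
-/

set_option autoImplicit false

namespace Pool.Agent.Lib.MP_fed171_al.RP

/-- the shift -/
def fix_T (p : ℕ) (ι : Type) :
    (ι → ZMod p → ZMod p) →ₗ[ZMod p] (ι → ZMod p → ZMod p) where
  toFun w := fun j m => w j (m + 1)
  map_add' _ _ := rfl
  map_smul' _ _ := rfl

theorem fix_T_pow (p : ℕ) (ι : Type) (n : ℕ) (w : ι → ZMod p → ZMod p) (j : ι) (m : ZMod p) :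
    (fix_T p ι ^ n) w j m = w j (m + n) := by
  induction n generalizing m with
  | zero => simp
  | succ n ih =>
    rw [pow_succ', Module.End.mul_apply]
    show (fix_T p ι ^ n) w j (m + 1) = _
    rw [ih]
    congr 1
    push_cast
    ring

theorem fix_T_p (p : ℕ) [Fact p.Prime] (ι : Type) : (fix_T p ι - 1) ^ p = 0 := by
  have h1 : (Polynomial.X - 1 : Polynomial (ZMod p)) ^ p = Polynomial.X ^ p - 1 := by
    rw [sub_pow_char, one_pow]
  have h2 := congrArg (Polynomial.aeval (fix_T p ι)) h1
  simp only [map_pow, map_sub, Polynomial.aeval_X, map_one] at h2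
  rw [h2, sub_eq_zero]
  apply LinearMap.ext
  intro w
  funext j m
  rw [fix_T_pow]
  simp

/-- [RP fix] -/
theorem p_fix : S_fix := by
  intro p _ ι V hV hne
  obtain ⟨w, hw, hw0⟩ := V.exists_mem_ne_zero_of_ne_bot hne
  have hex : ∃ e : ℕ, ((fix_T p ι - 1) ^ e) w = 0 := ⟨p, by rw [fix_T_p]; rfl⟩
  classical
  have hspec := Nat.find_spec hex
  have hpos : Nat.find hex ≠ 0 := by
    intro h
    rw [h, pow_zero] at hspec
    exact hw0 hspec
  obtain ⟨e, he⟩ := Nat.exists_eq_succ_of_ne_zero hpos
  have hmem : ∀ n : ℕ, ((fix_T p ι - 1) ^ n) w ∈ V := by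
    intro n
    induction n with
    | zero => simpa using hw
    | succ n ih =>
      rw [pow_succ', Module.End.mul_apply]
      exact V.sub_mem (hV _ ih) ih
  refine ⟨((fix_T p ι - 1) ^ e) w, hmem e, ?_, ?_⟩
  · intro h
    exact Nat.find_min hex (m := e) (by omega) h
  · intro j m
    rw [he, pow_succ', Module.End.mul_apply, LinearMap.sub_apply, sub_eq_zero] at hspec
    exact congrFun (congrFun hspec j) m

end Pool.Agent.Lib.MP_fed171_al.RP
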