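import Mathlib
import Pool.Agent.Lib.MP_fed171_al.RP.Stm

/-!
# Project RP (MP_fed171_al): piece fol
-/

set_option autoImplicit false

namespace Pool.Agent.Lib.MP_fed171_al.RP

/-- Følner sets. -/
theorem p_fol : S_fol := by
  classical
  intro Q _ hQ S η hη
  have hc : (0 : ℝ) < (S.card : ℝ) + 1 := by positivity
  obtain ⟨F, hF, hS⟩ := hQ S (η / ((S.card : ℝ) + 1)) (div_pos hη hc)
  refine ⟨F, F.filter (fun q => ∀ s ∈ S, s * q ∈ F), hF, Finset.filter_subset _ _, ?_, ?_⟩
  · have h1 : F.filter (fun q => ¬ ∀ s ∈ S, s * q ∈ F) ⊆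
        S.biUnion (fun s => F.filter (fun q => s * q ∉ F)) := by
      intro q hq
      rw [Finset.mem_filter] at hq
      obtain ⟨hq1, hq2⟩ := hq
      push Not at hq2
      obtain ⟨s, hs, hsq⟩ := hq2
      exact Finset.mem_biUnion.2 ⟨s, hs, Finset.mem_filter.2 ⟨hq1, hsq⟩⟩
    have h2 : ∀ s ∈ S, ((F.filter (fun q => s * q ∉ F)).card : ℝ) ≤
        η / ((S.card : ℝ) + 1) * F.card := by
      intro s hs
      have h3 := hS s hs
      have e : {q ∈ (F : Set Q) | s * q ∉ F} = ((F.filter (fun q => s * q ∉ F) : Finset Q) : Set Q) := by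
        ext q
        simp
      rw [e, Set.ncard_coe_finset] at h3
      exact h3
    have h4 : ((F.filter (fun q => ¬ ∀ s ∈ S, s * q ∈ F)).card : ℝ) ≤ η * F.card := by
      calc ((F.filter (fun q => ¬ ∀ s ∈ S, s * q ∈ F)).card : ℝ)
          ≤ ((S.biUnion (fun s => F.filter (fun q => s * q ∉ F))).card : ℝ) := by
            exact_mod_cast Finset.card_le_card h1
        _ ≤ ∑ s ∈ S, ((F.filter (fun q => s * q ∉ F)).card : ℝ) := by
            exact_mod_cast Finset.card_biUnion_le
        _ ≤ ∑ _s ∈ S, η / ((S.card : ℝ) + 1) * F.card := Finset.sum_le_sum h2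
        _ = (S.card : ℝ) / ((S.card : ℝ) + 1) * (η * F.card) := by
            rw [Finset.sum_const, nsmul_eq_mul]
            ring
        _ ≤ 1 * (η * F.card) := by
            apply mul_le_mul_of_nonneg_right _ (by positivity)
            rw [div_le_one hc]
            linarith
        _ = η * F.card := one_mul _
    have h5 : ((F.filter (fun q => ∀ s ∈ S, s * q ∈ F)).card : ℝ) +
        ((F.filter (fun q => ¬ ∀ s ∈ S, s * q ∈ F)).card : ℝ) = F.card := by
      exact_mod_cast Finset.card_filter_add_card_filter_not (s := F) (fun q => ∀ s ∈ S, s * q ∈ F)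
    linarith
  · intro s hs q hq
    exact (Finset.mem_filter.1 hq).2 s hs

end Pool.Agent.Lib.MP_fed171_al.RP
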