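import Mathlib
import Pool.Agent.Lib.MP_fed171_al.RP.Stm

/-!
# Project RP (MP_fed171_al), piece `fox`: cocycles which vanish on a subgroup
-/

set_option autoImplicit false

namespace Pool.Agent.Lib.MP_fed171_al.RP

open Pool.Agent.Lib.MP_fed171_al.FD (L2 lam IsCocycle delta pull)

section

variable {Γ : Type} [Group Γ]

/-! ### The action -/

private theorem fox_act_single (g : Γ) (r : ℤ) (ξ : L2 Γ) :
    act (MonoidAlgebra.single g r) ξ = (r : ℂ) • lam g ξ := by
  unfold act
  rw [MonoidAlgebra.coeff_single, Finsupp.sum_single_index (by simp)]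

private theorem fox_act_zero (ξ : L2 Γ) : act (0 : MonoidAlgebra ℤ Γ) ξ = 0 := by
  unfold act
  rw [MonoidAlgebra.coeff_zero, Finsupp.sum_zero_index]

private theorem fox_act_add (a a' : MonoidAlgebra ℤ Γ) (ξ : L2 Γ) :
    act (a + a') ξ = act a ξ + act a' ξ := by
  unfold act
  rw [MonoidAlgebra.coeff_add]
  exact Finsupp.sum_add_index' (by simp) (fun g r r' => by rw [Int.cast_add, add_smul])

private theorem fox_act_neg (a : MonoidAlgebra ℤ Γ) (ξ : L2 Γ) : act (-a) ξ = -act a ξ := by
  have h := fox_act_add a (-a) ξ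
  rw [add_neg_cancel, fox_act_zero] at h
  exact (neg_eq_of_add_eq_zero_right h.symm).symm

private theorem fox_lam_mul (g h : Γ) (ξ : L2 Γ) : lam (g * h) ξ = lam g (lam h ξ) := by
  apply lp.ext
  funext x
  show ξ ((g * h)⁻¹ * x) = ξ (h⁻¹ * (g⁻¹ * x))
  rw [mul_inv_rev, mul_assoc]

private theorem fox_lam_one (ξ : L2 Γ) : lam (1 : Γ) ξ = ξ := by
  apply lp.ext
  funext x
  show ξ ((1 : Γ)⁻¹ * x) = ξ x
  rw [inv_one, one_mul]

private theorem fox_act_smul (g : Γ) (a : MonoidAlgebra ℤ Γ) (ξ : L2 Γ) :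
    act (MonoidAlgebra.single g 1 * a) ξ = lam g (act a ξ) := by
  induction a using MonoidAlgebra.induction_linear with
  | zero => rw [mul_zero, fox_act_zero, map_zero]
  | add a b ha hb => rw [mul_add, fox_act_add, fox_act_add, map_add, ha, hb]
  | single x r =>
    rw [MonoidAlgebra.single_mul_single, one_mul, fox_act_single, fox_act_single, map_smul,
      fox_lam_mul]

/-! ### The augmentation -/

private theorem fox_aug_single (g : Γ) (r : ℤ) : aug (MonoidAlgebra.single g r) = r := by
  unfold aug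
  rw [MonoidAlgebra.coeff_single, Finsupp.sum_single_index rfl]

private theorem fox_aug_zero : aug (0 : MonoidAlgebra ℤ Γ) = 0 := by
  unfold aug
  rw [MonoidAlgebra.coeff_zero, Finsupp.sum_zero_index]

private theorem fox_aug_add (a a' : MonoidAlgebra ℤ Γ) : aug (a + a') = aug a + aug a' := by
  unfold aug
  rw [MonoidAlgebra.coeff_add]
  exact Finsupp.sum_add_index' (fun _ => rfl) (fun _ _ _ => rfl)

private theorem fox_aug_neg (a : MonoidAlgebra ℤ Γ) : aug (-a) = -aug a := by
  have h := fox_aug_add a (-a)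
  rw [add_neg_cancel, fox_aug_zero] at h
  exact (neg_eq_of_add_eq_zero_right h.symm).symm

private theorem fox_aug_smul (g : Γ) (a : MonoidAlgebra ℤ Γ) :
    aug (MonoidAlgebra.single g 1 * a) = aug a := by
  induction a using MonoidAlgebra.induction_linear with
  | zero => rw [mul_zero]
  | add a b ha hb => rw [mul_add, fox_aug_add, fox_aug_add, ha, hb]
  | single x r => rw [MonoidAlgebra.single_mul_single, one_mul, fox_aug_single, fox_aug_single]

/-! ### The derivatives -/

variable {d : ℕ} (S : Fin d → Γ)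

/-- the vectors of derivatives of `x` -/
private def fox_D (x : Γ) : Set (Fin d → MonoidAlgebra ℤ Γ) :=
  {a | ∀ b : Γ → L2 Γ, IsCocycle b → b x = ∑ j, act (a j) (b (S j))}

private theorem fox_b_one (b : Γ → L2 Γ) (hb : IsCocycle b) : b 1 = 0 := by
  have h := hb 1 1
  rw [mul_one, fox_lam_one] at h
  exact left_eq_add.1 h

private theorem fox_D_one : (0 : Fin d → MonoidAlgebra ℤ Γ) ∈ fox_D S 1 := by
  intro b hb
  rw [fox_b_one b hb]
  symm
  exact Finset.sum_eq_zero fun j _ => fox_act_zero _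

private theorem fox_D_gen (j : Fin d) :
    (Pi.single j (MonoidAlgebra.single 1 1) : Fin d → MonoidAlgebra ℤ Γ) ∈ fox_D S (S j) := by
  intro b hb
  rw [Finset.sum_eq_single j]
  · rw [Pi.single_eq_same, fox_act_single, fox_lam_one, Int.cast_one, one_smul]
  · intro i _ hi
    rw [Pi.single_eq_of_ne hi, fox_act_zero]
  · intro h
    exact absurd (Finset.mem_univ _) h

private theorem fox_D_mul {x y : Γ} {a a' : Fin d → MonoidAlgebra ℤ Γ} (ha : a ∈ fox_D S x)
    (ha' : a' ∈ fox_D S y) :
    (fun j => a j + MonoidAlgebra.single x 1 * a' j) ∈ fox_D S (x * y) := by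
  intro b hb
  rw [hb x y, ha b hb, ha' b hb, map_sum, ← Finset.sum_add_distrib]
  refine Finset.sum_congr rfl fun j _ => ?_
  rw [fox_act_add, fox_act_smul]

private theorem fox_D_inv {x : Γ} {a : Fin d → MonoidAlgebra ℤ Γ} (ha : a ∈ fox_D S x) :
    (fun j => -(MonoidAlgebra.single x⁻¹ 1 * a j)) ∈ fox_D S x⁻¹ := by
  intro b hb
  have h := hb x⁻¹ x
  rw [inv_mul_cancel, fox_b_one b hb, ha b hb, map_sum] at h
  rw [eq_neg_of_add_eq_zero_left h.symm, ← Finset.sum_neg_distrib]
  refine Finset.sum_congr rfl fun j _ => ?_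
  rw [fox_act_neg, fox_act_smul]

private theorem fox_D_sub {x : Γ} {a a' : Fin d → MonoidAlgebra ℤ Γ} (ha : a ∈ fox_D S x)
    (ha' : a' ∈ fox_D S x) : (fun j => a j + -a' j) ∈ fox_D S 1 := by
  intro b hb
  have h1 := ha b hb
  have h2 := ha' b hb
  have h3 : ∑ j, act (a j + -a' j) (b (S j)) =
      ∑ j, act (a j) (b (S j)) + -∑ j, act (a' j) (b (S j)) := by
    rw [← Finset.sum_neg_distrib, ← Finset.sum_add_distrib]
    refine Finset.sum_congr rfl fun j _ => ?_
    rw [fox_act_add, fox_act_neg]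
  rw [h3, ← h1, ← h2, fox_b_one b hb, add_neg_cancel]

private theorem fox_D_nonempty (hS : Subgroup.closure (Set.range S) = ⊤) (x : Γ) :
    ∃ a, a ∈ fox_D S x := by
  have hx : x ∈ Subgroup.closure (Set.range S) := by rw [hS]; exact Subgroup.mem_top _
  induction hx using Subgroup.closure_induction with
  | mem y hy =>
    obtain ⟨j, rfl⟩ := hy
    exact ⟨_, fox_D_gen S j⟩
  | one => exact ⟨_, fox_D_one S⟩
  | mul y z _ _ hy hz =>
    obtain ⟨a, ha⟩ := hy
    obtain ⟨a', ha'⟩ := hz
    exact ⟨_, fox_D_mul S ha ha'⟩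
  | inv y _ hy =>
    obtain ⟨a, ha⟩ := hy
    exact ⟨_, fox_D_inv S ha⟩

/-- the augmentations of the derivatives of the elements of `H` -/
private def fox_W (H : Subgroup Γ) : AddSubgroup (Fin d → ℤ) where
  carrier := {v | ∃ h ∈ H, ∃ a ∈ fox_D S h, v = fun j => aug (a j)}
  zero_mem' := ⟨1, H.one_mem, 0, fox_D_one S, by
    funext j
    exact (fox_aug_zero (Γ := Γ)).symm⟩
  add_mem' := by
    rintro v v' ⟨h, hh, a, ha, rfl⟩ ⟨h', hh', a', ha', rfl⟩
    refine ⟨h * h', H.mul_mem hh hh', _, fox_D_mul S ha ha', ?_⟩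
    funext j
    simp only [Pi.add_apply, fox_aug_add, fox_aug_smul]
  neg_mem' := by
    rintro v ⟨h, hh, a, ha, rfl⟩
    refine ⟨h⁻¹, H.inv_mem hh, _, fox_D_inv S ha, ?_⟩
    funext j
    simp only [Pi.neg_apply, fox_aug_neg, fox_aug_smul]

private theorem fox_mem_W (H : Subgroup Γ) (v : Fin d → ℤ) :
    v ∈ fox_W S H ↔ ∃ h ∈ H, ∃ a ∈ fox_D S h, v = fun j => aug (a j) := Iff.rfl

end

theorem p_fox : S_fox := by
  intro Γ _ d S hS H
  have hfg : (AddSubgroup.toIntSubmodule (fox_W S H)).FG := IsNoetherian.noetherian _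
  obtain ⟨m, w, hw⟩ := Submodule.fg_iff_exists_fin_generating_family.1 hfg
  have hwi : ∀ i, ∃ h ∈ H, ∃ a ∈ fox_D S h, w i = fun j => aug (a j) := by
    intro i
    have h1 : w i ∈ AddSubgroup.toIntSubmodule (fox_W S H) := by
      rw [← hw]
      exact Submodule.subset_span ⟨i, rfl⟩
    exact h1
  choose h hh A hA hAw using hwi
  refine ⟨m, fun i j => A i j, ?_, ?_⟩
  · intro b hb hbH i
    rw [← hA i b hb, hbH _ (hh i)]
  · intro p hp hχ q hq v hv
    obtain rfl : q = p := hq
    -- the linear form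
    let f : (Fin d → ℤ) →+ ZMod q :=
      { toFun := fun u => ∑ j, (u j : ZMod q) * v j
        map_zero' := by simp
        map_add' := fun u u' => by
          simp only [Pi.add_apply, Int.cast_add, add_mul, Finset.sum_add_distrib] }
    have hfs : ∀ u ∈ Submodule.span ℤ (Set.range w), f u = 0 := by
      intro u hu
      induction hu using Submodule.span_induction with
      | mem u hu =>
        obtain ⟨i, rfl⟩ := hu
        have h2 := congrFun hv i
        rw [Matrix.mulVec] at h2
        rw [hAw i]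
        exact h2
      | zero => exact map_zero f
      | add u u' _ _ h3 h4 => rw [map_add, h3, h4, add_zero]
      | smul n u _ h3 => rw [map_zsmul, h3, smul_zero]
    have hfW : ∀ x ∈ H, ∀ a ∈ fox_D S x, f (fun j => aug (a j)) = 0 := by
      intro x hx a ha
      apply hfs
      rw [hw]
      exact ⟨x, hx, a, ha, rfl⟩
    have hwd : ∀ x, ∀ a ∈ fox_D S x, ∀ a' ∈ fox_D S x,
        f (fun j => aug (a j)) = f (fun j => aug (a' j)) := by
      intro x a ha a' ha'
      have h1 := hfW 1 H.one_mem _ (fox_D_sub S ha ha')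
      have h2 : (fun j => aug (a j + -a' j)) = (fun j => aug (a j)) + -fun j => aug (a' j) := by
        funext j
        rw [fox_aug_add, fox_aug_neg]
        rfl
      rw [h2, map_add, map_neg, add_neg_eq_zero] at h1
      exact h1
    choose a ha using fox_D_nonempty S hS
    let χ : Γ →* Multiplicative (ZMod q) := MonoidHom.mk'
      (fun x => Multiplicative.ofAdd (f (fun j => aug (a x j)))) (by
        intro x y
        rw [← ofAdd_add]
        congr 1
        rw [hwd (x * y) _ (ha (x * y)) _ (fox_D_mul S (ha x) (ha y)), ← map_add]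
        congr 1
        funext j
        rw [fox_aug_add, fox_aug_smul]
        rfl)
    have hχ1 : χ = 1 := hχ χ fun x hx => by
      show Multiplicative.ofAdd (f (fun j => aug (a x j))) = 1
      rw [hfW x hx _ (ha x)]
      rfl
    funext j
    have h1 : χ (S j) = 1 := by rw [hχ1]; rfl
    have h2 : f (fun i => aug (a (S j) i)) = 0 := h1
    rw [hwd _ _ (ha (S j)) _ (fox_D_gen S j)] at h2
    have h3 : f (fun i => aug ((Pi.single j (MonoidAlgebra.single 1 1) :
        Fin d → MonoidAlgebra ℤ Γ) i)) = v j := by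
      show ∑ i, ((aug ((Pi.single j (MonoidAlgebra.single 1 1) :
        Fin d → MonoidAlgebra ℤ Γ) i) : ℤ) : ZMod q) * v i = v j
      rw [Finset.sum_eq_single j]
      · rw [Pi.single_eq_same, fox_aug_single, Int.cast_one, one_mul]
      · intro i _ hi
        rw [Pi.single_eq_of_ne hi, fox_aug_zero, Int.cast_zero, zero_mul]
      · intro h5
        exact absurd (Finset.mem_univ _) h5
    rw [h3] at h2
    exact h2

end Pool.Agent.Lib.MP_fed171_al.RP
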