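import Pool.Agent.Lib.MP_fed171_al.RP.Stm

/-!
# Project RP (MP_fed171_al): the trace bounds kernel vectors
-/

set_option autoImplicit false

namespace Pool.Agent.Lib.MP_fed171_al.RP

open Pool.Agent.Lib.MP_fed171_al.FD (L2 lam delta pull)

namespace Ineq

variable {Γ : Type} [Group Γ]

/-- The translations as a homomorphism. -/
noncomputable def lamHom : Γ →* (L2 Γ →L[ℂ] L2 Γ) where
  toFun := lam
  map_one' := by
    ext ξ x
    change ξ ((1 : Γ)⁻¹ * x) = ξ x
    rw [inv_one, one_mul]
  map_mul' g h := by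
    ext ξ x
    change ξ ((g * h)⁻¹ * x) = ξ (h⁻¹ * (g⁻¹ * x))
    rw [mul_inv_rev, mul_assoc]

/-- The coefficients as operators. -/
noncomputable def scal : ℝ →+* (L2 Γ →L[ℂ] L2 Γ) :=
  (algebraMap ℂ (L2 Γ →L[ℂ] L2 Γ)).comp Complex.ofRealHom

theorem scal_apply (r : ℝ) (ξ : L2 Γ) : scal r ξ = (r : ℂ) • ξ := rfl

/-- The real group ring acts. -/
noncomputable def rr : MonoidAlgebra ℝ Γ →+* (L2 Γ →L[ℂ] L2 Γ) :=
  MonoidAlgebra.liftNCRingHom scal lamHom (fun r g => by
    refine ContinuousLinearMap.ext fun ξ => ?_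
    change (r : ℂ) • lam g ξ = lam g ((r : ℂ) • ξ)
    rw [map_smul])

theorem rr_single (g : Γ) (r : ℝ) (ξ : L2 Γ) :
    rr (MonoidAlgebra.single g r) ξ = (r : ℂ) • lam g ξ := by
  have h : rr (MonoidAlgebra.single g r) = scal r * lamHom g :=
    MonoidAlgebra.liftNC_single _ _ _ _
  rw [h]
  rfl

theorem act_eq (a : MonoidAlgebra ℤ Γ) (ξ : L2 Γ) : act a ξ = rr (toR a) ξ := by
  induction a using MonoidAlgebra.induction_linear with
  | zero => simp [act]
  | add x y hx hy =>
    rw [map_add, map_add, ContinuousLinearMap.add_apply, ← hx, ← hy]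
    unfold act
    rw [MonoidAlgebra.coeff_add]
    exact Finsupp.sum_add_index' (fun g => by simp) (fun g r s => by push_cast; rw [add_smul])
  | single g r =>
    unfold act toR
    rw [MonoidAlgebra.mapRingHom_single, rr_single, MonoidAlgebra.coeff_single,
      Finsupp.sum_single_index (by simp)]
    simp

theorem lam_inner (g : Γ) (ξ η : L2 Γ) : inner ℂ (lam g ξ) η = inner ℂ ξ (lam g⁻¹ η) := by
  rw [lp.inner_eq_tsum, lp.inner_eq_tsum, ← (Equiv.mulLeft g).tsum_eq]
  refine tsum_congr fun x => ?_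
  change inner ℂ (ξ (g⁻¹ * (g * x))) (η (g * x)) = inner ℂ (ξ x) (η (g⁻¹⁻¹ * x))
  rw [inv_mul_cancel_left, inv_inv]

theorem rr_inner (a : MonoidAlgebra ℝ Γ) (ξ η : L2 Γ) :
    inner ℂ (rr a ξ) η = inner ℂ ξ (rr (adj a) η) := by
  induction a using MonoidAlgebra.induction_linear with
  | zero => simp [adj]
  | add x y hx hy =>
    have h : adj (x + y) = adj x + adj y := MonoidAlgebra.mapDomain_add _ _ _
    rw [h, map_add, map_add, ContinuousLinearMap.add_apply, ContinuousLinearMap.add_apply,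
      inner_add_left, inner_add_right, hx, hy]
  | single g r =>
    have h : adj (MonoidAlgebra.single g r) = MonoidAlgebra.single g⁻¹ r :=
      MonoidAlgebra.mapDomain_single
    rw [h, rr_single, rr_single, inner_smul_left, inner_smul_right, lam_inner,
      Complex.conj_ofReal]

theorem inner_delta (ξ : L2 Γ) : inner ℂ (delta 1) ξ = ξ 1 := by
  classical
  unfold delta
  rw [lp.inner_single_left]
  simp

theorem rr_delta (a : MonoidAlgebra ℝ Γ) (x : Γ) : rr a (delta 1) x = (a.coeff x : ℂ) := by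
  classical
  induction a using MonoidAlgebra.induction_linear with
  | zero => simp
  | add y z hy hz =>
    rw [map_add, MonoidAlgebra.coeff_add, ContinuousLinearMap.add_apply]
    change rr y (delta 1) x + rr z (delta 1) x = _
    rw [hy, hz]
    simp
  | single g r =>
    rw [rr_single, MonoidAlgebra.coeff_single]
    change (r : ℂ) * (delta 1 : L2 Γ) (g⁻¹ * x) = _
    unfold delta
    rw [lp.single_apply, Finsupp.single_apply, Pi.single_apply]
    by_cases hx : g = x
    · subst hx
      simp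
    · have : g⁻¹ * x ≠ 1 := fun h => hx (by rw [inv_mul_eq_one] at h; exact h)
      simp [this, hx]

theorem norm_rr (a : MonoidAlgebra ℝ Γ) :
    ‖rr a (delta 1)‖ ^ 2 = a.coeff.sum fun _ r => r ^ 2 := by
  have h := lp.norm_rpow_eq_tsum (p := 2) (by norm_num) (rr a (delta 1) : L2 Γ)
  have h2 : (2 : ENNReal).toReal = ((2 : ℕ) : ℝ) := by norm_num
  simp only [h2, Real.rpow_natCast] at h
  rw [h, tsum_eq_sum (s := a.coeff.support)]
  · refine Finset.sum_congr rfl fun x _ => ?_
    rw [rr_delta, Complex.norm_real, Real.norm_eq_abs, sq_abs]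
  · intro x hx
    rw [rr_delta, Finsupp.notMem_support_iff.mp hx]
    simp

/-- Matrices act on families. -/
noncomputable def mv {ι κ : Type} [Fintype ι] (M : Matrix κ ι (MonoidAlgebra ℝ Γ))
    (v : ι → L2 Γ) : κ → L2 Γ := fun i => ∑ j, rr (M i j) (v j)

theorem mv_mul {ι κ τ : Type} [Fintype ι] [Fintype κ] (M : Matrix τ κ (MonoidAlgebra ℝ Γ))
    (M' : Matrix κ ι (MonoidAlgebra ℝ Γ)) (v : ι → L2 Γ) : mv (M * M') v = mv M (mv M' v) := by
  funext i
  unfold mv
  simp only [Matrix.mul_apply, map_sum, map_mul, ContinuousLinearMap.sum_apply]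
  rw [Finset.sum_comm]
  rfl

theorem rr_smul (r : ℝ) (a : MonoidAlgebra ℝ Γ) (ξ : L2 Γ) :
    rr (r • a) ξ = (r : ℂ) • rr a ξ := by
  have h : r • a = MonoidAlgebra.single 1 r * a := by
    induction a using MonoidAlgebra.induction_linear with
    | zero => simp
    | add x y hx hy => rw [smul_add, mul_add, hx, hy]
    | single g s => rw [MonoidAlgebra.single_mul_single, one_mul, MonoidAlgebra.smul_single,
        smul_eq_mul]
  rw [h, map_mul]
  change rr (MonoidAlgebra.single 1 r) (rr a ξ) = _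
  rw [rr_single]
  congr 1
  have h1 : (lamHom (1 : Γ)) (rr a ξ) = rr a ξ := by rw [map_one]; rfl
  exact h1

end Ineq

open Ineq in
theorem p_ineq (h : S_pos) : S_ineq := by
  intro Γ _ ι κ _ _ _ A K v hA N j
  have hB : mstar (BB A K) = BB A K := h.2 Γ ι κ A K
  -- the matrix fixes the family
  have hT : ∀ i, ∑ j, rr (((mstar A * A).map toR) i j) (v j) = 0 := by
    intro i
    have e : ((mstar A * A).map toR) = (mstar A).map toR * A.map toR := by
      ext a b : 2
      simp only [Matrix.map_apply, Matrix.mul_apply, map_sum, map_mul]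
    have e2 : mv ((mstar A).map toR * A.map toR) v i = 0 := by
      rw [mv_mul]
      have e3 : mv (A.map toR) v = 0 := by
        funext k
        have := hA k
        simp only [act_eq] at this
        exact this
      rw [e3]
      unfold mv
      simp
    rw [e]
    exact e2
  have hBv : mv (BB A K) v = v := by
    funext i
    unfold mv BB
    have e : ∀ j, rr ((1 - K⁻¹ • (mstar A * A).map toR : Matrix ι ι (MonoidAlgebra ℝ Γ)) i j)
        (v j) = rr ((1 : Matrix ι ι (MonoidAlgebra ℝ Γ)) i j) (v j) -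
          ((K⁻¹ : ℝ) : ℂ) • rr (((mstar A * A).map toR) i j) (v j) := by
      intro j
      rw [Matrix.sub_apply, map_sub, ContinuousLinearMap.sub_apply, Matrix.smul_apply, rr_smul]
    simp only [e]
    rw [Finset.sum_sub_distrib, ← Finset.smul_sum, hT i, smul_zero, sub_zero,
      Finset.sum_eq_single i]
    · rw [Matrix.one_apply_eq, map_one]
      rfl
    · intro b _ hb
      rw [Matrix.one_apply_ne hb.symm, map_zero]
      rfl
    · intro hi
      exact absurd (Finset.mem_univ i) hi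
  have hpow : ∀ n : ℕ, mv (BB A K ^ n) v = v := by
    intro n
    induction n with
    | zero =>
      funext i
      unfold mv
      rw [pow_zero, Finset.sum_eq_single i]
      · rw [Matrix.one_apply_eq, map_one]
        rfl
      · intro b _ hb
        rw [Matrix.one_apply_ne hb.symm, map_zero]
        rfl
      · intro hi
        exact absurd (Finset.mem_univ i) hi
    | succ n ih => rw [pow_succ, mv_mul, hBv, ih]
  -- the coefficient at the unit element
  have hs : mstar (BB A K ^ N) = BB A K ^ N := (h.1 Γ ι (BB A K) hB N j).1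
  have hcoef : v j 1 = ∑ i, inner ℂ (rr ((BB A K ^ N) i j) (delta 1)) (v i) := by
    have e1 : v j 1 = inner ℂ (delta 1) (mv (BB A K ^ N) v j) := by
      rw [hpow N, inner_delta]
    rw [e1]
    unfold mv
    rw [inner_sum]
    refine Finset.sum_congr rfl fun i _ => ?_
    rw [rr_inner]
    have e2 : adj ((BB A K ^ N) i j) = (BB A K ^ N) j i := congrFun (congrFun hs j) i
    rw [e2]
  have hdiag : ∀ x : ι, ((BB A K ^ (2 * N)) x x).coeff 1 =
      ∑ y, ((BB A K ^ N) y x).coeff.sum fun _ r => r ^ 2 :=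
    fun x => (h.1 Γ ι (BB A K) hB N x).2
  have hnn : ∀ x : ι, 0 ≤ ((BB A K ^ (2 * N)) x x).coeff 1 := by
    intro x
    rw [hdiag x]
    exact Finset.sum_nonneg fun y _ => Finset.sum_nonneg fun _ _ => sq_nonneg _
  have htr : ((BB A K ^ (2 * N)) j j).coeff 1 ≤ tr (BB A K ^ (2 * N)) :=
    Finset.single_le_sum (f := fun x => ((BB A K ^ (2 * N)) x x).coeff 1)
      (fun x _ => hnn x) (Finset.mem_univ j)
  have hsum : ∑ i, ‖rr ((BB A K ^ N) i j) (delta 1)‖ ^ 2 =
      ((BB A K ^ (2 * N)) j j).coeff 1 := by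
    rw [hdiag j]
    exact Finset.sum_congr rfl fun i _ => norm_rr _
  have h1 : ‖v j 1‖ ≤ ∑ i, ‖rr ((BB A K ^ N) i j) (delta 1)‖ * ‖v i‖ := by
    rw [hcoef]
    exact (norm_sum_le _ _).trans (Finset.sum_le_sum fun i _ => norm_inner_le_norm _ _)
  calc ‖v j 1‖ ^ 2 ≤ (∑ i, ‖rr ((BB A K ^ N) i j) (delta 1)‖ * ‖v i‖) ^ 2 :=
        pow_le_pow_left₀ (norm_nonneg _) h1 2
    _ ≤ (∑ i, ‖rr ((BB A K ^ N) i j) (delta 1)‖ ^ 2) * ∑ i, ‖v i‖ ^ 2 :=
        Finset.sum_mul_sq_le_sq_mul_sq _ _ _
    _ = (∑ i, ‖v i‖ ^ 2) * ((BB A K ^ (2 * N)) j j).coeff 1 := by rw [hsum, mul_comm]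
    _ ≤ (∑ i, ‖v i‖ ^ 2) * tr (BB A K ^ (2 * N)) :=
        mul_le_mul_of_nonneg_left htr (Finset.sum_nonneg fun _ _ => sq_nonneg _)

end Pool.Agent.Lib.MP_fed171_al.RP
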