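import Pool.Agent.Lib.MP_fed171_al.RP.Stm

/-!
# Project RP (MP_fed171_al): injectivity on square summable functions
-/

set_option autoImplicit false

namespace Pool.Agent.Lib.MP_fed171_al.RP

open Pool.Agent.Lib.MP_fed171_al.FD (L2 lam IsCocycle delta pull pull_apply)

open Filter Topology

private theorem inj_l1_nonneg {Γ : Type} [Group Γ] (a : MonoidAlgebra ℤ Γ) : 0 ≤ l1 a := by
  unfold l1 Finsupp.sum
  exact Finset.sum_nonneg fun _ _ => abs_nonneg _

private theorem inj_rowBound {Γ : Type} [Group Γ] {ι : Type} [Fintype ι]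
    (T : Matrix ι ι (MonoidAlgebra ℤ Γ)) : RowBound T (1 + ∑ i, ∑ j, l1 (T i j)) := by
  intro i
  have h1 : ∑ j, l1 (T i j) ≤ ∑ i, ∑ j, l1 (T i j) :=
    Finset.single_le_sum (f := fun i => ∑ j, l1 (T i j))
      (fun i _ => Finset.sum_nonneg fun j _ => inj_l1_nonneg _) (Finset.mem_univ i)
  linarith

private theorem inj_bnd_tendsto (K δ : ℝ) (hK : 1 ≤ K) :
    Tendsto (fun N : ℕ => bnd K N δ) atTop (𝓝 (0 + δ * Real.log K)) := by
  unfold bnd
  refine Tendsto.add_const _ (Real.tendsto_exp_atBot.comp ?_)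
  have hc : 0 < Real.exp (-(1 / δ)) := Real.exp_pos _
  have h1 : (fun N : ℕ => -((2 * N : ℕ) : ℝ) * Real.exp (-(1 / δ)) / K) =
      fun N : ℕ => -(((N : ℝ)) * (2 * Real.exp (-(1 / δ)) / K)) := by
    funext N
    push_cast
    ring
  rw [h1]
  refine tendsto_neg_atTop_atBot.comp (Tendsto.atTop_mul_const ?_ tendsto_natCast_atTop_atTop)
  positivity

private theorem inj_zero (x C L : ℝ) (hC : 0 ≤ C) (hL : 0 ≤ L)
    (h : ∀ δ : ℝ, 0 < δ → x ≤ C * (0 + δ * L)) : x ≤ 0 := by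
  by_contra hx
  rw [not_le] at hx
  have h1 : 0 < 2 * (C * L + 1) := by positivity
  have h2 := h (x / (2 * (C * L + 1))) (div_pos hx h1)
  have h3 : C * (0 + x / (2 * (C * L + 1)) * L) = (C * L * x) / (2 * (C * L + 1)) := by
    field_simp
    ring
  rw [h3, le_div_iff₀ h1] at h2
  nlinarith [mul_nonneg (mul_nonneg hC hL) hx.le]

private theorem inj_one (h : S_ineq) (P : Set ℕ) (Γ : Type) [Group Γ] (hD : DD P Γ) (ι κ : Type)
    [Fintype ι] [Fintype κ] (A : Matrix κ ι (MonoidAlgebra ℤ Γ)) (hA : Adm P (A.map aug))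
    (v : ι → L2 Γ) (hv : ∀ i, ∑ j, act (A i j) (v j) = 0) (j : ι) : v j 1 = 0 := by
  classical
  set K : ℝ := 1 + ∑ i, ∑ j, l1 ((mstar A * A) i j) with hK
  have hK1 : 1 ≤ K := by
    have h1 : 0 ≤ ∑ i, ∑ j, l1 ((mstar A * A) i j) :=
      Finset.sum_nonneg fun i _ => Finset.sum_nonneg fun j _ => inj_l1_nonneg _
    linarith
  have hR : RowBound (mstar A * A) K := inj_rowBound _
  have hS : 0 ≤ ∑ i, ‖v i‖ ^ 2 := Finset.sum_nonneg fun i _ => by positivity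
  have h1 : ∀ (δ : ℝ), 0 < δ → ∀ N : ℕ,
      ‖v j 1‖ ^ 2 ≤ (∑ i, ‖v i‖ ^ 2) * Fintype.card ι * bnd K N δ := by
    intro δ hδ N
    refine (h Γ ι κ A K v hv N j).trans ?_
    rw [mul_assoc]
    exact mul_le_mul_of_nonneg_left (hD ι κ A K N δ hK1 hδ hR hA) hS
  have h2 : ∀ (δ : ℝ), 0 < δ →
      ‖v j 1‖ ^ 2 ≤ (∑ i, ‖v i‖ ^ 2) * Fintype.card ι * (0 + δ * Real.log K) := by
    intro δ hδ
    exact ge_of_tendsto' ((inj_bnd_tendsto K δ hK1).const_mul _) (h1 δ hδ)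
  have h3 := inj_zero _ _ _ (mul_nonneg hS (Nat.cast_nonneg _)) (Real.log_nonneg hK1) h2
  have h4 : ‖v j 1‖ = 0 := by
    have h5 : 0 ≤ ‖v j 1‖ ^ 2 := by positivity
    exact pow_eq_zero_iff (two_ne_zero) |>.mp (le_antisymm h3 h5)
  exact norm_eq_zero.mp h4

private theorem inj_mulR {Γ : Type} [Group Γ] (γ : Γ) : Function.Injective (fun x : Γ => x * γ) :=
  fun _ _ h => mul_right_cancel h

private theorem inj_lam {Γ : Type} [Group Γ] (γ g : Γ) (ξ : L2 Γ) :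
    lam g (pull (fun x => x * γ) (inj_mulR γ) ξ) = pull (fun x => x * γ) (inj_mulR γ) (lam g ξ) := by
  apply lp.ext
  funext x
  show ξ (g⁻¹ * x * γ) = ξ (g⁻¹ * (x * γ))
  rw [mul_assoc]

private theorem inj_act {Γ : Type} [Group Γ] (γ : Γ) (a : MonoidAlgebra ℤ Γ) (ξ : L2 Γ) :
    act a (pull (fun x => x * γ) (inj_mulR γ) ξ) =
      pull (fun x => x * γ) (inj_mulR γ) (act a ξ) := by
  unfold act Finsupp.sum
  rw [map_sum]
  refine Finset.sum_congr rfl fun g _ => ?_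
  rw [map_smul, ← inj_lam]

theorem p_inj (h : S_ineq) : S_inj := by
  intro P Γ _ hD ι κ _ _ A hA v hv
  funext j
  apply lp.ext
  funext γ
  have h1 := inj_one h P Γ hD ι κ A hA (fun j => pull (fun x => x * γ) (inj_mulR γ) (v j)) (by
    intro i
    simp only [inj_act]
    rw [← map_sum, hv i, map_zero]) j
  have h2 : v j (1 * γ) = 0 := h1
  rw [one_mul] at h2
  rw [h2]
  rfl

end Pool.Agent.Lib.MP_fed171_al.RP
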