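import Pool.Agent.Lib.MP_fed171_al.RP.Stm

/-!
# Project RP (MP_fed171_al): piece `lim`
-/

set_option autoImplicit false

namespace Pool.Agent.Lib.MP_fed171_al.RP

open scoped Pointwise

/-- the support of `a` is contained in `X` -/
private def LIn {R : Type} [CommRing R] {G : Type} (X : Set G) (a : MonoidAlgebra R G) : Prop :=
  ∀ g, a.coeff g ≠ 0 → g ∈ X

section

variable {R : Type} [CommRing R] {G H : Type}

private theorem lin_mono {X Y : Set G} (h : X ⊆ Y) {a : MonoidAlgebra R G} (ha : LIn X a) :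
    LIn Y a := fun g hg => h (ha g hg)

private theorem lin_zero (X : Set G) : LIn X (0 : MonoidAlgebra R G) := fun _ hg =>
  absurd rfl hg

private theorem lin_one [Group G] {X : Set G} (h1 : (1 : G) ∈ X) :
    LIn X (1 : MonoidAlgebra R G) := by
  classical
  intro g hg
  by_contra h
  apply hg
  rw [MonoidAlgebra.one_def, MonoidAlgebra.coeff_single, Finsupp.single_apply, if_neg]
  rintro rfl
  exact h h1

private theorem lin_sub {X : Set G} {a b : MonoidAlgebra R G} (ha : LIn X a) (hb : LIn X b) :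
    LIn X (a - b) := by
  intro g hg
  by_contra h
  apply hg
  have h1 : a.coeff g = 0 := by_contra fun h' => h (ha g h')
  have h2 : b.coeff g = 0 := by_contra fun h' => h (hb g h')
  show (a - b).coeff g = 0
  rw [MonoidAlgebra.coeff_sub, Finsupp.sub_apply, h1, h2, sub_zero]

private theorem lin_smul {X : Set G} {a : MonoidAlgebra R G} (r : R) (ha : LIn X a) :
    LIn X (r • a) := by
  intro g hg
  refine ha g fun h => hg ?_
  rw [MonoidAlgebra.coeff_smul, Finsupp.smul_apply, h, smul_zero]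

private theorem lin_sum {X : Set G} {ι : Type} (s : Finset ι) (f : ι → MonoidAlgebra R G)
    (h : ∀ i ∈ s, LIn X (f i)) : LIn X (∑ i ∈ s, f i) := by
  intro g hg
  by_contra hX
  apply hg
  rw [MonoidAlgebra.coeff_sum, Finsupp.finsetSum_apply]
  exact Finset.sum_eq_zero fun i hi => by_contra fun h' => hX (h i hi g h')

private theorem lin_mul [Group G] {X Y : Set G} {a b : MonoidAlgebra R G} (ha : LIn X a)
    (hb : LIn Y b) : LIn (X * Y) (a * b) := by
  classical
  intro g hg
  have h1 := MonoidAlgebra.support_coeff_mul_subset a b (Finsupp.mem_support_iff.mpr hg)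
  rw [Finset.mem_mul] at h1
  obtain ⟨x, hx, y, hy, rfl⟩ := h1
  exact Set.mul_mem_mul (ha x (Finsupp.mem_support_iff.mp hx))
    (hb y (Finsupp.mem_support_iff.mp hy))

private theorem lin_adj [Group G] {X : Set G} (hX : ∀ x ∈ X, x⁻¹ ∈ X) {a : MonoidAlgebra R G}
    (ha : LIn X a) : LIn X (adj a) := by
  classical
  intro g hg
  have h1 : g ∈ (Finsupp.mapDomain (fun g : G => g⁻¹) a.coeff).support :=
    Finsupp.mem_support_iff.mpr hg
  obtain ⟨x, hx, rfl⟩ := Finset.mem_image.mp (Finsupp.mapDomain_support h1)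
  exact hX x (ha x (Finsupp.mem_support_iff.mp hx))

/-- the map as a homomorphism of additive groups -/
private noncomputable def Lm (φ : G → H) : MonoidAlgebra R G →+ MonoidAlgebra R H where
  toFun := MonoidAlgebra.mapDomain φ
  map_zero' := MonoidAlgebra.mapDomain_zero φ
  map_add' := MonoidAlgebra.mapDomain_add φ

private theorem lm_single (φ : G → H) (g : G) (r : R) :
    Lm φ (MonoidAlgebra.single g r) = MonoidAlgebra.single (φ g) r :=
  MonoidAlgebra.mapDomain_single

private theorem lm_smul (φ : G → H) (r : R) (a : MonoidAlgebra R G) :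
    Lm φ (r • a) = r • Lm φ a := by
  apply MonoidAlgebra.ext
  show Finsupp.mapDomain φ (r • a).coeff = (r • MonoidAlgebra.mapDomain φ a).coeff
  rw [MonoidAlgebra.coeff_smul, MonoidAlgebra.coeff_smul, Finsupp.mapDomain_smul]
  rfl

private theorem lsum (a : MonoidAlgebra R G) :
    ∑ x ∈ a.coeff.support, MonoidAlgebra.single x (a.coeff x) = a :=
  MonoidAlgebra.sum_coeff_single a

private theorem lm_mul [Group G] [Group H] {φ : G → H} {X Y : Set G}
    (hφ : ∀ x ∈ X, ∀ y ∈ Y, φ (x * y) = φ x * φ y) {a b : MonoidAlgebra R G} (ha : LIn X a)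
    (hb : LIn Y b) : Lm φ (a * b) = Lm φ a * Lm φ b := by
  have key : ∀ (A B : Finset G) (f g : G → R), (∀ x ∈ A, x ∈ X) → (∀ y ∈ B, y ∈ Y) →
      Lm φ ((∑ x ∈ A, MonoidAlgebra.single x (f x)) * ∑ y ∈ B, MonoidAlgebra.single y (g y)) =
        Lm φ (∑ x ∈ A, MonoidAlgebra.single x (f x)) *
          Lm φ (∑ y ∈ B, MonoidAlgebra.single y (g y)) := by
    intro A B f g hA hB
    rw [Finset.sum_mul_sum, map_sum, map_sum, map_sum, Finset.sum_mul_sum]
    refine Finset.sum_congr rfl fun x hx => ?_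
    rw [map_sum]
    refine Finset.sum_congr rfl fun y hy => ?_
    rw [MonoidAlgebra.single_mul_single, lm_single, lm_single, lm_single,
      MonoidAlgebra.single_mul_single, hφ x (hA x hx) y (hB y hy)]
  have h := key a.coeff.support b.coeff.support a.coeff b.coeff
    (fun x hx => ha x (Finsupp.mem_support_iff.mp hx))
    (fun y hy => hb y (Finsupp.mem_support_iff.mp hy))
  rwa [lsum, lsum] at h

private theorem lm_adj [Group G] [Group H] {φ : G → H} {X : Set G}
    (hφ : ∀ x ∈ X, φ x⁻¹ = (φ x)⁻¹) {a : MonoidAlgebra R G} (ha : LIn X a) :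
    Lm φ (adj a) = adj (Lm φ a) := by
  apply MonoidAlgebra.ext
  show Finsupp.mapDomain φ (Finsupp.mapDomain (fun g : G => g⁻¹) a.coeff) =
    Finsupp.mapDomain (fun g : H => g⁻¹) (Finsupp.mapDomain φ a.coeff)
  rw [← Finsupp.mapDomain_comp, ← Finsupp.mapDomain_comp]
  exact Finsupp.mapDomain_congr fun x hx => hφ x (ha x (Finsupp.mem_support_iff.mp hx))

private theorem lm_coeff {φ : G → H} {X : Set G} (hφ : Set.InjOn φ X)
    {a : MonoidAlgebra R G} (ha : LIn X a) {x : G} (hx : x ∈ X) :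
    (Lm φ a).coeff (φ x) = a.coeff x :=
  Finsupp.mapDomain_apply' X a.coeff
    (fun y hy => ha y (Finsupp.mem_support_iff.mp (Finset.mem_coe.mp hy))) hφ hx

private theorem lm_aug (φ : G → H) (a : MonoidAlgebra R G) :
    Finsupp.sum (Lm φ a).coeff (fun _ r => r) = Finsupp.sum a.coeff (fun _ r => r) := by
  show (Finsupp.mapDomain φ a.coeff).sum (fun _ r => r) = _
  exact Finsupp.sum_mapDomain_index (fun _ => rfl) (fun _ _ _ => rfl)

end

section

variable {G H : Type}

private theorem lm_l1 {φ : G → H} {X : Set G} (hφ : Set.InjOn φ X)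
    {a : MonoidAlgebra ℤ G} (ha : LIn X a) :
    (Lm φ a).coeff.sum (fun _ r => |(r : ℝ)|) = a.coeff.sum (fun _ r => |(r : ℝ)|) := by
  classical
  have hs : (a.coeff.support : Set G) ⊆ X :=
    fun y hy => ha y (Finsupp.mem_support_iff.mp (Finset.mem_coe.mp hy))
  have h1 : (Lm φ a).coeff.support = Finset.image φ a.coeff.support :=
    Finsupp.mapDomain_support_of_injOn a.coeff (hφ.mono hs)
  unfold Finsupp.sum
  rw [h1, Finset.sum_image fun x hx y hy h => hφ (hs hx) (hs hy) h]
  refine Finset.sum_congr rfl fun x hx => ?_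
  rw [lm_coeff hφ ha (hs (Finset.mem_coe.mpr hx))]

private theorem lm_toR (φ : G → H) [Group G] [Group H] (a : MonoidAlgebra ℤ G) :
    Lm φ (toR a) = toR (Lm φ a) := by
  induction a using MonoidAlgebra.induction_linear with
  | zero => rw [map_zero, map_zero, map_zero, map_zero]
  | add x y hx hy => rw [map_add, map_add, map_add, map_add, hx, hy]
  | single x r =>
    rw [lm_single]
    unfold toR
    rw [MonoidAlgebra.mapRingHom_single, MonoidAlgebra.mapRingHom_single, lm_single]

private theorem lin_toR [Group G] {X : Set G} {a : MonoidAlgebra ℤ G} (ha : LIn X a) :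
    LIn X (toR a) := by
  intro g hg
  refine ha g fun h => hg ?_
  unfold toR
  rw [MonoidAlgebra.coeff_mapRingHom, h, map_zero]

end

section

variable {G H : Type} [Group G] [Group H] {ι κ : Type} [Fintype ι] [DecidableEq ι] [Fintype κ]

private theorem lpow {φ : G → H} {X : Set G} {m L : ℕ} (h1 : (1 : G) ∈ X)
    (hφ1 : φ 1 = 1) (hφ : ∀ x ∈ X ^ L, ∀ y ∈ X ^ L, φ (x * y) = φ x * φ y)
    (M : Matrix ι ι (MonoidAlgebra ℝ G)) (M' : Matrix ι ι (MonoidAlgebra ℝ H))
    (hM : ∀ i j, LIn (X ^ m) (M i j)) (hM' : ∀ i j, M' i j = Lm φ (M i j)) :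
    ∀ k : ℕ, m * k + m ≤ L → (∀ i j, LIn (X ^ (m * k)) ((M ^ k) i j)) ∧
      ∀ i j, (M' ^ k) i j = Lm φ ((M ^ k) i j) := by
  intro k
  induction k with
  | zero =>
    intro _
    constructor
    · intro i j
      rw [pow_zero, Matrix.one_apply]
      split_ifs
      · rw [mul_zero, pow_zero]
        exact lin_one rfl
      · exact lin_zero _
    · intro i j
      rw [pow_zero, pow_zero, Matrix.one_apply, Matrix.one_apply]
      split_ifs
      · rw [MonoidAlgebra.one_def, MonoidAlgebra.one_def, lm_single, hφ1]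
      · rw [map_zero]
  | succ k ih =>
    intro hk
    rw [Nat.mul_succ] at hk
    obtain ⟨ih1, ih2⟩ := ih (by omega)
    constructor
    · intro i j
      rw [pow_succ, Matrix.mul_apply, Nat.mul_succ, pow_add]
      exact lin_sum _ _ fun l _ => lin_mul (ih1 i l) (hM l j)
    · intro i j
      rw [pow_succ, pow_succ, Matrix.mul_apply, Matrix.mul_apply, map_sum]
      refine Finset.sum_congr rfl fun l _ => ?_
      rw [ih2, hM', lm_mul (X := X ^ L) (Y := X ^ L) hφ
        (lin_mono (Set.pow_subset_pow_right h1 (by omega)) (ih1 i l))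
        (lin_mono (Set.pow_subset_pow_right h1 (by omega)) (hM l j))]

end

/-- [lim] -/
theorem p_lim : S_lim := by
  classical
  intro P G _ hG ι κ _ _ _ A K N δ hK hδ hrow hadm
  -- the finite set
  obtain ⟨T, hT⟩ : ∃ T : Finset G, ∀ i j g, (A i j).coeff g ≠ 0 → g ∈ T := by
    refine ⟨Finset.univ.biUnion fun i => Finset.univ.biUnion fun j => (A i j).coeff.support, ?_⟩
    intro i j g hg
    simp only [Finset.mem_biUnion, Finset.mem_univ, true_and]
    exact ⟨i, j, Finsupp.mem_support_iff.mpr hg⟩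
  obtain ⟨S, h1, hinv, hS⟩ : ∃ S : Finset G, (1 : G) ∈ S ∧ (∀ x ∈ S, x⁻¹ ∈ S) ∧ T ⊆ S := by
    refine ⟨insert 1 (T ∪ T.image fun x => x⁻¹), ?_, ?_, ?_⟩
    · exact Finset.mem_insert_self _ _
    · intro x hx
      rw [Finset.mem_insert, Finset.mem_union, Finset.mem_image] at hx ⊢
      rcases hx with rfl | hx | ⟨y, hy, rfl⟩
      · exact Or.inl inv_one
      · exact Or.inr (Or.inr ⟨x, hx, rfl⟩)
      · exact Or.inr (Or.inl (by rwa [inv_inv]))
    · intro x hx
      exact Finset.mem_insert_of_mem (Finset.mem_union_left _ hx)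
  have h1' : (1 : G) ∈ (S : Set G) := Finset.mem_coe.mpr h1
  obtain ⟨H, _, φ, hDD, hinj, hmul⟩ := hG (S ^ (4 * N + 4))
  have hmul' : ∀ x ∈ (S : Set G) ^ (4 * N + 4), ∀ y ∈ (S : Set G) ^ (4 * N + 4),
      φ (x * y) = φ x * φ y := by
    intro x hx y hy
    rw [← Finset.coe_pow, Finset.mem_coe] at hx hy
    exact hmul x hx y hy
  rw [Finset.coe_pow] at hinj
  have hsub : ∀ n ≤ 4 * N + 4, (S : Set G) ^ n ⊆ (S : Set G) ^ (4 * N + 4) :=
    fun n hn => Set.pow_subset_pow_right h1' hn
  have hS1 : (S : Set G) ⊆ (S : Set G) ^ (4 * N + 4) := by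
    have := hsub 1 (by omega)
    rwa [pow_one] at this
  have hφ1 : φ 1 = 1 := by
    have h := hmul' 1 (hS1 h1') 1 (hS1 h1')
    rw [mul_one] at h
    exact (left_eq_mul.mp h)
  have hφinv : ∀ x ∈ (S : Set G), φ x⁻¹ = (φ x)⁻¹ := by
    intro x hx
    have h := hmul' x⁻¹ (hS1 (hinv x hx)) x (hS1 hx)
    rw [inv_mul_cancel, hφ1] at h
    exact (inv_eq_of_mul_eq_one_left h.symm).symm
  have hA : ∀ i j, LIn (S : Set G) (A i j) := fun i j g hg => hS (hT i j g hg)
  -- the new matrix
  obtain ⟨A', hA'⟩ : ∃ A' : Matrix κ ι (MonoidAlgebra ℤ H), ∀ i j, A' i j = Lm φ (A i j) :=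
    ⟨fun i j => Lm φ (A i j), fun _ _ => rfl⟩
  have hadj : ∀ i j, adj (A' i j) = Lm φ (adj (A i j)) := by
    intro i j
    rw [hA', lm_adj hφinv (hA i j)]
  have hTin : ∀ i j, LIn ((S : Set G) ^ 2) ((mstar A * A) i j) := by
    intro i j
    rw [Matrix.mul_apply, pow_two]
    exact lin_sum _ _ fun l _ => lin_mul (lin_adj hinv (hA l i)) (hA l j)
  have hTm : ∀ i j, (mstar A' * A') i j = Lm φ ((mstar A * A) i j) := by
    intro i j
    rw [Matrix.mul_apply, Matrix.mul_apply, map_sum]
    refine Finset.sum_congr rfl fun l _ => ?_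
    show adj (A' l i) * A' l j = Lm φ (adj (A l i) * A l j)
    rw [hadj, hA', lm_mul (X := (S : Set G)) (Y := (S : Set G))
      (fun x hx y hy => hmul' x (hS1 hx) y (hS1 hy)) (lin_adj hinv (hA l i)) (hA l j)]
  have hBin : ∀ i j, LIn ((S : Set G) ^ 2) ((BB A K) i j) := by
    intro i j
    unfold BB
    rw [Matrix.sub_apply]
    refine lin_sub ?_ (lin_smul _ (lin_toR (hTin i j)))
    rw [Matrix.one_apply]
    split_ifs
    · refine lin_one ?_
      rw [pow_two]
      exact ⟨1, h1', 1, h1', mul_one 1⟩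
    · exact lin_zero _
  have hBm : ∀ i j, (BB A' K) i j = Lm φ ((BB A K) i j) := by
    intro i j
    unfold BB
    rw [Matrix.sub_apply, Matrix.sub_apply, map_sub]
    congr 1
    · rw [Matrix.one_apply, Matrix.one_apply]
      split_ifs
      · rw [MonoidAlgebra.one_def, MonoidAlgebra.one_def, lm_single, hφ1]
      · rw [map_zero]
    · show K⁻¹ • toR ((mstar A' * A') i j) = Lm φ (K⁻¹ • toR ((mstar A * A) i j))
      rw [lm_smul, lm_toR, hTm]
  obtain ⟨hp1, hp2⟩ := lpow (X := (S : Set G)) (m := 2) (L := 4 * N + 4) h1' hφ1 hmul'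
    (BB A K) (BB A' K) hBin hBm (2 * N) (by omega)
  have htr : tr (BB A' K ^ (2 * N)) = tr (BB A K ^ (2 * N)) := by
    unfold tr
    refine Finset.sum_congr rfl fun i _ => ?_
    rw [hp2 i i]
    conv_lhs => rw [← hφ1]
    exact lm_coeff hinj (lin_mono (hsub _ (by omega)) (hp1 i i)) (hS1 h1')
  rw [← htr]
  refine hDD ι κ A' K N δ hK hδ ?_ ?_
  · intro i
    refine le_trans (le_of_eq ?_) (hrow i)
    refine Finset.sum_congr rfl fun j _ => ?_
    rw [hTm]
    exact lm_l1 hinj (lin_mono (hsub _ (by omega)) (hTin i j))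
  · have : A'.map aug = A.map aug := by
      funext i j
      show aug (A' i j) = aug (A i j)
      rw [hA']
      exact lm_aug φ (A i j)
    rw [this]
    exact hadm

end Pool.Agent.Lib.MP_fed171_al.RP
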