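import Mathlib
import Pool.Agent.Lib.MP_fed171_al.RP.Stm

/-!
# Project RP (MP_fed171_al): piece `mat`
-/

set_option autoImplicit false

namespace Pool.Agent.Lib.MP_fed171_al.RP

open Matrix Finset

/-- An integral matrix which is injective mod `p` is injective: divisibility by all powers. -/
theorem mat_dvd (p : ℕ) [hp : Fact p.Prime] {ι κ : Type} [Fintype ι]
    (A : Matrix κ ι ℤ)
    (h : ∀ v : ι → ZMod p, (A.map (fun z : ℤ => (z : ZMod p))).mulVec v = 0 → v = 0) (n : ℕ) :
    ∀ v : ι → ℤ, A.mulVec v = 0 → ∀ j, (p : ℤ) ^ n ∣ v j := by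
  induction n with
  | zero => intro v _ j; simp
  | succ n ih =>
    intro v hv
    have h0 : (fun j => (v j : ZMod p)) = 0 := by
      apply h
      funext i
      have h1 := congrFun hv i
      simp only [Matrix.mulVec, dotProduct, Matrix.map_apply, Pi.zero_apply] at h1 ⊢
      have h2 := congrArg (fun z : ℤ => (z : ZMod p)) h1
      push_cast at h2
      exact h2
    have h1 : ∀ j, (p : ℤ) ∣ v j := by
      intro j
      have h2 := congrFun h0 j
      simp only [Pi.zero_apply] at h2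
      exact (ZMod.intCast_zmod_eq_zero_iff_dvd (v j) p).1 h2
    choose w hw using h1
    have hvw : v = (p : ℤ) • w := by
      funext j
      simp [hw j]
    have hp0 : (p : ℤ) ≠ 0 := by exact_mod_cast hp.out.ne_zero
    have hw0 : A.mulVec w = 0 := by
      rw [hvw, Matrix.mulVec_smul] at hv
      exact (smul_eq_zero.1 hv).resolve_left hp0
    intro j
    have h3 := ih w hw0 j
    rw [hw j, pow_succ']
    exact mul_dvd_mul_left _ h3

theorem mat_inj (p : ℕ) [hp : Fact p.Prime] {ι κ : Type} [Fintype ι]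
    (A : Matrix κ ι ℤ)
    (h : ∀ v : ι → ZMod p, (A.map (fun z : ℤ => (z : ZMod p))).mulVec v = 0 → v = 0)
    (v : ι → ℤ) (hv : A.mulVec v = 0) : v = 0 := by
  funext j
  have h1 := mat_dvd p A h (v j).natAbs v hv j
  have h2 : |v j| < (p : ℤ) ^ (v j).natAbs := by
    have h3 : (v j).natAbs < p ^ (v j).natAbs := Nat.lt_pow_self hp.out.one_lt
    have h4 : ((v j).natAbs : ℤ) < ((p ^ (v j).natAbs : ℕ) : ℤ) := by exact_mod_cast h3
    rw [Int.natCast_natAbs] at h4
    exact_mod_cast h4
  exact Int.eq_zero_of_abs_lt_dvd h1 h2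

theorem mat_det (p : ℕ) [hp : Fact p.Prime] {ι κ : Type} [Fintype ι] [DecidableEq ι] [Fintype κ]
    (A : Matrix κ ι ℤ)
    (h : ∀ v : ι → ZMod p, (A.map (fun z : ℤ => (z : ZMod p))).mulVec v = 0 → v = 0) :
    (A.transpose * A).det ≠ 0 := by
  intro hdet
  obtain ⟨v, hv0, hv⟩ := Matrix.exists_mulVec_eq_zero_iff.2 hdet
  apply hv0
  apply mat_inj p A h
  have h1 : dotProduct (A.mulVec v) (A.mulVec v) = 0 := by
    have h2 : dotProduct v ((A.transpose * A).mulVec v) = 0 := by rw [hv]; simp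
    rw [← Matrix.mulVec_mulVec, Matrix.dotProduct_mulVec, Matrix.vecMul_transpose] at h2
    exact h2
  funext i
  have h3 : ∑ k, A.mulVec v k * A.mulVec v k = 0 := h1
  have h4 := (Finset.sum_eq_zero_iff_of_nonneg (fun k _ => mul_self_nonneg _)).1 h3 i
    (Finset.mem_univ i)
  exact mul_self_eq_zero.1 h4

/-- The pointwise estimate. -/
theorem mat_point (K : ℝ) (N : ℕ) (δ l : ℝ) (hK : 1 ≤ K) (hδ : 0 < δ) (h0 : 0 < l) (hl : l ≤ K) :
    (1 - l / K) ^ (2 * N) ≤ bnd K N δ - δ * Real.log l := by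
  have hK0 : 0 < K := by linarith
  have h1 : 0 ≤ 1 - l / K := by
    have : l / K ≤ 1 := (div_le_one hK0).2 hl
    linarith
  have h2 : 1 - l / K ≤ 1 := by
    have : 0 < l / K := div_pos h0 hK0
    linarith
  have hlogK : 0 ≤ Real.log K := Real.log_nonneg hK
  unfold bnd
  rcases le_or_gt l (Real.exp (-(1 / δ))) with hc | hc
  · have h3 : (1 - l / K) ^ (2 * N) ≤ 1 := pow_le_one₀ h1 h2
    have h4 : Real.log l ≤ -(1 / δ) := by
      have := Real.log_le_log h0 hc
      rwa [Real.log_exp] at this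
    have h5 : 1 ≤ -(δ * Real.log l) := by
      have h6 : δ * Real.log l ≤ δ * (-(1 / δ)) := mul_le_mul_of_nonneg_left h4 hδ.le
      have h7 : δ * (-(1 / δ)) = -1 := by field_simp
      linarith
    have h6 : 0 ≤ Real.exp (-((2 * N : ℕ) : ℝ) * Real.exp (-(1 / δ)) / K) := (Real.exp_pos _).le
    have h7 : 0 ≤ δ * Real.log K := mul_nonneg hδ.le hlogK
    linarith
  · have h3 : 1 - l / K ≤ Real.exp (-(l / K)) := by
      have := Real.add_one_le_exp (-(l / K))
      linarith
    have h4 : (1 - l / K) ^ (2 * N) ≤ Real.exp (-(l / K)) ^ (2 * N) := pow_le_pow_left₀ h1 h3 _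
    have h5 : Real.exp (-(l / K)) ^ (2 * N) = Real.exp (((2 * N : ℕ) : ℝ) * (-(l / K))) := by
      rw [Real.exp_nat_mul]
    have h6 : Real.exp (((2 * N : ℕ) : ℝ) * (-(l / K))) ≤
        Real.exp (-((2 * N : ℕ) : ℝ) * Real.exp (-(1 / δ)) / K) := by
      apply Real.exp_le_exp.2
      have h7 : Real.exp (-(1 / δ)) / K ≤ l / K := div_le_div_of_nonneg_right hc.le hK0.le
      have h8 : (0 : ℝ) ≤ ((2 * N : ℕ) : ℝ) := Nat.cast_nonneg _
      have h9 := mul_le_mul_of_nonneg_left h7 h8
      calc ((2 * N : ℕ) : ℝ) * (-(l / K)) = -(((2 * N : ℕ) : ℝ) * (l / K)) := by ring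
        _ ≤ -(((2 * N : ℕ) : ℝ) * (Real.exp (-(1 / δ)) / K)) := by linarith
        _ = -((2 * N : ℕ) : ℝ) * Real.exp (-(1 / δ)) / K := by ring
    have h10 : 0 ≤ δ * Real.log K - δ * Real.log l := by
      have : Real.log l ≤ Real.log K := Real.log_le_log h0 hl
      nlinarith
    rw [h5] at h4
    linarith

/-- An eigenvalue is at most the maximal row sum. -/
theorem mat_eig_le {ι : Type} [Fintype ι] [DecidableEq ι] (M : Matrix ι ι ℝ) (hM : M.IsHermitian)
    (K : ℝ) (hr : ∀ i, ∑ j, |M i j| ≤ K) (i : ι) : hM.eigenvalues i ≤ K := by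
  have hv := hM.mulVec_eigenvectorBasis i
  have hv0 : hM.eigenvectorBasis i ≠ 0 := hM.eigenvectorBasis.orthonormal.ne_zero i
  set v : ι → ℝ := ⇑(hM.eigenvectorBasis i) with hvdef
  have hv1 : v ≠ 0 := by
    intro h
    apply hv0
    ext j
    exact congrFun h j
  obtain ⟨k, -, hk⟩ := Finset.exists_max_image Finset.univ (fun j => |v j|) ⟨i, Finset.mem_univ i⟩
  have hk0 : 0 < |v k| := by
    rcases (abs_nonneg (v k)).lt_or_eq with h | h
    · exact h
    · exfalso
      apply hv1
      funext j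
      have h2 := hk j (Finset.mem_univ j)
      rw [← h] at h2
      exact abs_eq_zero.1 (le_antisymm h2 (abs_nonneg _))
  have h1 : ∑ j, M k j * v j = hM.eigenvalues i * v k := by
    have := congrFun hv k
    simpa [Matrix.mulVec, dotProduct] using this
  have h2 : |hM.eigenvalues i| * |v k| ≤ K * |v k| := by
    rw [← abs_mul, ← h1]
    calc |∑ j, M k j * v j| ≤ ∑ j, |M k j * v j| := Finset.abs_sum_le_sum_abs _ _
      _ ≤ ∑ j, |M k j| * |v k| := by
        apply Finset.sum_le_sum
        intro j _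
        rw [abs_mul]
        exact mul_le_mul_of_nonneg_left (hk j (Finset.mem_univ j)) (abs_nonneg _)
      _ = (∑ j, |M k j|) * |v k| := by rw [Finset.sum_mul]
      _ ≤ K * |v k| := mul_le_mul_of_nonneg_right (hr k) (abs_nonneg _)
  exact (le_abs_self _).trans (le_of_mul_le_mul_right h2 hk0)

theorem mat_trace {ι : Type} [Fintype ι] [DecidableEq ι] (M : Matrix ι ι ℝ) (hM : M.IsHermitian)
    (c : ℝ) (n : ℕ) :
    ((1 - c • M) ^ n).trace = ∑ i, (1 - c * hM.eigenvalues i) ^ n := by
  have h1 := hM.spectral_theorem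
  set U := hM.eigenvectorUnitary with hU
  set D : Matrix ι ι ℝ := diagonal (RCLike.ofReal ∘ hM.eigenvalues) with hD
  have h2 : (1 - c • M) ^ n = Unitary.conjStarAlgAut ℝ _ U ((1 - c • D) ^ n) := by
    rw [map_pow, map_sub, map_one, map_smul, ← h1]
  rw [h2, Unitary.conjStarAlgAut_apply, Matrix.trace_mul_comm, ← mul_assoc]
  have h3 : (star (U : Matrix ι ι ℝ)) * (U : Matrix ι ι ℝ) = 1 := by
    simp
  rw [h3, one_mul]
  have h4 : (1 - c • D) = diagonal (fun i => 1 - c * hM.eigenvalues i) := by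
    ext a b
    by_cases hab : a = b
    · subst hab
      simp [hD]
    · simp [hD, hab, Matrix.one_apply_ne hab]
  rw [h4, Matrix.diagonal_pow, Matrix.trace_diagonal]
  rfl

theorem p_mat : S_mat := by
  intro p _ ι κ _ _ _ A hA K N δ hK hδ hr
  set M : Matrix ι ι ℝ := (A.transpose * A).map (fun z : ℤ => (z : ℝ)) with hMdef
  set B : Matrix κ ι ℝ := A.map (fun z : ℤ => (z : ℝ)) with hB
  have hMB : M = B.conjTranspose * B := by
    ext a b
    simp [hMdef, hB, Matrix.mul_apply]
  have hpos : M.PosSemidef := by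
    rw [hMB]
    exact Matrix.posSemidef_conjTranspose_mul_self B
  have hH : M.IsHermitian := hpos.1
  have hnn : ∀ i, 0 ≤ hH.eigenvalues i := fun i => hpos.eigenvalues_nonneg i
  have hdet : M.det = (((A.transpose * A).det : ℤ) : ℝ) := by
    have := RingHom.map_det (Int.castRingHom ℝ) (A.transpose * A)
    rw [hMdef]
    exact this.symm
  have hprod : ∏ i, hH.eigenvalues i = (((A.transpose * A).det : ℤ) : ℝ) := by
    rw [← hdet, hH.det_eq_prod_eigenvalues]
    simp
  have hge : (1 : ℝ) ≤ ∏ i, hH.eigenvalues i := by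
    have h1 : 0 ≤ ∏ i, hH.eigenvalues i := Finset.prod_nonneg fun i _ => hnn i
    rw [hprod] at h1 ⊢
    have h2 : 0 ≤ (A.transpose * A).det := by exact_mod_cast h1
    have h3 := mat_det p A hA
    have h4 : 1 ≤ (A.transpose * A).det := by omega
    exact_mod_cast h4
  have hlt : ∀ i, 0 < hH.eigenvalues i := by
    intro i
    rcases (hnn i).lt_or_eq with h | h
    · exact h
    · exfalso
      have : ∏ i, hH.eigenvalues i = 0 := Finset.prod_eq_zero (Finset.mem_univ i) h.symm
      linarith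
  have hle : ∀ i, hH.eigenvalues i ≤ K := by
    apply mat_eig_le M hH K
    intro i
    exact hr i
  rw [mat_trace M hH K⁻¹ (2 * N)]
  have hlog : 0 ≤ ∑ i, Real.log (hH.eigenvalues i) := by
    rw [← Real.log_prod (fun i _ => (hlt i).ne')]
    exact Real.log_nonneg hge
  calc ∑ i, (1 - K⁻¹ * hH.eigenvalues i) ^ (2 * N)
      ≤ ∑ i, (bnd K N δ - δ * Real.log (hH.eigenvalues i)) := by
        apply Finset.sum_le_sum
        intro i _
        have := mat_point K N δ (hH.eigenvalues i) hK hδ (hlt i) (hle i)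
        rwa [div_eq_inv_mul] at this
    _ = Fintype.card ι * bnd K N δ - δ * ∑ i, Real.log (hH.eigenvalues i) := by
        rw [Finset.sum_sub_distrib, ← Finset.mul_sum]
        simp
    _ ≤ Fintype.card ι * bnd K N δ := by
        have := mul_nonneg hδ.le hlog
        linarith

end Pool.Agent.Lib.MP_fed171_al.RP
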