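import Mathlib
import Pool.Agent.Lib.MP_fed171_al.RP.Stm

/-!
# Project RP (MP_fed171_al): powers of a compression
-/

set_option autoImplicit false

namespace Pool.Agent.Lib.MP_fed171_al.RP

theorem p_pow (h1 : S_cfacts) (h2 : S_cmul) : S_pow := by
  intro G _ N _ ι _ _ _ B F F₀ M hM
  have hf := fun (a b : MonoidAlgebra ℝ G) (r : ℝ) (q' q : G ⧸ N) => h1.1 ℝ G N a b r q' q
  have hzero : ∀ q' q : G ⧸ N, comp N (0 : MonoidAlgebra ℝ G) q' q = 0 := by
    intro q' q
    have := (hf 0 0 0 q' q).2.2.2.2.1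
    rwa [sub_self, sub_self] at this
  have hsum : ∀ (q' q : G ⧸ N) (s : Finset ι) (f : ι → MonoidAlgebra ℝ G),
      comp N (∑ l ∈ s, f l) q' q = ∑ l ∈ s, comp N (f l) q' q := by
    intro q' q s f
    classical
    induction s using Finset.induction_on with
    | empty => simpa using hzero q' q
    | insert a s ha ih =>
      rw [Finset.sum_insert ha, Finset.sum_insert ha, ← ih]
      exact (hf _ _ 0 q' q).2.2.2.2.2.1
  intro k
  induction k with
  | zero =>
    intro _ x y _
    rw [pow_zero, pow_zero]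
    by_cases h : x = y
    · subst h
      rw [Matrix.one_apply_eq, Matrix.one_apply_eq]
      exact ((hf 0 0 0 x.2 x.2).2.2.1).symm
    · rw [Matrix.one_apply_ne h]
      by_cases h' : x.1 = y.1
      · have h3 : (x.2 : G ⧸ N) ≠ y.2 := by
          intro h4
          exact h (Prod.ext h' (Subtype.ext h4))
        rw [h', Matrix.one_apply_eq]
        exact ((hf 0 0 0 x.2 y.2).2.2.2.1 h3).symm
      · rw [Matrix.one_apply_ne h', hzero]
  | succ k ih =>
    intro hk x y hy
    have hk' : k ≤ M := by omega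
    rw [pow_succ', pow_succ', Matrix.mul_apply, Matrix.mul_apply, hsum, Fintype.sum_prod_type]
    apply Finset.sum_congr rfl
    intro l _
    rw [h2 ℝ G N (B x.1 l) ((B ^ k) l y.1) x.2 y.2 F
      (fun g hg => hM k hk' l y.1 g hg y.2 hy), ← Finset.sum_coe_sort F
        (fun q' => comp N (B x.1 l) x.2 q' * comp N ((B ^ k) l y.1) q' y.2)]
    apply Finset.sum_congr rfl
    intro q _
    rw [ih hk' (l, q) y hy]
    rfl

end Pool.Agent.Lib.MP_fed171_al.RP
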