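import Pool.Agent.Lib.MP_fed171_al.RP.Fin
import Pool.Agent.Lib.MP_fed171_al.RP.P_fix
import Pool.Agent.Lib.MP_fed171_al.RP.P_alg
import Pool.Agent.Lib.MP_fed171_al.RP.P_mat
import Pool.Agent.Lib.MP_fed171_al.RP.P_base
import Pool.Agent.Lib.MP_fed171_al.RP.P_lim
import Pool.Agent.Lib.MP_fed171_al.RP.P_cfacts
import Pool.Agent.Lib.MP_fed171_al.RP.P_cmul
import Pool.Agent.Lib.MP_fed171_al.RP.P_cmat
import Pool.Agent.Lib.MP_fed171_al.RP.P_pow
import Pool.Agent.Lib.MP_fed171_al.RP.P_pos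
import Pool.Agent.Lib.MP_fed171_al.RP.P_fol
import Pool.Agent.Lib.MP_fed171_al.RP.P_adm
import Pool.Agent.Lib.MP_fed171_al.RP.P_ext
import Pool.Agent.Lib.MP_fed171_al.RP.P_ineq
import Pool.Agent.Lib.MP_fed171_al.RP.P_inj
import Pool.Agent.Lib.MP_fed171_al.RP.P_fox
import Pool.Agent.Lib.MP_fed171_al.RP.P_dual

/-!
# Project RP (MP_fed171_al): all the pieces together
-/

set_option autoImplicit false

namespace Pool.Agent.Lib.MP_fed171_al.RP

theorem t_alg : S_alg := p_alg p_fix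
theorem t_base : S_base := p_base p_mat
theorem t_cmat : S_cmat := p_cmat p_cfacts p_cmul
theorem t_pow : S_pow := p_pow p_cfacts p_cmul
theorem t_adm : S_adm := p_adm t_alg p_cfacts
theorem t_ext : S_ext := p_ext p_cfacts t_cmat t_pow p_pos p_fol t_adm
theorem t_ineq : S_ineq := p_ineq p_pos
theorem t_inj : S_inj := p_inj t_ineq

end Pool.Agent.Lib.MP_fed171_al.RP
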