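import Mathlib

/-!
# Project RP (MP_fed171_al): the classes of groups
-/

set_option autoImplicit false

namespace Pool.Agent.Lib.MP_fed171_al.RP

/-- The group `Q` is amenable (Følner's condition): for all finite `S` and `ε > 0` there is a
nonempty finite `F` such that at most `ε |F|` elements of `s F` are outside `F`, for all `s ∈ S`. -/
def Amenable (Q : Type) [Group Q] : Prop :=
  ∀ (S : Finset Q) (ε : ℝ), 0 < ε → ∃ F : Finset Q, F.Nonempty ∧
    ∀ s ∈ S, (({q ∈ (F : Set Q) | s * q ∉ F}.ncard : ℕ) : ℝ) ≤ ε * F.card

/-- Every nontrivial finitely generated subgroup of `Q` has a nontrivial homomorphism to the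
group with `p` elements. -/
def LocInd (p : ℕ) (Q : Type) [Group Q] : Prop :=
  ∀ H : Subgroup Q, H.FG → H ≠ ⊥ → ∃ φ : H →* Multiplicative (ZMod p), φ ≠ 1

/-- `G` is a limit of groups in the class `C`: for every finite subset `F` of `G` there is a map to
a group in `C` which is injective on `F` and multiplicative on `F × F`. -/
def LocallyIn (C : ∀ (H : Type) [Group H], Prop) (G : Type) [Group G] : Prop :=
  ∀ F : Finset G, ∃ (H : Type) (_ : Group H) (φ : G → H),
    C H ∧ Set.InjOn φ F ∧ ∀ x ∈ F, ∀ y ∈ F, φ (x * y) = φ x * φ y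

/-- `P` is a nonempty set of primes. -/
def PrimeSet (P : Set ℕ) : Prop := P.Nonempty ∧ ∀ p ∈ P, p.Prime

/-- For all nonempty sets `P` of primes the class `C P` contains the trivial groups, is closed under
limits, and under extensions with amenable quotients in which every nontrivial finitely generated
subgroup has, for every `p ∈ P`, a nontrivial homomorphism to the group with `p` elements; and
`C P` is contained in `C P'` if `P ⊆ P'`. -/
structure ClosedFamily (C : Set ℕ → ∀ (H : Type) [Group H], Prop) : Prop where
  triv : ∀ P : Set ℕ, PrimeSet P → ∀ (G : Type) [Group G] [Subsingleton G], C P G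
  lim : ∀ P : Set ℕ, PrimeSet P → ∀ (G : Type) [Group G], LocallyIn (C P) G → C P G
  ext : ∀ P : Set ℕ, PrimeSet P → ∀ (G : Type) [Group G] (N : Subgroup G) [N.Normal],
    C P N → Amenable (G ⧸ N) → (∀ p ∈ P, LocInd p (G ⧸ N)) → C P G
  mono : ∀ P P' : Set ℕ, PrimeSet P → PrimeSet P' → P ⊆ P' → ∀ (G : Type) [Group G],
    C P G → C P' G

/-- `G` belongs to the class `T_P`: the `T_P`, `P` a nonempty set of primes, are the smallest
classes which are closed in the sense above. -/
def InT (P : Set ℕ) (G : Type) [Group G] : Prop :=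
  ∀ C : Set ℕ → ∀ (H : Type) [Group H], Prop, ClosedFamily C → C P G

end Pool.Agent.Lib.MP_fed171_al.RP
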