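import Mathlib
import Pool.Agent.Lib.MP_fed171_al.FD.Defs
import Pool.Agent.Lib.MP_fed171_al.RP.Cls

/-!
# Project RP (MP_fed171_al): group rings, matrices over them, the property `DD`
-/

set_option autoImplicit false

namespace Pool.Agent.Lib.MP_fed171_al.RP

open Pool.Agent.Lib.MP_fed171_al.FD (L2 lam)

section Ring

variable {R : Type} [CommRing R] {G : Type} [Group G]

/-- The augmentation: the sum of the coefficients. -/
noncomputable def aug (a : MonoidAlgebra R G) : R := a.coeff.sum fun _ r => r

/-- The adjoint of an element of the group ring: `(adj a) g = a g⁻¹`. -/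
noncomputable def adj (a : MonoidAlgebra R G) : MonoidAlgebra R G :=
  MonoidAlgebra.mapDomain (fun g : G => g⁻¹) a

variable {ι κ : Type}

/-- The adjoint of a matrix over the group ring. -/
noncomputable def mstar (A : Matrix κ ι (MonoidAlgebra R G)) : Matrix ι κ (MonoidAlgebra R G) :=
  fun j i => adj (A i j)

end Ring

section DDef

variable {G : Type} [Group G] {ι κ : Type}

/-- The sum of the absolute values of the coefficients. -/
noncomputable def l1 (a : MonoidAlgebra ℤ G) : ℝ := a.coeff.sum fun _ r => |(r : ℝ)|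

/-- All row sums of the matrix of the `l1` norms are at most `K`. -/
def RowBound [Fintype ι] (T : Matrix ι ι (MonoidAlgebra ℤ G)) (K : ℝ) : Prop :=
  ∀ i, ∑ j, l1 (T i j) ≤ K

/-- The inclusion of the integral in the real group ring. -/
noncomputable def toR : MonoidAlgebra ℤ G →+* MonoidAlgebra ℝ G :=
  MonoidAlgebra.mapRingHom G (Int.castRingHom ℝ)

/-- `1 - A* A / K`. -/
noncomputable def BB [Fintype κ] [Fintype ι] [DecidableEq ι]
    (A : Matrix κ ι (MonoidAlgebra ℤ G)) (K : ℝ) : Matrix ι ι (MonoidAlgebra ℝ G) :=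
  1 - K⁻¹ • (mstar A * A).map toR

/-- The trace: the sum of the coefficients at `1` of the diagonal entries. -/
noncomputable def tr [Fintype ι] (M : Matrix ι ι (MonoidAlgebra ℝ G)) : ℝ :=
  ∑ i, (M i i).coeff 1

/-- The integral matrix `A` is injective modulo all `p ∈ P`. -/
def Adm (P : Set ℕ) [Fintype ι] (A : Matrix κ ι ℤ) : Prop :=
  ∀ p ∈ P, ∀ v : ι → ZMod p, (A.map (fun z : ℤ => (z : ZMod p))).mulVec v = 0 → v = 0

end DDef

/-- The bound. -/
noncomputable def bnd (K : ℝ) (N : ℕ) (δ : ℝ) : ℝ :=
  Real.exp (-((2 * N : ℕ) : ℝ) * Real.exp (-(1 / δ)) / K) + δ * Real.log K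

/-- The trace property: for every matrix `A` over the integral group ring whose augmentation is
injective modulo all `p ∈ P`, the trace of `(1 - A* A / K)^(2N)` is small. -/
def DD (P : Set ℕ) (G : Type) [Group G] : Prop :=
  ∀ (ι κ : Type) [Fintype ι] [DecidableEq ι] [Fintype κ] (A : Matrix κ ι (MonoidAlgebra ℤ G))
    (K : ℝ) (N : ℕ) (δ : ℝ), 1 ≤ K → 0 < δ → RowBound (mstar A * A) K → Adm P (A.map aug) →
    tr (BB A K ^ (2 * N)) ≤ Fintype.card ι * bnd K N δ

/-- The action of the integral group ring on `ℓ²(Γ)`. -/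
noncomputable def act {Γ : Type} [Group Γ] (a : MonoidAlgebra ℤ Γ) (ξ : L2 Γ) : L2 Γ :=
  a.coeff.sum fun g r => (r : ℂ) • lam g ξ

section Comp

variable {R : Type} [CommRing R] {G : Type} [Group G] (N : Subgroup G) [N.Normal]

theorem comp_inj (q' q : G ⧸ N) :
    Function.Injective (fun h : N => Quotient.out q' * (h : G) * (Quotient.out q)⁻¹) := by
  intro x y hxy
  exact Subtype.ext (mul_left_cancel (mul_right_cancel hxy))

/-- Write `G` as the union of the cosets `s q N`, `s = Quotient.out`. Left multiplication by `a` maps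
`s q v`, `v` in the group ring of `N`, to the sum of the `s q' (comp N a q' q) v`:
`(comp N a q' q) h = a (s q' h (s q)⁻¹)`. -/
noncomputable def comp (a : MonoidAlgebra R G) (q' q : G ⧸ N) : MonoidAlgebra R N :=
  MonoidAlgebra.comapDomain (fun h : N => Quotient.out q' * (h : G) * (Quotient.out q)⁻¹)
    (comp_inj N q' q) a

variable {ι κ : Type}

/-- The part of the matrix `A` with columns in `F` and rows in `F'`, as a matrix over the group ring
of `N`. -/
noncomputable def cmat (A : Matrix κ ι (MonoidAlgebra R G)) (F' F : Finset (G ⧸ N)) :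
    Matrix (κ × F') (ι × F) (MonoidAlgebra R N) :=
  fun x y => comp N (A x.1 y.1) x.2 y.2

end Comp

end Pool.Agent.Lib.MP_fed171_al.RP
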