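import Pool.Agent.Lib.MP_fed171_al.RP.Stm
import Pool.Agent.Lib.MP_fed171_al.FD.Bridge

/-!
# Project RP (MP_fed171_al): the final theorem from the pieces
-/

set_option autoImplicit false

namespace Pool.Agent.Lib.MP_fed171_al.RP

open Pool.Agent.Lib.MP_fed171_al.FD (L2 lam IsCocycle br_cocycle br_betti br_bettiOf t_rigid t_rel
  t_facts)

theorem DD_mono {P P' : Set ℕ} (h : P ⊆ P') (G : Type) [Group G] (hG : DD P G) : DD P' G := by
  intro ι κ _ _ _ A K N δ hK hδ hR hA
  exact hG ι κ A K N δ hK hδ hR (fun p hp => hA p (h hp))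

theorem closed_DD (h_base : S_base) (h_lim : S_lim) (h_ext : S_ext) :
    ClosedFamily (fun P H _ => DD P H) where
  triv := fun P hP G _ _ => h_base P G (by
    obtain ⟨p, hp⟩ := hP.1
    exact ⟨p, hp, hP.2 p hp⟩)
  lim := fun P _ G _ h => h_lim P G h
  ext := fun P hP G _ N _ h1 h2 h3 => h_ext P hP.2 G N h1 h2 h3
  mono := fun _ _ _ _ h G _ hG => DD_mono h G hG

theorem DD_of_InT (h_base : S_base) (h_lim : S_lim) (h_ext : S_ext) (P : Set ℕ)
    (G : Type) [Group G] (hG : InT P G) : DD P G :=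
  hG _ (closed_DD h_base h_lim h_ext)

/-- A cocycle which vanishes on a generating family vanishes. -/
theorem coc_gen {Γ : Type} [Group Γ] {ι : Type} (S : ι → Γ)
    (hS : Subgroup.closure (Set.range S) = ⊤) (b : Γ → L2 Γ) (hb : IsCocycle b)
    (h : ∀ i, b (S i) = 0) (x : Γ) : b x = 0 := by
  have h1 : b 1 = 0 := by
    have := hb 1 1
    rw [mul_one] at this
    have h2 : lam (1 : Γ) (b 1) = b 1 := by
      refine lp.ext ?_
      funext z
      change b 1 ((1 : Γ)⁻¹ * z) = b 1 z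
      rw [inv_one, one_mul]
    rw [h2] at this
    simpa using this
  have hx : x ∈ Subgroup.closure (Set.range S) := by rw [hS]; exact Subgroup.mem_top x
  induction hx using Subgroup.closure_induction with
  | mem x hx =>
    obtain ⟨i, rfl⟩ := hx
    exact h i
  | one => exact h1
  | mul x y _ _ hx hy => rw [hb x y, hx, hy, map_zero, add_zero]
  | inv x _ hx =>
    have := hb x⁻¹ x
    rw [inv_mul_cancel, h1, hx, map_zero, add_zero] at this
    exact this.symm

/-- The same on a subgroup. -/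
theorem coc_sub {Γ : Type} [Group Γ] (s : Set Γ) (b : Γ → L2 Γ) (hb : IsCocycle b)
    (h : ∀ g ∈ s, b g = 0) (x : Γ) (hx : x ∈ Subgroup.closure s) : b x = 0 := by
  have h1 : b 1 = 0 := by
    have := hb 1 1
    rw [mul_one] at this
    have h2 : lam (1 : Γ) (b 1) = b 1 := by
      refine lp.ext ?_
      funext z
      change b 1 ((1 : Γ)⁻¹ * z) = b 1 z
      rw [inv_one, one_mul]
    rw [h2] at this
    simpa using this
  induction hx using Subgroup.closure_induction with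
  | mem x hx => exact h x hx
  | one => exact h1
  | mul x y _ _ hx hy => rw [hb x y, hx, hy, map_zero, add_zero]
  | inv x _ hx =>
    have := hb x⁻¹ x
    rw [inv_mul_cancel, h1, hx, map_zero, add_zero] at this
    exact this.symm

/-- Rigidity. -/
theorem rigid (h_inj : S_inj) (h_fox : S_fox) (P : Set ℕ) (hP : ∀ p ∈ P, p.Prime) (Γ : Type)
    [Group Γ] (hD : DD P Γ) (hf : Short.FinGen Γ) (H : Subgroup Γ)
    (hH : ∀ p ∈ P, ∀ χ : Γ →* Multiplicative (ZMod p), (∀ h ∈ H, χ h = 1) → χ = 1)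
    (b : Γ → L2 Γ) (hb : IsCocycle b) (h0 : ∀ h ∈ H, b h = 0) (x : Γ) : b x = 0 := by
  obtain ⟨d, S, hS⟩ := hf
  obtain ⟨m, A, hA, hA'⟩ := h_fox Γ d S hS H
  have hadm : Adm P (A.map aug) := by
    intro p hp
    haveI : Fact p.Prime := ⟨hP p hp⟩
    exact hA' p (hH p hp) p rfl
  have h1 := h_inj P Γ hD (Fin d) (Fin m) A hadm (fun j => b (S j)) (hA b hb h0)
  exact coc_gen S hS b hb (fun i => congrFun h1 i) x

/-- The relative bound. -/
theorem relb (Γ : Type) [Group Γ] [Infinite Γ] (hf : Short.FinGen Γ) (H : Subgroup Γ)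
    (hr : ∀ b : Γ → L2 Γ, IsCocycle b → (∀ h ∈ H, b h = 0) → ∀ x, b x = 0)
    (hH : Short.FinGen H) (hi : Infinite H) : Short.betti Γ ≤ Short.betti H := by
  obtain ⟨d, S, hS⟩ := id hf
  obtain ⟨e, T, hT⟩ := id hH
  rw [br_betti Γ hf, br_betti H hH, t_facts.2.2.1 Γ (Fin d) S hS, t_facts.2.2.1 H (Fin e) T hT]
  refine t_rel Γ H H.subtype (Fin d) (Fin e) S T H.subtype_injective hS hT ?_
  intro b hb h0 x
  refine hr b hb (fun h hh => ?_) x
  have key : ∀ y ∈ Subgroup.closure (Set.range T), b ((y : H) : Γ) = 0 := by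
    intro y hy
    have h2 : ((y : H) : Γ) ∈ Subgroup.closure (Set.range fun j => ((T j : H) : Γ)) := by
      have h3 : Subgroup.map H.subtype (Subgroup.closure (Set.range T)) =
          Subgroup.closure (Set.range fun j => ((T j : H) : Γ)) := by
        rw [MonoidHom.map_closure, ← Set.range_comp]
        rfl
      rw [← h3]
      exact ⟨y, hy, rfl⟩
    refine coc_sub _ b hb ?_ _ h2
    rintro g ⟨j, rfl⟩
    exact h0 j
  exact key ⟨h, hh⟩ (by rw [hT]; exact Subgroup.mem_top _)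

/-- The bound by the number of elements. -/
theorem numb (Γ : Type) [Group Γ] [Infinite Γ] (hf : Short.FinGen Γ) (n : ℕ) (g : Fin n → Γ)
    (hr : ∀ b : Γ → L2 Γ, IsCocycle b → (∀ h ∈ Subgroup.closure (Set.range g), b h = 0) →
      ∀ x, b x = 0) : Short.betti Γ ≤ (n : ℝ) - 1 := by
  obtain ⟨d, S, hS⟩ := id hf
  rw [br_betti Γ hf, t_facts.2.2.1 Γ (Fin d) S hS]
  have := t_rigid Γ (Fin d) (Fin n) S g hS (fun b hb h0 x => hr b hb (fun h hh =>
    coc_sub _ b hb (by rintro y ⟨j, rfl⟩; exact h0 j) h hh) x)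
  simpa using this

/-- A homomorphism to a commutative group which is trivial on `H`, `H [Γ, Γ] = Γ`, is trivial. -/
theorem ab_triv (Γ : Type) [Group Γ] (H : Subgroup Γ) (hH : H ⊔ commutator Γ = ⊤) (M : Type)
    [CommGroup M] (χ : Γ →* M) (h : ∀ x ∈ H, χ x = 1) : χ = 1 := by
  have h1 : H ⊔ commutator Γ ≤ χ.ker := by
    refine sup_le (fun x hx => h x hx) ?_
    exact Abelianization.commutator_subset_ker χ
  rw [hH] at h1
  ext x
  exact h1 (Subgroup.mem_top x)

theorem nrk_ab (Γ : Type) [Group Γ] (s : Set Γ) (hs : Subgroup.normalClosure s = ⊤) :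
    Subgroup.closure s ⊔ commutator Γ = ⊤ := by
  have hN : (Subgroup.closure s ⊔ commutator Γ).Normal := by
    refine ⟨fun n hn g => ?_⟩
    have h1 : g * n * g⁻¹ * n⁻¹ ∈ Subgroup.closure s ⊔ commutator Γ := by
      refine (le_sup_right : commutator Γ ≤ _) ?_
      exact Subgroup.commutator_mem_commutator (Subgroup.mem_top g) (Subgroup.mem_top n)
    have h2 := (Subgroup.closure s ⊔ commutator Γ).mul_mem h1 hn
    simpa using h2
  rw [eq_top_iff, ← hs]
  exact Subgroup.normalClosure_le_normal (fun x hx =>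
    (le_sup_left : Subgroup.closure s ≤ _) (Subgroup.subset_closure hx))

/-- THE FINAL THEOREM from the pieces. -/
theorem final (h_base : S_base) (h_lim : S_lim) (h_ext : S_ext) (h_inj : S_inj) (h_fox : S_fox)
    (P : Set ℕ) (hP : PrimeSet P) (Γ : Type) [Group Γ] [Infinite Γ] (hT : InT P Γ)
    (hf : Short.FinGen Γ) :
    Short.betti Γ ≤ (Short.nrk Γ : ℝ) - 1 ∧
    ∀ H : Subgroup Γ,
      (∀ p ∈ P, ∀ χ : Γ →* Multiplicative (ZMod p), (∀ h ∈ H, χ h = 1) → χ = 1) →
      (∀ b : Γ → Short.L2 Γ, Short.IsCocycle b → (∀ h ∈ H, b h = 0) → ∀ x, b x = 0) ∧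
      (∀ (n : ℕ) (g : Fin n → Γ), Subgroup.closure (Set.range g) = H →
        Short.betti Γ ≤ (n : ℝ) - 1) ∧
      (Short.FinGen H → Infinite H → Short.betti Γ ≤ Short.betti H) := by
  have hD := DD_of_InT h_base h_lim h_ext P Γ hT
  have key : ∀ H : Subgroup Γ,
      (∀ p ∈ P, ∀ χ : Γ →* Multiplicative (ZMod p), (∀ h ∈ H, χ h = 1) → χ = 1) →
      ∀ b : Γ → L2 Γ, IsCocycle b → (∀ h ∈ H, b h = 0) → ∀ x, b x = 0 := by
    intro H hH b hb h0 x
    exact rigid h_inj h_fox P hP.2 Γ hD hf H hH b hb h0 x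
  refine ⟨?_, fun H hH => ⟨fun b hb h0 x => ?_, fun n g hg => ?_, fun hHf hHi => ?_⟩⟩
  · obtain ⟨g, hg⟩ := t_facts.1 Γ hf
    refine numb Γ hf _ g (key _ fun p _ χ hχ => ?_)
    exact ab_triv Γ _ (nrk_ab Γ _ hg) _ χ hχ
  · exact key H hH b ((br_cocycle b).1 hb) h0 x
  · subst hg
    exact numb Γ hf n g (key _ hH)
  · exact relb Γ hf H (key H hH) hHf hHi

end Pool.Agent.Lib.MP_fed171_al.RP
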