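import Pool.Agent.Lib.MP_fed171_al.RP.Stm

/-!
# Project RP (MP_fed171_al), piece pos: even powers of selfadjoint matrices
-/

set_option autoImplicit false

namespace Pool.Agent.Lib.MP_fed171_al.RP

section Adj

variable {R : Type} [CommRing R] {G : Type} [Group G]

private theorem pos_add (a b : MonoidAlgebra R G) : adj (a + b) = adj a + adj b :=
  MonoidAlgebra.mapDomain_add _ _ _

private theorem pos_zero : adj (0 : MonoidAlgebra R G) = 0 := MonoidAlgebra.mapDomain_zero _

private theorem pos_single (g : G) (r : R) :
    adj (MonoidAlgebra.single g r) = MonoidAlgebra.single g⁻¹ r := MonoidAlgebra.mapDomain_single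

private noncomputable def pos_hom : MonoidAlgebra R G →+ MonoidAlgebra R G where
  toFun := adj
  map_zero' := pos_zero
  map_add' := pos_add

private theorem pos_sum {ι : Type} (s : Finset ι) (f : ι → MonoidAlgebra R G) :
    adj (∑ i ∈ s, f i) = ∑ i ∈ s, adj (f i) := map_sum pos_hom f s

private theorem pos_sub (a b : MonoidAlgebra R G) : adj (a - b) = adj a - adj b :=
  map_sub pos_hom a b

private theorem pos_one : adj (1 : MonoidAlgebra R G) = 1 := by
  rw [MonoidAlgebra.one_def, pos_single, inv_one]

private theorem pos_mul (a b : MonoidAlgebra R G) : adj (a * b) = adj b * adj a := by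
  induction a using MonoidAlgebra.induction_linear with
  | zero => rw [zero_mul, pos_zero, mul_zero]
  | add x y hx hy => rw [add_mul, pos_add, hx, hy, pos_add, mul_add]
  | single g r =>
    induction b using MonoidAlgebra.induction_linear with
    | zero => rw [mul_zero, pos_zero, zero_mul]
    | add x y hx hy => rw [mul_add, pos_add, hx, hy, pos_add, add_mul]
    | single h s =>
      rw [MonoidAlgebra.single_mul_single, pos_single, pos_single, pos_single,
        MonoidAlgebra.single_mul_single, mul_inv_rev, mul_comm r s]

private theorem pos_adj (a : MonoidAlgebra R G) : adj (adj a) = a := by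
  induction a using MonoidAlgebra.induction_linear with
  | zero => rw [pos_zero, pos_zero]
  | add x y hx hy => rw [pos_add, pos_add, hx, hy]
  | single g r => rw [pos_single, pos_single, inv_inv]

private theorem pos_smul (c : R) (a : MonoidAlgebra R G) : adj (c • a) = c • adj a :=
  MonoidAlgebra.mapDomain_smul _ _ _

private theorem pos_toR (a : MonoidAlgebra ℤ G) : adj (toR a) = toR (adj a) := by
  induction a using MonoidAlgebra.induction_linear with
  | zero => rw [pos_zero, map_zero, pos_zero]
  | add x y hx hy => rw [map_add, pos_add, hx, hy, pos_add, map_add]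
  | single g r =>
    have h : ∀ g : G, toR (MonoidAlgebra.single g r) = MonoidAlgebra.single g (r : ℝ) :=
      fun g => MonoidAlgebra.map_single _ _ _
    rw [h, pos_single, pos_single, h]

/-- the coefficient at `1` of `adj a * b` -/
private theorem pos_coeff (a b : MonoidAlgebra R G) :
    (adj a * b).coeff 1 = a.coeff.sum fun g r => r * b.coeff g := by
  induction a using MonoidAlgebra.induction_linear with
  | zero =>
    rw [pos_zero, zero_mul]
    simp
  | add x y hx hy =>
    rw [pos_add, add_mul, MonoidAlgebra.coeff_add, Finsupp.add_apply, hx, hy,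
      MonoidAlgebra.coeff_add, Finsupp.sum_add_index']
    · intro g
      simp
    · intro g r s
      ring
  | single g r =>
    rw [pos_single, MonoidAlgebra.coeff_single_mul_apply, inv_inv, mul_one,
      MonoidAlgebra.coeff_single, Finsupp.sum_single_index (by simp)]

variable {ι κ : Type}

private theorem pos_star_mul [Fintype ι] (A B : Matrix ι ι (MonoidAlgebra R G)) :
    mstar (A * B) = mstar B * mstar A := by
  ext i j : 1
  change adj (∑ l, A j l * B l i) = ∑ l, adj (B l i) * adj (A j l)
  rw [pos_sum]
  exact Finset.sum_congr rfl fun l _ => pos_mul _ _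

private theorem pos_star_one [DecidableEq ι] :
    mstar (1 : Matrix ι ι (MonoidAlgebra R G)) = 1 := by
  ext i j : 1
  change adj ((1 : Matrix ι ι (MonoidAlgebra R G)) j i) = _
  rw [Matrix.one_apply, Matrix.one_apply]
  by_cases h : i = j
  · rw [if_pos h, if_pos h.symm, pos_one]
  · rw [if_neg h, if_neg (fun h' => h h'.symm), pos_zero]

private theorem pos_star_pow [Fintype ι] [DecidableEq ι] (M : Matrix ι ι (MonoidAlgebra R G))
    (hM : mstar M = M) (N : ℕ) : mstar (M ^ N) = M ^ N := by
  induction N with
  | zero => rw [pow_zero, pos_star_one]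
  | succ n ih => rw [pow_succ, pos_star_mul, ih, hM, ← pow_succ', pow_succ]

end Adj

/-- **RP pos** -/
theorem p_pos : S_pos := by
  refine ⟨?_, ?_⟩
  · intro G _ ι _ _ M hM N x
    have hN := pos_star_pow M hM N
    refine ⟨hN, ?_⟩
    rw [two_mul, pow_add, Matrix.mul_apply, MonoidAlgebra.coeff_sum, Finset.sum_apply']
    refine Finset.sum_congr rfl fun y _ => ?_
    have h : (M ^ N) x y = adj ((M ^ N) y x) := by
      have := congrFun (congrFun hN x) y
      exact this.symm
    rw [h, pos_coeff]
    refine Finsupp.sum_congr fun g _ => ?_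
    rw [pow_two]
  · intro G _ ι κ _ _ _ A K
    ext i j : 1
    change adj (BB A K j i) = BB A K i j
    have e : ∀ i j, BB A K i j = (1 : Matrix ι ι (MonoidAlgebra ℝ G)) i j -
        K⁻¹ • toR (∑ l, adj (A l i) * A l j) := fun i j => rfl
    have h1 : adj ((1 : Matrix ι ι (MonoidAlgebra ℝ G)) j i) =
        (1 : Matrix ι ι (MonoidAlgebra ℝ G)) i j :=
      congrFun (congrFun (pos_star_one (R := ℝ) (G := G) (ι := ι)) i) j
    rw [e, e, pos_sub, h1, pos_smul, pos_toR, pos_sum]
    congr 3
    refine Finset.sum_congr rfl fun l _ => ?_
    rw [pos_mul, pos_adj]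

end Pool.Agent.Lib.MP_fed171_al.RP
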